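import Mathlib

/-!
Definitions used in the statement.
-/

namespace Pool.Agent.Lib.MP_781e3b_co

/-- Every colouring of the edges of `G` with `q` colours has a monochromatic copy of `H`. -/
def Arrows {U V : Type} (G : SimpleGraph U) (H : SimpleGraph V) (q : ℕ) : Prop :=
  ∀ c : U → U → Fin q, (∀ x y, c x y = c y x) → ∃ i : Fin q, ∃ f : V → U, Function.Injective f ∧
    ∀ u v, H.Adj u v → G.Adj (f u) (f v) ∧ c (f u) (f v) = i

/-- Ramsey equivalence in `q` colours. -/
def RamseyEquiv {V W : Type} (H₁ : SimpleGraph V) (H₂ : SimpleGraph W) (q : ℕ) : Prop :=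
  ∀ (n : ℕ) (G : SimpleGraph (Fin n)), Arrows G H₁ q ↔ Arrows G H₂ q

/-- Every edge has an endpoint of degree one, that is, every component is a star or a vertex. -/
def IsStarForest {V : Type} (H : SimpleGraph V) : Prop :=
  ∀ u v, H.Adj u v → (∀ w, H.Adj u w → w = v) ∨ ∀ w, H.Adj v w → w = u

end Pool.Agent.Lib.MP_781e3b_co
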