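import Pool.Agent.Lib.MP_781e3b_co.H92NR

/-!
Graphs without short odd cycles have the Ramsey property (iterated partite construction).
-/

set_option linter.unusedVariables false
set_option linter.unusedSectionVars false

namespace Pool.Agent.Lib.MP_781e3b_co.H92

open Finset Classical

variable {X Z : Type}

/-- There is a closed walk of length `n`. -/
def Cyc (K : SimpleGraph Z) (n : ℕ) : Prop :=
  ∃ x : ℕ → Z, x n = x 0 ∧ ∀ a < n, K.Adj (x a) (x (a + 1))

theorem Cyc.map {K : SimpleGraph Z} {P : SimpleGraph X} (f : P →g K) {n : ℕ} (h : Cyc P n) :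
    Cyc K n :=
  let ⟨x, h1, h2⟩ := h
  ⟨f ∘ x, congrArg f h1, fun a ha => f.map_adj (h2 a ha)⟩

theorem cyc_of_path {K : SimpleGraph Z} (x : ℕ → Z) (d : ℕ) (h1 : ∀ a < d, K.Adj (x a) (x (a + 1)))
    (h2 : K.Adj (x d) (x 0)) : Cyc K (d + 1) := by
  refine ⟨fun a => if a ≤ d then x a else x 0, by simp, fun a ha => ?_⟩
  by_cases h : a < d
  · simp only [if_pos h.le, if_pos (Nat.succ_le_of_lt h)]
    exact h1 a h
  · obtain rfl : a = d := by omega
    simpa using h2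

theorem Cyc.add_two {K : SimpleGraph Z} {n : ℕ} (h : Cyc K n) (hn : 0 < n) : Cyc K (n + 2) := by
  obtain ⟨x, h1, h2⟩ := h
  refine cyc_of_path (fun a => if a ≤ n then x a else x 1) (n + 1) (fun a ha => ?_) ?_
  · by_cases h : a < n
    · simp only [if_pos h.le, if_pos (Nat.succ_le_of_lt h)]
      exact h2 a h
    · obtain rfl : a = n := by omega
      simpa [h1] using h2 0 hn
  · simpa using (h2 0 hn).symm

theorem Cyc.le {K : SimpleGraph Z} {r n : ℕ} (h : Cyc K r) (h1 : Odd r) (h2 : Odd n)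
    (h3 : r ≤ n) : Cyc K n := by
  obtain ⟨d, rfl⟩ : ∃ d, n = r + 2 * d := ⟨(n - r) / 2, by
    rw [Nat.odd_iff] at h1 h2
    omega⟩
  clear h2 h3
  induction d with
  | zero => exact h
  | succ d ih => exact ih.add_two (by have := h1.pos; omega)

theorem cyc_iff {K : SimpleGraph Z} {n : ℕ} : Cyc K n ↔ ∃ v, ∃ w : K.Walk v v, w.length = n := by
  refine ⟨fun ⟨x, h1, h2⟩ => ?_, fun ⟨v, w, h⟩ => ⟨w.getVert, ?_, fun a ha => ?_⟩⟩
  · have : ∀ a ≤ n, ∃ w : K.Walk (x 0) (x a), w.length = a := by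
      intro a
      induction a with
      | zero => exact fun _ => ⟨.nil, rfl⟩
      | succ a ih =>
        intro ha
        obtain ⟨w, hw⟩ := ih (by omega)
        exact ⟨w.concat (h2 a (by omega)), by simp [hw]⟩
    obtain ⟨w, hw⟩ := this n le_rfl
    exact ⟨x 0, w.copy rfl h1, by simp [hw]⟩
  · rw [← h, SimpleGraph.Walk.getVert_length, SimpleGraph.Walk.getVert_zero]
  · exact w.adj_getVert_succ (h ▸ ha)

/-- The cycle on `ZMod m`. -/
def Cy (m : ℕ) : SimpleGraph (ZMod m) := SimpleGraph.fromRel fun a b => a + 1 = b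

theorem cast_ne {m d : ℕ} (h1 : 0 < d) (h2 : d < m) (a : ZMod m) : a + d ≠ a := fun h => by
  have := (ZMod.natCast_eq_zero_iff d m).mp (add_eq_left.mp h)
  exact absurd (Nat.le_of_dvd h1 this) (by omega)

theorem cy_adj {m : ℕ} (hm : 3 ≤ m) (a : ZMod m) : (Cy m).Adj a (a + 1) :=
  ⟨by simpa using (cast_ne (d := 1) one_pos (by omega) a).symm, Or.inl rfl⟩

theorem cy_iff {m : ℕ} (hm : 3 ≤ m) {K : SimpleGraph Z} : IsEmpty (Cy m →g K) ↔ ¬ Cyc K m := by
  rw [← not_nonempty_iff, not_iff_not]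
  have : NeZero m := ⟨by omega⟩
  refine ⟨fun ⟨h⟩ => ⟨fun a => h a, by simp, fun a _ => ?_⟩, fun ⟨x, h1, h2⟩ => ?_⟩
  · simpa using h.map_adj (cy_adj hm a)
  have k : ∀ a : ZMod m, K.Adj (x a.val) (x (a + 1).val) := by
    intro a
    have h3 := h2 _ a.val_lt
    have : Fact (1 < m) := ⟨by omega⟩
    rw [ZMod.val_add, ZMod.val_one]
    rcases (Nat.succ_le_of_lt a.val_lt).eq_or_lt with h | h
    · have h' : a.val + 1 = m := h
      rw [h', h1] at h3
      rwa [h', Nat.mod_self]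
    · rwa [Nat.mod_eq_of_lt h]
  refine ⟨⟨fun a => x a.val, ?_⟩⟩
  rintro a b ⟨-, rfl | rfl⟩
  · exact k a
  · exact (k b).symm

theorem cy_conn {m : ℕ} (hm : 3 ≤ m) (a : ZMod m) {T : Set (ZMod m)} (hT : T ⊆ {a, a + 1}) :
    Conn (Cy m) T := by
  have : NeZero m := ⟨by omega⟩
  have k1 : ∀ n : ℕ, 2 ≤ n → n < m → a + n ∉ T := by
    intro n h1 h2 h
    rcases hT h with h | h
    · exact cast_ne (by omega) h2 a h
    · refine cast_ne (d := n - 1) (by omega) (by omega) (a + 1) (Eq.trans ?_ h)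
      obtain ⟨n, rfl⟩ : ∃ n', n = n' + 1 := ⟨n - 1, by omega⟩
      simp only [Nat.add_sub_cancel, Nat.cast_add, Nat.cast_one]
      ring
  refine ⟨⟨_, k1 2 le_rfl (by omega)⟩, fun A hA => ?_⟩
  have k2 : ∀ x, x ∉ T → x + 1 ∉ T → (x ∈ A ↔ x + 1 ∈ A) := fun x h1 h2 =>
    ⟨hA _ h1 _ h2 (cy_adj hm x), hA _ h2 _ h1 (cy_adj hm x).symm⟩
  have k3 : ∀ n : ℕ, n + 2 < m → (a + (n + 2 : ℕ) ∈ A ↔ a + (2 : ℕ) ∈ A) := by
    intro n
    induction n with
    | zero => simp
    | succ n ih =>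
      intro h
      have e : a + (n + 1 + 2 : ℕ) = a + (n + 2 : ℕ) + 1 := by
        push_cast
        ring
      have := k2 _ (k1 (n + 2) (by omega) (by omega)) (e ▸ k1 _ (by omega) h)
      rw [← ih (by omega), e, this]
  have k4 : ∀ y, y ∉ T → (y ∈ A ↔ a + (2 : ℕ) ∈ A) := by
    intro y hy
    obtain ⟨n, hn, rfl⟩ : ∃ n < m, y = a + (n : ℕ) := ⟨(y - a).val, ZMod.val_lt _, by simp⟩
    rcases n with _ | _ | n
    · have e : a + (m - 3 + 2 : ℕ) + 1 = a + (0 : ℕ) := by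
        rw [add_assoc, ← Nat.cast_add_one, show m - 3 + 2 + 1 = m by omega]
        simp
      have := k2 _ (k1 (m - 3 + 2) (by omega) (by omega)) (e ▸ hy)
      rw [← k3 (m - 3) (by omega), this, e]
    · have e : a + (0 + 1 : ℕ) + 1 = a + (2 : ℕ) := by
        push_cast
        ring
      rw [k2 _ hy (e ▸ k1 2 le_rfl (by omega)), e]
    · exact k3 n hn
  exact fun x h1 h2 y h3 => (k4 y h3).mpr ((k4 x h1).mp h2)

theorem cy_sep {m : ℕ} (hm : 3 ≤ m) (ho : Odd m) {K : SimpleGraph Z}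
    (hK : ∀ r < m, Odd r → ¬ Cyc K r) : Sep (Cy m) K := by
  intro h i j hij T hT
  have : NeZero m := ⟨by omega⟩
  rw [Nat.odd_iff] at ho
  have adj : ∀ (u : ZMod m) (a : ℕ), K.Adj (h (u + a)) (h (u + (a + 1 : ℕ))) := fun u a => by
    simpa [add_assoc] using h.map_adj (cy_adj hm (u + a))
  have back : ∀ (u : ZMod m) (d : ℕ), d < m → u + d + (m - d : ℕ) = u := fun u d hd => by
    rw [add_assoc, ← Nat.cast_add, show d + (m - d) = m by omega]
    simp
  have ex : ∀ u v : ZMod m, ∃ d < m, v = u + (d : ℕ) := fun u v =>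
    ⟨(v - u).val, ZMod.val_lt _, by simp⟩
  have k1 : ∀ u v, h u = h v → u = v := by
    intro u v huv
    obtain ⟨d, hd, rfl⟩ := ex u v
    rcases d.eq_zero_or_pos with rfl | h0
    · simp
    by_cases hp : d % 2 = 1
    · exact (hK d hd (Nat.odd_iff.mpr hp)
        ⟨fun a => h (u + a), by simpa using huv.symm, fun a _ => adj u a⟩).elim
    · exact (hK (m - d) (by omega) (Nat.odd_iff.mpr (by omega))
        ⟨fun a => h (u + d + a), by simpa [back u d hd] using huv, fun a _ => adj _ a⟩).elim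
  have k2 : ∀ u v, K.Adj (h u) (h v) → v = u + 1 ∨ u = v + 1 := by
    intro u v huv
    obtain ⟨d, hd, rfl⟩ := ex u v
    by_cases h1 : d = 1
    · exact Or.inl (by simp [h1])
    by_cases h2 : m - d = 1
    · exact Or.inr (by simpa [h2] using (back u d hd).symm)
    rcases d.eq_zero_or_pos with rfl | h0
    · simp at huv
    by_cases hp : d % 2 = 1
    · exact (hK (m - d + 1) (by omega) (Nat.odd_iff.mpr (by omega)) (cyc_of_path
        (fun a => h (u + d + a)) _ (fun a _ => adj _ a) (by simpa [back u d hd] using huv))).elim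
    · exact (hK (d + 1) (by omega) (Nat.odd_iff.mpr (by omega)) (cyc_of_path
        (fun a => h (u + a)) _ (fun a _ => adj _ a) (by simpa using huv.symm))).elim
  by_cases h1 : ∃ u, h u = i
  · obtain ⟨u, rfl⟩ := h1
    by_cases h2 : ∃ v, h v = j
    · obtain ⟨v, rfl⟩ := h2
      have k3 : ∀ x ∈ T, x = u ∨ x = v := fun x hx => (hT hx).imp (k1 _ _) (k1 _ _)
      rcases hij with e | e
      · exact cy_conn hm u fun x hx => Or.inl ((k3 x hx).elim id fun r => r.trans (k1 _ _ e).symm)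
      rcases k2 u v e with rfl | rfl
      · exact cy_conn hm u k3
      · exact cy_conn hm v fun x hx => (k3 x hx).symm
    · exact cy_conn hm u fun x hx => Or.inl (k1 _ _ ((hT hx).resolve_right fun e => h2 ⟨x, e⟩))
  by_cases h2 : ∃ v, h v = j
  · obtain ⟨v, rfl⟩ := h2
    exact cy_conn hm v fun x hx => Or.inl (k1 _ _ ((hT hx).resolve_left fun e => h1 ⟨x, e⟩))
  · exact cy_conn hm 0 fun x hx => (hT hx).elim (fun e => (h1 ⟨x, e⟩).elim) fun e => (h2 ⟨x, e⟩).elim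

theorem odd_succ {K : SimpleGraph Z} {n : ℕ} (h1 : ∀ r ≤ n, Odd r → ¬ Cyc K r)
    (h2 : 3 ≤ n + 1 → Odd (n + 1) → ¬ Cyc K (n + 1)) : ∀ r ≤ n + 1, Odd r → ¬ Cyc K r := by
  intro r hr ho
  rcases hr.lt_or_eq with h | rfl
  · exact h1 r (by omega) ho
  by_cases h3 : 3 ≤ n + 1
  · exact h2 h3 ho
  obtain rfl : n = 0 := by
    rw [Nat.odd_iff] at ho
    omega
  exact fun ⟨x, r1, r2⟩ => (r2 0 one_pos).ne r1.symm

theorem cls_odd (n : ℕ) : Cls fun W Q => Finite W ∧ ∀ r ≤ n, Odd r → ¬ Cyc Q r where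
  ram := by
    rintro W Q ⟨_, hQ⟩
    induction n with
    | zero =>
      obtain ⟨N, hN⟩ := ram_top Q
      exact ⟨_, inferInstance, _, ⟨inferInstance, fun r hr ho => absurd ho.pos (by omega)⟩, hN⟩
    | succ n ih =>
      obtain ⟨Z, _, K, ⟨_, k1⟩, k2⟩ := ih fun r hr => hQ r (by omega)
      by_cases h : 3 ≤ n + 1 ∧ Odd (n + 1)
      · obtain ⟨V, _, P, f, h1, h2⟩ := ram_step (cy_sep h.1 h.2 fun r hr => k1 r (by omega))
          ((cy_iff h.1).mpr (hQ _ le_rfl h.2)) k2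
        exact ⟨V, Fintype.ofFinite _, P, ⟨inferInstance, odd_succ
          (fun r hr ho hc => k1 r hr ho (hc.map f)) fun _ _ => (cy_iff h.1).mp h1⟩, h2⟩
      · exact ⟨Z, inferInstance, K, ⟨inferInstance, odd_succ k1 fun a b => absurd ⟨a, b⟩ h⟩, k2⟩
  glue := by
    rintro W₁ Q₁ W₂ Q₂ ⟨_, h1⟩ ⟨_, h2⟩ x₁ x₂
    obtain ⟨Q, f₁, f₂, k1, k2⟩ := glue Q₁ Q₂ x₁ x₂
    refine ⟨_, Q, f₁, f₂, ⟨inferInstance, ?_⟩, k1⟩
    induction n with
    | zero => exact fun r hr ho => absurd ho.pos (by omega)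
    | succ n ih =>
      have := ih (fun r hr => h1 r (by omega)) fun r hr => h2 r (by omega)
      exact odd_succ this fun a b => (cy_iff a).mp (k2 _ _ (cy_sep a b fun r hr => this r (by omega))
        ((cy_iff a).mpr (h1 _ le_rfl b)) ((cy_iff a).mpr (h2 _ le_rfl b)))

end Pool.Agent.Lib.MP_781e3b_co.H92
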