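import Pool.Agent.Lib.MP_781e3b_co.ForestQuotientOld
import Pool.Agent.Lib.MP_781e3b_co.H92Odd

/-!
Special cases of `ForestQuotientOld.result`; not hand-ins.
-/

set_option linter.unusedVariables false

namespace Pool.Agent.Lib.MP_781e3b_co.H92

open Finset Classical

theorem eg_colorable (r : ℕ) : EG fun n G => G.Colorable r := by
  rintro n₁ n₂ G₁ G₂ ⟨κ₁⟩ ⟨κ₂⟩ x₁ y₁ x₂ y₂ h1 h2
  obtain ⟨σ, hσ⟩ := Equiv.Perm.exists_extending_pair (f := ![κ₂ x₂, κ₂ y₂]) (g := ![κ₁ x₁, κ₁ y₁])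
    (by simpa [Function.Injective, Fin.forall_fin_two, eq_comm] using κ₂.valid h2)
    (by simpa [Function.Injective, Fin.forall_fin_two, eq_comm] using κ₁.valid h1)
  exact ⟨r, ⊤, κ₁, ⟨σ ∘ κ₂, fun h => σ.injective.ne (κ₂.valid h)⟩, ⟨.id⟩, (hσ 0).symm, (hσ 1).symm⟩

/-- Gluing along an edge keeps a graph free of homomorphic images of `F` if `F` is not separated. -/
theorem edge_glue {n₁ n₂ : ℕ} (G₁ : SimpleGraph (Fin n₁)) (G₂ : SimpleGraph (Fin n₂))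
    {x₁ y₁ : Fin n₁} {x₂ y₂ : Fin n₂} (h1 : G₁.Adj x₁ y₁) (h2 : G₂.Adj x₂ y₂) :
    ∃ (G : SimpleGraph (Fin (n₁ + n₂))) (f₁ : G₁ →g G) (f₂ : G₂ →g G), f₁ x₁ = f₂ x₂ ∧
      f₁ y₁ = f₂ y₂ ∧ ∀ (X : Type) (F : SimpleGraph X), Sep F G → IsEmpty (F →g G₁) →
        IsEmpty (F →g G₂) → IsEmpty (F →g G) := by
  let g₁ : Fin n₁ → Fin (n₁ + n₂) := Fin.castAdd n₂
  let g₂ : Fin n₂ → Fin (n₁ + n₂) := fun v =>
    if v = x₂ then g₁ x₁ else if v = y₂ then g₁ y₁ else Fin.natAdd n₁ v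
  have i1 : Function.Injective g₁ := Fin.castAdd_injective _ _
  have ne : ∀ u v, g₁ u ≠ Fin.natAdd n₁ v := fun u v h => by
    have := congrArg Fin.val h
    simp [g₁] at this
    omega
  have a1 : g₂ x₂ = g₁ x₁ := if_pos rfl
  have a2 : g₂ y₂ = g₁ y₁ := by simp [g₂, h2.ne']
  have a3 : ∀ u v, g₁ u = g₂ v → (u = x₁ ∧ v = x₂) ∨ (u = y₁ ∧ v = y₂) := by
    intro u v h
    by_cases e1 : v = x₂
    · exact Or.inl ⟨i1 (by rw [h, e1, a1]), e1⟩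
    by_cases e2 : v = y₂
    · exact Or.inr ⟨i1 (by rw [h, e2, a2]), e2⟩
    · simp only [g₂, if_neg e1, if_neg e2] at h
      exact absurd h (ne _ _)
  have i2 : Function.Injective g₂ := by
    intro u v h
    by_cases e : ∃ w, g₁ w = g₂ u
    · obtain ⟨w, e⟩ := e
      rcases a3 w u e with ⟨r1, r2⟩ | ⟨r1, r2⟩ <;>
        rcases a3 w v (e.trans h) with ⟨r3, r4⟩ | ⟨r3, r4⟩
      · exact r2.trans r4.symm
      · exact absurd (r1.symm.trans r3) h1.ne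
      · exact absurd (r3.symm.trans r1) h1.ne
      · exact r2.trans r4.symm
    · have k : ∀ w, (¬ ∃ z, g₁ z = g₂ w) → g₂ w = Fin.natAdd n₁ w := fun w hw => by
        simp only [g₂, if_neg fun d : w = x₂ => hw ⟨x₁, by rw [d, a1]⟩,
          if_neg fun d : w = y₂ => hw ⟨y₁, by rw [d, a2]⟩]
      have e' := k v (h ▸ e)
      rw [k u e, e'] at h
      exact Fin.natAdd_injective _ _ h
  let G : SimpleGraph (Fin (n₁ + n₂)) :=
    { Adj := fun a b => (∃ u v, G₁.Adj u v ∧ g₁ u = a ∧ g₁ v = b) ∨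
        ∃ u v, G₂.Adj u v ∧ g₂ u = a ∧ g₂ v = b
      symm := ⟨fun a b h => h.imp (fun ⟨u, v, h1, h2, h3⟩ => ⟨v, u, h1.symm, h3, h2⟩)
        fun ⟨u, v, h1, h2, h3⟩ => ⟨v, u, h1.symm, h3, h2⟩⟩
      loopless := ⟨fun a h => h.elim (fun ⟨u, v, h1, h2, h3⟩ => h1.ne (i1 (h2.trans h3.symm)))
        fun ⟨u, v, h1, h2, h3⟩ => h1.ne (i2 (h2.trans h3.symm))⟩ }
  have b1 : ∀ u v, G.Adj (g₁ u) (g₁ v) → G₁.Adj u v := by
    rintro u v (⟨a, b, r, e1, e2⟩ | ⟨a, b, r, e1, e2⟩)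
    · rwa [← i1 e1, ← i1 e2]
    · rcases a3 u a e1.symm with ⟨rfl, rfl⟩ | ⟨rfl, rfl⟩ <;>
        rcases a3 v b e2.symm with ⟨rfl, rfl⟩ | ⟨rfl, rfl⟩
      exacts [absurd rfl r.ne, h1, h1.symm, absurd rfl r.ne]
  have b2 : ∀ u v, G.Adj (g₂ u) (g₂ v) → G₂.Adj u v := by
    rintro u v (⟨a, b, r, e1, e2⟩ | ⟨a, b, r, e1, e2⟩)
    · rcases a3 a u e1 with ⟨rfl, rfl⟩ | ⟨rfl, rfl⟩ <;>
        rcases a3 b v e2 with ⟨rfl, rfl⟩ | ⟨rfl, rfl⟩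
      exacts [absurd rfl r.ne, h2, h2.symm, absurd rfl r.ne]
    · rwa [← i2 e1, ← i2 e2]
  refine ⟨G, ⟨g₁, fun {u v} h => Or.inl ⟨u, v, h, rfl, rfl⟩⟩,
    ⟨g₂, fun {u v} h => Or.inr ⟨u, v, h, rfl, rfl⟩⟩, a1.symm, a2.symm,
    fun X F hF k1 k2 => ⟨fun f => ?_⟩⟩
  let S : Set X := {x | f x = g₁ x₁ ∨ f x = g₁ y₁}
  have hc : Conn F S := hF f _ _ (Or.inr (Or.inl ⟨_, _, h1, rfl, rfl⟩)) S le_rfl
  have c1 : ∀ a, a ∉ S → ∀ u v, g₁ u = f a → g₂ v ≠ f a := fun a ha u v e1 e2 =>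
    (a3 u v (e1.trans e2.symm)).elim (fun r => ha (Or.inl (r.1 ▸ e1.symm)))
      fun r => ha (Or.inr (r.1 ▸ e1.symm))
  obtain ⟨x, hx⟩ := hc.1
  by_cases e : ∃ u, g₁ u = f x
  · have := hc.2 {a | ∃ u, g₁ u = f a} (fun a ha b hb hab ⟨u, hu⟩ =>
      (f.map_adj hab).elim (fun ⟨_, v, _, _, r⟩ => ⟨v, r⟩)
        fun ⟨v, _, _, r, _⟩ => absurd r (c1 a ha u v hu)) x hx e
    have all : ∀ a, ∃ u, g₁ u = f a := fun a => by
      by_cases ha : a ∈ S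
      · exact ha.elim (fun r => ⟨_, r.symm⟩) fun r => ⟨_, r.symm⟩
      · exact this a ha
    choose ψ hψ using all
    exact k1.false ⟨ψ, fun {a b} hab => b1 _ _ (by rw [hψ, hψ]; exact f.map_adj hab)⟩
  · have e' : ∃ u, g₂ u = f x := by
      have hlt : n₁ ≤ (f x).val := not_lt.mp fun hlt => e ⟨⟨_, hlt⟩, rfl⟩
      let u : Fin n₂ := ⟨(f x).val - n₁, by have := (f x).2; omega⟩
      have hu : Fin.natAdd n₁ u = f x := Fin.ext (by simp [u]; omega)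
      by_cases d : u = x₂ ∨ u = y₂
      · obtain ⟨y, -, hy⟩ := Conn.nbr (S := {x}) (x := x)
          (hF f _ _ (Or.inl rfl) _ fun a ha => Or.inl (congrArg f ha))
          (hF f _ _ (Or.inl rfl) _ fun a ha => Or.inl (congrArg f ha.1)) rfl
        exact (f.map_adj hy).elim (fun ⟨_, v, _, _, r⟩ => absurd ⟨v, r⟩ e) fun ⟨_, v, _, _, r⟩ => ⟨v, r⟩
      · rw [not_or] at d
        exact ⟨u, by simp only [g₂, if_neg d.1, if_neg d.2, hu]⟩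
    have := hc.2 {a | ∃ u, g₂ u = f a} (fun a ha b hb hab ⟨u, hu⟩ =>
      (f.map_adj hab).elim (fun ⟨v, _, _, r, _⟩ => absurd hu (c1 a ha v u r))
        fun ⟨_, v, _, _, r⟩ => ⟨v, r⟩) x hx e'
    have all : ∀ a, ∃ u, g₂ u = f a := fun a => by
      by_cases ha : a ∈ S
      · exact ha.elim (fun r => ⟨_, a1.trans r.symm⟩) fun r => ⟨_, a2.trans r.symm⟩
      · exact this a ha
    choose ψ hψ using all
    exact k2.false ⟨ψ, fun {a b} hab => b2 _ _ (by rw [hψ, hψ]; exact f.map_adj hab)⟩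

theorem eg_free {X : Type} {F : SimpleGraph X}
    (hF : ∀ S : Set X, (F.induce S).Colorable 2 → (F.induce Sᶜ).Connected) :
    EG fun n G => IsEmpty (F →g G) := by
  intro n₁ n₂ G₁ G₂ c₁ c₂ x₁ y₁ x₂ y₂ h1 h2
  obtain ⟨G, f₁, f₂, r1, r2, r3⟩ := edge_glue G₁ G₂ h1 h2
  exact ⟨_, G, f₁, f₂, r3 X F (sep_of_chrom hF _) c₁ c₂, r1, r2⟩

theorem eg_odd (k : ℕ) : EG fun n G => ∀ r ≤ k, Odd r → ¬ Cyc G r := by
  intro n₁ n₂ G₁ G₂ c₁ c₂ x₁ y₁ x₂ y₂ h1 h2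
  obtain ⟨G, f₁, f₂, r1, r2, r3⟩ := edge_glue G₁ G₂ h1 h2
  refine ⟨_, G, f₁, f₂, ?_, r1, r2⟩
  induction k with
  | zero => exact fun r hr ho => absurd ho.pos (by omega)
  | succ n ih =>
    have := ih (fun r hr => c₁ r (by omega)) fun r hr => c₂ r (by omega)
    exact odd_succ this fun a b => (cy_iff a).mp (r3 _ _ (cy_sep a b fun r hr => this r (by omega))
      ((cy_iff a).mpr (c₁ _ le_rfl b)) ((cy_iff a).mpr (c₂ _ le_rfl b)))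

variable {a b m : ℕ} {H₁ : SimpleGraph (Fin a)} {H₂ : SimpleGraph (Fin b)}

/-- Vertex arboricity smaller than the chromatic number. -/
theorem cor_arboricity (ha : 3 ≤ a) (h2 : ∀ v, (H₁.induce {v}ᶜ).Connected) (p : Fin a → Fin m)
    (hf : ∀ i, (H₁.induce {v | p v = i}).IsAcyclic) (hn : ¬ H₁.Colorable m)
    (h : RamseyEquiv H₁ H₂ 2) : H₁.IsContained H₂ ∧ ∀ q, 2 ≤ q → RamseyEquiv H₁ H₂ q :=
  ForestQuotientOld.result a b m H₁ H₂ _ (eg_colorable m) ha h2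
    (fun n G hG => ⟨fun f => hn (hG.of_hom f)⟩) ⊤ ⟨.id⟩ p (fun u v _ => Classical.em _) hf h

/-- A forest quotient with smaller clique number. -/
theorem cor_clique (ha : 3 ≤ a) (h2 : ∀ v, (H₁.induce {v}ᶜ).Connected) (Q : SimpleGraph (Fin m))
    (p : Fin a → Fin m) (hp : ∀ u v, H₁.Adj u v → p u = p v ∨ Q.Adj (p u) (p v))
    (hf : ∀ i, (H₁.induce {v | p v = i}).IsAcyclic) {s : ℕ} (hs : 3 ≤ s) (h1 : ¬ H₁.CliqueFree s)
    (hQ : Q.CliqueFree s) (h : RamseyEquiv H₁ H₂ 2) :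
    H₁.IsContained H₂ ∧ ∀ q, 2 ≤ q → RamseyEquiv H₁ H₂ q := by
  have hF : ∀ S : Set (Fin s), ((⊤ : SimpleGraph (Fin s)).induce S).Colorable 2 →
      ((⊤ : SimpleGraph (Fin s)).induce Sᶜ).Connected := by
    rintro S ⟨κ⟩
    have : Nonempty (Sᶜ : Set (Fin s)) := by
      by_contra hc
      have hS : ∀ x, x ∈ S := fun x => by_contra fun hx => hc ⟨⟨x, hx⟩⟩
      have := Fintype.card_le_of_injective (fun x => κ ⟨x, hS x⟩) fun x y e =>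
        by_contra fun hxy => κ.valid (v := ⟨x, hS x⟩) (w := ⟨y, hS y⟩) hxy e
      simp at this
      omega
    rw [SimpleGraph.induce_top]
    exact SimpleGraph.connected_top
  obtain ⟨e⟩ := (SimpleGraph.not_cliqueFree_iff_top_isContained s).mp h1
  refine ForestQuotientOld.result a b m H₁ H₂ _ (eg_free hF) ha h2
    (fun n G hG => ⟨fun f => hG.false (f.comp e.toHom)⟩) Q ⟨fun f => ?_⟩ p hp hf h
  exact (SimpleGraph.not_cliqueFree_iff_top_isContained s).mpr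
    ⟨⟨f, fun x y e => by_contra fun hxy => (f.map_adj hxy).ne e⟩⟩ hQ

/-- A forest quotient with larger odd girth. -/
theorem cor_odd (ha : 3 ≤ a) (h2 : ∀ v, (H₁.induce {v}ᶜ).Connected) (Q : SimpleGraph (Fin m))
    (p : Fin a → Fin m) (hp : ∀ u v, H₁.Adj u v → p u = p v ∨ Q.Adj (p u) (p v))
    (hf : ∀ i, (H₁.induce {v | p v = i}).IsAcyclic) {k : ℕ} (hk : Odd k)
    (h1 : ∃ v, ∃ w : H₁.Walk v v, w.length = k) (hQ : ∀ x, ∀ w : Q.Walk x x, w.length ≠ k)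
    (h : RamseyEquiv H₁ H₂ 2) : H₁.IsContained H₂ ∧ ∀ q, 2 ≤ q → RamseyEquiv H₁ H₂ q :=
  ForestQuotientOld.result a b m H₁ H₂ _ (eg_odd k) ha h2
    (fun n G hG => ⟨fun f => hG k le_rfl hk ((cyc_iff.mpr h1).map f)⟩) Q
    (fun r hr ho hc =>
      let ⟨x, w, hw⟩ := cyc_iff.mp (hc.le ho hk hr)
      hQ x w hw) p hp hf h

end Pool.Agent.Lib.MP_781e3b_co.H92
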