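import Pool.Agent.Variants.MP_781e3b_co.MatchingQuotient
import Pool.Agent.Lib.MP_781e3b_co.H92Cor

/-!
Special cases of `MatchingQuotient.result`; not hand-ins.
-/

set_option linter.unusedVariables false

namespace Pool.Agent.Lib.MP_781e3b_co.H92

open Finset Classical

variable {a b m : ℕ} {H₁ : SimpleGraph (Fin a)} {H₂ : SimpleGraph (Fin b)}

/-- A colouring with too few colours whose monochromatic edges form an induced matching. -/
theorem cor2_colour (ha : 3 ≤ a) (hc : H₁.Connected) (p : Fin a → Fin m)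
    (hm : ∀ u v u' v', H₁.Adj u v → p u = p v → H₁.Adj u' v' → p u' = p v' → H₁.Adj u u' → u' = v)
    (hn : ¬ H₁.Colorable m) (h : RamseyEquiv H₁ H₂ 2) :
    H₁.IsContained H₂ ∧ ∀ q, 2 ≤ q → RamseyEquiv H₁ H₂ q :=
  Variants.MP_781e3b_co.MatchingQuotient.result a b m H₁ H₂ _ (eg_colorable m) ha hc
    (fun n G hG => ⟨fun f => hn (hG.of_hom f)⟩) ⊤ ⟨.id⟩ p (fun u v _ => Classical.em _) hm h

/-- Connected graphs with a colour-critical edge. -/
theorem cor2_critical (ha : 3 ≤ a) (hc : H₁.Connected) (x y : Fin a)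
    (h1 : (H₁.deleteEdges {s(x, y)}).Colorable m) (hn : ¬ H₁.Colorable m)
    (h : RamseyEquiv H₁ H₂ 2) : H₁.IsContained H₂ ∧ ∀ q, 2 ≤ q → RamseyEquiv H₁ H₂ q := by
  obtain ⟨κ⟩ := h1
  have k : ∀ u v, H₁.Adj u v → κ u = κ v → s(u, v) = s(x, y) := fun u v huv e =>
    by_contra fun hne => κ.valid (SimpleGraph.deleteEdges_adj.mpr ⟨huv, hne⟩) e
  refine cor2_colour ha hc κ (fun u v u' v' h1 h2 h3 h4 h5 => ?_) hn h
  rcases Sym2.eq_iff.mp ((k u v h1 h2).trans (k u' v' h3 h4).symm) with e | e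
  · exact absurd e.1 h5.ne
  · exact e.2.symm

/-- An induced matching whose contraction raises the odd girth. -/
theorem cor2_odd (ha : 3 ≤ a) (hc : H₁.Connected) (Q : SimpleGraph (Fin m))
    (p : Fin a → Fin m) (hp : ∀ u v, H₁.Adj u v → p u = p v ∨ Q.Adj (p u) (p v))
    (hm : ∀ u v u' v', H₁.Adj u v → p u = p v → H₁.Adj u' v' → p u' = p v' → H₁.Adj u u' → u' = v)
    {k : ℕ} (hk : Odd k) (h1 : ∃ v, ∃ w : H₁.Walk v v, w.length = k)
    (hQ : ∀ x, ∀ w : Q.Walk x x, w.length ≠ k) (h : RamseyEquiv H₁ H₂ 2) :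
    H₁.IsContained H₂ ∧ ∀ q, 2 ≤ q → RamseyEquiv H₁ H₂ q :=
  Variants.MP_781e3b_co.MatchingQuotient.result a b m H₁ H₂ _ (eg_odd k) ha hc
    (fun n G hG => ⟨fun f => hG k le_rfl hk ((cyc_iff.mpr h1).map f)⟩) Q
    (fun r hr ho hc =>
      let ⟨x, w, hw⟩ := cyc_iff.mp (hc.le ho hk hr)
      hQ x w hw) p hp hm h

/-- An induced matching whose contraction lowers the clique number. -/
theorem cor2_clique (ha : 3 ≤ a) (hc : H₁.Connected) (Q : SimpleGraph (Fin m))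
    (p : Fin a → Fin m) (hp : ∀ u v, H₁.Adj u v → p u = p v ∨ Q.Adj (p u) (p v))
    (hm : ∀ u v u' v', H₁.Adj u v → p u = p v → H₁.Adj u' v' → p u' = p v' → H₁.Adj u u' → u' = v)
    {s : ℕ} (hs : 3 ≤ s) (h1 : ¬ H₁.CliqueFree s) (hQ : Q.CliqueFree s)
    (h : RamseyEquiv H₁ H₂ 2) : H₁.IsContained H₂ ∧ ∀ q, 2 ≤ q → RamseyEquiv H₁ H₂ q := by
  have hF : ∀ S : Set (Fin s), ((⊤ : SimpleGraph (Fin s)).induce S).Colorable 2 →
      ((⊤ : SimpleGraph (Fin s)).induce Sᶜ).Connected := by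
    rintro S ⟨κ⟩
    have : Nonempty (Sᶜ : Set (Fin s)) := by
      by_contra hc
      have hS : ∀ x, x ∈ S := fun x => by_contra fun hx => hc ⟨⟨x, hx⟩⟩
      have := Fintype.card_le_of_injective (fun x => κ ⟨x, hS x⟩) fun x y e =>
        by_contra fun hxy => κ.valid (v := ⟨x, hS x⟩) (w := ⟨y, hS y⟩) hxy e
      simp at this
      omega
    rw [SimpleGraph.induce_top]
    exact SimpleGraph.connected_top
  obtain ⟨e⟩ := (SimpleGraph.not_cliqueFree_iff_top_isContained s).mp h1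
  refine Variants.MP_781e3b_co.MatchingQuotient.result a b m H₁ H₂ _ (eg_free hF) ha hc
    (fun n G hG => ⟨fun f => hG.false (f.comp e.toHom)⟩) Q ⟨fun f => ?_⟩ p hp hm h
  exact (SimpleGraph.not_cliqueFree_iff_top_isContained s).mpr
    ⟨⟨f, fun x y e => by_contra fun hxy => (f.map_adj hxy).ne e⟩⟩ hQ

end Pool.Agent.Lib.MP_781e3b_co.H92
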