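import Mathlib

/-!
Uniform hypergraphs that are locally forests and have a monochromatic edge in every colouring of
the vertices (partite amalgamation).
-/

set_option linter.unusedVariables false
set_option linter.unusedSectionVars false

namespace Pool.Agent.Lib.MP_781e3b_co.H92

open Finset Classical

/-- Any set of incidences that involves at most `g` edges satisfies the forest inequality. -/
def Sparse {E K N : Type} (g : ℕ) (e : E → K → N) : Prop :=
  ∀ (I : Finset (E × K)) (F : Finset E) (W : Finset N), F.Nonempty → F.card ≤ g →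
    (∀ y ∈ I, y.1 ∈ F ∧ e y.1 y.2 ∈ W) → I.card + 1 ≤ F.card + W.card

theorem Sparse.ext {D V N : Type} {g : ℕ} {d : D → V → N} (h : Sparse g d) (J : Finset (D × V))
    (C : Finset D) (W : Finset N) (hC : C.Nonempty) (hJ : ∀ y ∈ J, y.1 ∈ C ∧ d y.1 y.2 ∈ W)
    (hg : (C.filter fun c => ∃ v v', v ≠ v' ∧ (c, v) ∈ J ∧ (c, v') ∈ J).card ≤ g) :
    J.card + 1 ≤ C.card + W.card := by
  set p : D → Prop := fun c => ∃ v v', v ≠ v' ∧ (c, v) ∈ J ∧ (c, v') ∈ J with hp
  have e1 := card_filter_add_card_filter_not (s := J) fun y => p y.1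
  have e2 := card_filter_add_card_filter_not (s := C) p
  have e3 : (J.filter fun y => ¬ p y.1).card ≤ (C.filter fun c => ¬ p c).card := by
    refine card_le_card_of_injOn Prod.fst (fun y hy => ?_) fun y hy z hz hyz => ?_
    · have := mem_filter.mp (mem_coe.mp hy)
      exact mem_coe.mpr (mem_filter.mpr ⟨(hJ y this.1).1, this.2⟩)
    · have hy' := mem_filter.mp (mem_coe.mp hy)
      have hz' := mem_filter.mp (mem_coe.mp hz)
      refine Prod.ext hyz ?_
      by_contra hne
      exact hy'.2 ⟨y.2, z.2, hne, hy'.1, by rw [hyz]; exact hz'.1⟩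
  rcases (J.filter fun y => p y.1).eq_empty_or_nonempty with h0 | ⟨y, hy⟩
  · rw [h0, card_empty] at e1
    rcases J.eq_empty_or_nonempty with h1 | ⟨y, hy⟩
    · have := hC.card_pos
      rw [h1, card_empty]
      omega
    · have := card_pos.mpr ⟨_, (hJ y hy).2⟩
      omega
  · have := h (J.filter fun y => p y.1) (C.filter p) W
      ⟨y.1, mem_filter.mpr ⟨(hJ y (mem_filter.mp hy).1).1, (mem_filter.mp hy).2⟩⟩ hg fun z hz =>
      ⟨mem_filter.mpr ⟨(hJ z (mem_filter.mp hz).1).1, (mem_filter.mp hz).2⟩,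
        (hJ z (mem_filter.mp hz).1).2⟩
    omega

theorem Sparse.amalgam {D V N E K L : Type} {g : ℕ} {d : D → V → N} (hd : Sparse g d)
    {e : E → K → V} (he : Sparse (g + 1) e) {π : V → L} (hπ : ∀ x, Function.Injective (π ∘ e x))
    (i : L) {φ : D → V → N ⊕ D × V} (h1 : ∀ c v, π v = i → φ c v = Sum.inl (d c v))
    (h2 : ∀ c v, ¬ π v = i → φ c v = Sum.inr (c, v)) :
    Sparse (g + 1) fun (y : D × E) (j : K) => φ y.1 (e y.2 j) := by
  intro I F W hF hg hI
  set C := F.image Prod.fst with hC
  set P := I.image fun y => (y.1.1, e y.1.2 y.2) with hP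
  have hPC : ∀ y ∈ P, y.1 ∈ C := by
    intro y hy
    obtain ⟨z, hz, rfl⟩ := mem_image.mp hy
    exact mem_image_of_mem _ (hI z hz).1
  have eF := card_eq_sum_card_fiberwise (s := F) (t := C) (f := Prod.fst)
    fun y hy => mem_coe.mpr (mem_image_of_mem _ hy)
  have s1 : I.card + C.card ≤ F.card + P.card := by
    rw [card_eq_sum_card_fiberwise (s := I) (t := C) (f := fun y => y.1.1)
        fun y hy => mem_coe.mpr (mem_image_of_mem _ (hI y hy).1), eF,
      card_eq_sum_card_fiberwise (s := P) (t := C) (f := Prod.fst) hPC,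
      card_eq_sum_ones C, ← sum_add_distrib, ← sum_add_distrib]
    refine sum_le_sum fun c hc => ?_
    have a1 : ((I.filter fun y => y.1.1 = c).image fun y => (y.1.2, y.2)).card =
        (I.filter fun y => y.1.1 = c).card := by
      refine card_image_of_injOn fun y hy z hz hyz => ?_
      have hy' := (mem_filter.mp (mem_coe.mp hy)).2
      have hz' := (mem_filter.mp (mem_coe.mp hz)).2
      obtain ⟨h1, h2⟩ := Prod.mk.inj hyz
      exact Prod.ext (Prod.ext (hy'.trans hz'.symm) h1) h2
    have a2 : ((F.filter fun y => y.1 = c).image Prod.snd).card ≤ _ := card_image_le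
    have a3 : ((P.filter fun y => y.1 = c).image Prod.snd).card ≤ _ := card_image_le
    have a4 : ((F.filter fun y => y.1 = c).image Prod.snd).Nonempty := by
      obtain ⟨y, hy, rfl⟩ := mem_image.mp hc
      exact ⟨_, mem_image_of_mem _ (mem_filter.mpr ⟨hy, rfl⟩)⟩
    have a5 := he ((I.filter fun y => y.1.1 = c).image fun y => (y.1.2, y.2)) _
      ((P.filter fun y => y.1 = c).image Prod.snd) a4
      (a2.trans ((card_filter_le _ _).trans hg)) (fun x hx => by
        obtain ⟨y, hy, rfl⟩ := mem_image.mp hx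
        obtain ⟨y1, y2⟩ := mem_filter.mp hy
        exact ⟨mem_image.mpr ⟨y.1, mem_filter.mpr ⟨(hI y y1).1, y2⟩, rfl⟩,
          mem_image.mpr ⟨_, mem_filter.mpr ⟨mem_image_of_mem _ y1, y2⟩, rfl⟩⟩)
    omega
  have s2 : (P.filter fun y => π y.2 = i).card + 1 ≤ C.card + W.toLeft.card := by
    refine hd.ext _ C _ (hF.image _) (fun y hy => ⟨hPC y (mem_filter.mp hy).1, ?_⟩) ?_
    · obtain ⟨z, hz, rfl⟩ := mem_image.mp (mem_filter.mp hy).1
      rw [mem_toLeft, ← h1 _ _ (mem_filter.mp hy).2]
      exact (hI z hz).2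
    · set C2 := C.filter fun c => ∃ v v', v ≠ v' ∧ (c, v) ∈ (P.filter fun y => π y.2 = i) ∧
        (c, v') ∈ (P.filter fun y => π y.2 = i) with hC2
      have b1 : C2.card * 2 ≤ F.card := by
        rw [← smul_eq_mul, ← sum_const, eF]
        refine le_trans (sum_le_sum fun c hc => ?_)
          (sum_le_sum_of_subset (s := C2) (filter_subset _ _))
        obtain ⟨-, v, v', hne, hv, hv'⟩ := mem_filter.mp hc
        obtain ⟨hv1, hv2⟩ := mem_filter.mp hv
        obtain ⟨hv1', hv2'⟩ := mem_filter.mp hv'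
        obtain ⟨y, hy, ey⟩ := mem_image.mp hv1
        obtain ⟨z, hz, ez⟩ := mem_image.mp hv1'
        obtain ⟨y1, y2⟩ := Prod.mk.inj ey
        obtain ⟨z1, z2⟩ := Prod.mk.inj ez
        refine one_lt_card.mpr ⟨y.1, mem_filter.mpr ⟨(hI y hy).1, y1⟩, z.1,
          mem_filter.mpr ⟨(hI z hz).1, z1⟩, fun hyz => hne ?_⟩
        rw [← y2, ← z2, ← hyz]
        congr 1
        refine hπ y.1.2 ?_
        show π (e y.1.2 y.2) = π (e y.1.2 z.2)
        rw [y2, hyz, z2]
        exact hv2.trans hv2'.symm
      omega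
  have s3 := card_filter_add_card_filter_not (s := P) fun y => π y.2 = i
  have s4 : (P.filter fun y => ¬ π y.2 = i).card ≤ W.toRight.card := by
    refine card_le_card fun y hy => ?_
    obtain ⟨z, hz, rfl⟩ := mem_image.mp (mem_filter.mp hy).1
    rw [mem_toRight, ← h2 _ _ (mem_filter.mp hy).2]
    exact (hI z hz).2
  have s5 := card_toLeft_add_card_toRight (u := W)
  omega

theorem hg (C : Type) [Fintype C] [Nonempty C] (g : ℕ) : ∀ (K : Type) [Fintype K],
    ∃ (N E : Type) (_ : Fintype N) (_ : Fintype E) (e : E → K → N), Sparse g e ∧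
      ∀ χ : N → C, ∃ c γ, ∀ j, χ (e c j) = γ := by
  induction g with
  | zero =>
    intro K _
    refine ⟨Unit, Unit, inferInstance, inferInstance, fun _ _ => (), fun I F W hF h _ => ?_,
      fun χ => ⟨(), χ (), fun _ => rfl⟩⟩
    have := hF.card_pos
    omega
  | succ g ih =>
    intro K _
    have key : ∀ S : Finset (C × K), ∃ (V E : Type) (_ : Fintype V) (_ : Fintype E)
        (π : V → C × K) (e : E → K → V), Sparse (g + 1) e ∧ (∀ x, Function.Injective (π ∘ e x)) ∧
        ∀ χ : V → C, ∃ γ : C × K → C, ∀ σ : K → C × K, Function.Injective σ →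
          ∃ x, ∀ j, π (e x j) = σ j ∧ (σ j ∈ S → χ (e x j) = γ (σ j)) := by
      intro S
      induction S using Finset.induction_on with
      | empty =>
        refine ⟨{σ : K → C × K // Function.Injective σ} × K, {σ : K → C × K // Function.Injective σ},
          inferInstance, inferInstance, fun v => v.1.1 v.2, fun x j => (x, j),
          fun I F W hF h hI => ?_,
          fun x => x.2, fun χ => ⟨Prod.fst, fun σ hσ => ⟨⟨σ, hσ⟩, fun j => ⟨rfl, by simp⟩⟩⟩⟩
        have := hF.card_pos
        have : I.card ≤ W.card := card_le_card fun y hy => (hI y hy).2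
        omega
      | insert i S hi ihS =>
        obtain ⟨V, E, _, _, π, e, h1, h2, h3⟩ := ihS
        obtain ⟨N, D, _, _, d, k1, k2⟩ := ih V
        let φ : D → V → N ⊕ D × V := fun c v =>
          if π v = i then Sum.inl (d c v) else Sum.inr (c, v)
        let π' : N ⊕ D × V → C × K := Sum.elim (fun _ => i) fun y => π y.2
        have hφ : ∀ c v, π' (φ c v) = π v := by
          intro c v
          by_cases h : π v = i <;> simp [φ, π', h]
        refine ⟨N ⊕ D × V, D × E, inferInstance, inferInstance, π', fun y j => φ y.1 (e y.2 j),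
          k1.amalgam h1 h2 i (fun c v h => if_pos h) fun c v h => if_neg h,
          fun x j j' h => h2 x.2 ?_, fun χ => ?_⟩
        · simpa [hφ] using h
        · obtain ⟨c, t, ht⟩ := k2 fun n => χ (Sum.inl n)
          obtain ⟨γ, hγ⟩ := h3 fun v => χ (φ c v)
          refine ⟨Function.update γ i t, fun σ hσ => ?_⟩
          obtain ⟨x, hx⟩ := hγ σ hσ
          refine ⟨(c, x), fun j => ⟨(hφ _ _).trans (hx j).1, fun hj => ?_⟩⟩
          by_cases h : σ j = i
          · rw [h, Function.update_self, ← ht (e x j)]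
            simp [φ, (hx j).1, h]
          · rw [Function.update_of_ne h]
            exact (hx j).2 ((mem_insert.mp hj).resolve_left h)
    obtain ⟨V, E, _, _, π, e, h1, -, h3⟩ := key univ
    refine ⟨V, E, inferInstance, inferInstance, e, h1, fun χ => ?_⟩
    obtain ⟨γ, hγ⟩ := h3 χ
    obtain ⟨t, ht⟩ := Fintype.exists_le_card_fiber_of_mul_le_card (f := γ) (n := Fintype.card K)
      (by simp)
    obtain ⟨σ, hσ⟩ := Function.Embedding.exists_of_card_le_finset (α := K)
      (s := univ.filter fun x => γ x = t) ht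
    obtain ⟨x, hx⟩ := hγ σ σ.injective
    refine ⟨x, t, fun j => ((hx j).2 (mem_univ _)).trans ?_⟩
    exact (mem_filter.mp (mem_coe.mp (hσ ⟨j, rfl⟩))).2

end Pool.Agent.Lib.MP_781e3b_co.H92
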