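import Pool.Agent.Lib.MP_781e3b_co.TBasic
import Pool.Agent.Lib.MP_781e3b_co.H92HG

/-!
The host: sparse hypergraphs filled with copies of `H`, joined completely along a base graph.
-/

set_option linter.unusedVariables false
set_option linter.unusedSectionVars false

namespace Pool.Agent.Lib.MP_781e3b_co.H92

open Finset Classical

variable {V W E N : Type}

/-- The edges of the copies of `H` placed on the hyperedges in `F`. -/
def Fill (H : SimpleGraph V) (e : E → V → N) (F : Finset E) (x y : N) : Prop :=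
  ∃ c ∈ F, ∃ u v, H.Adj u v ∧ e c u = x ∧ e c v = y

theorem Fill.symm {H : SimpleGraph V} {e : E → V → N} {F : Finset E} {x y : N}
    (h : Fill H e F x y) : Fill H e F y x :=
  let ⟨c, hc, u, v, h1, h2, h3⟩ := h
  ⟨c, hc, v, u, h1.symm, h3, h2⟩

/-- A map to `Q` whose fibres induce forests (each vertex has at most one earlier neighbour in its
fibre) and that sends the other edges to edges. -/
structure FQ (R : V → V → Prop) (Q : SimpleGraph W) (p : V → W) (rk : V → ℕ) : Prop where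
  hom : ∀ u v, R u v → p u = p v ∨ Q.Adj (p u) (p v)
  ord : ∀ v, ∃ w, ∀ u, R v u → p u = p v → rk u ≤ rk v → u = w

theorem FQ.comap {R : N → N → Prop} {Q : SimpleGraph W} {p : N → W} {rk : N → ℕ}
    (h : FQ R Q p rk) {H : SimpleGraph V} (he : Emb H R) : ∃ p' rk', FQ H.Adj Q p' rk' := by
  obtain ⟨f, f1, f2⟩ := he
  refine ⟨p ∘ f, rk ∘ f, fun u v huv => h.hom _ _ (f2 u v huv), fun v => ?_⟩
  obtain ⟨w, hw⟩ := h.ord (f v)
  by_cases hx : ∃ x, f x = w
  · obtain ⟨x, rfl⟩ := hx
    exact ⟨x, fun u h1 h2 h3 => f1 (hw _ (f2 _ _ h1) h2 h3)⟩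
  · exact ⟨v, fun u h1 h2 h3 => absurd ⟨u, hw _ (f2 _ _ h1) h2 h3⟩ hx⟩

theorem Sparse.inj {K : Type} {g : ℕ} {e : E → K → N} (h : Sparse (g + 1) e) (c : E) :
    Function.Injective (e c) := by
  intro u v huv
  by_contra hne
  have := h {(c, u), (c, v)} {c} {e c u} (by simp) (by simp) (by simp [huv])
  rw [card_pair (by simpa using hne)] at this
  simp at this

theorem Sparse.sum {K D M : Type} {g : ℕ} {e : E → K → N} {d : D → K → M} (he : Sparse g e)
    (hd : Sparse g d) : Sparse g (Sum.elim (fun c j => Sum.inl (e c j))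
      (fun c j => Sum.inr (d c j)) : E ⊕ D → K → N ⊕ M) := by
  intro I F W hF hg hI
  have s1 := card_toLeft_add_card_toRight (u := W)
  have s2 := card_toLeft_add_card_toRight (u := F)
  have s3 := card_toLeft_add_card_toRight (u := I.map (Equiv.sumProdDistrib E D K).toEmbedding)
  rw [card_map] at s3
  have h1 : ∀ y ∈ (I.map (Equiv.sumProdDistrib E D K).toEmbedding).toLeft,
      y.1 ∈ F.toLeft ∧ e y.1 y.2 ∈ W.toLeft := by
    intro y hy
    have := hI (Sum.inl y.1, y.2) (by simpa using hy)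
    simpa using this
  have h2 : ∀ y ∈ (I.map (Equiv.sumProdDistrib E D K).toEmbedding).toRight,
      y.1 ∈ F.toRight ∧ d y.1 y.2 ∈ W.toRight := by
    intro y hy
    have := hI (Sum.inr y.1, y.2) (by simpa using hy)
    simpa using this
  have := hF.card_pos
  rcases F.toLeft.eq_empty_or_nonempty with a | a <;>
    rcases F.toRight.eq_empty_or_nonempty with b | b
  · rw [a, b] at s2
    simp at s2
    omega
  · have := hd _ _ _ b (by omega) h2
    have : (I.map (Equiv.sumProdDistrib E D K).toEmbedding).toLeft = ∅ :=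
      eq_empty_of_forall_notMem fun y hy => by simpa [a] using (h1 y hy).1
    rw [this, card_empty] at s3
    omega
  · have := he _ _ _ a (by omega) h1
    have : (I.map (Equiv.sumProdDistrib E D K).toEmbedding).toRight = ∅ :=
      eq_empty_of_forall_notMem fun y hy => by simpa [b] using (h2 y hy).1
    rw [this, card_empty] at s3
    omega
  · have := hd _ _ _ b (by omega) h2
    have := he _ _ _ a (by omega) h1
    omega

/-- Every colouring with `r` colours has a monochromatic hyperedge inside `P`. -/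
def Big (e : E → V → N) (r : ℕ) (P : Set N) : Prop :=
  ∀ χ : N → Fin r, ∃ c γ, ∀ j, e c j ∈ P ∧ χ (e c j) = γ

theorem big_class {T : Type} {e : E → V → N} {r : ℕ}
    (h : ∀ χ : N → T × Fin r, ∃ c γ, ∀ j, χ (e c j) = γ) (t : N → T) :
    ∃ τ, Big e r {x | t x = τ} := by
  by_contra hc
  have : ∀ τ, ∃ χ : N → Fin r, ¬ ∃ c γ, ∀ j, t (e c j) = τ ∧ χ (e c j) = γ := fun τ =>
    not_forall.mp fun hh => hc ⟨τ, hh⟩
  choose χ hχ using this
  obtain ⟨c, γ, hγ⟩ := h fun x => (t x, χ (t x) x)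
  refine hχ γ.1 ⟨c, γ.2, fun j => ?_⟩
  obtain ⟨h1, h2⟩ := Prod.ext_iff.mp (hγ j)
  exact ⟨h1, by rw [← h1]; exact h2⟩

theorem Big.core [Fintype N] {e : E → V → N} {r : ℕ} {P : Set N} (h : Big e (r + 1) P)
    {J : N → N → Prop} (hs : ∀ x y, J x y → J y x) (hi : ∀ x, ¬ J x x)
    (hJ : ∀ c, ∃ u v, J (e c u) (e c v)) :
    ∃ D : Finset N, D.Nonempty ∧ (∀ x ∈ D, x ∈ P) ∧ ∀ x ∈ D, r < (D.filter (J x)).card := by
  by_contra hc
  have key : ∀ D : Finset N, (∀ x ∈ D, x ∈ P) →
      ∃ χ : N → Fin (r + 1), ∀ x ∈ D, ∀ y ∈ D, J x y → χ x ≠ χ y := by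
    intro D
    induction D using Finset.strongInduction with
    | H D ih =>
      intro hD
      rcases D.eq_empty_or_nonempty with rfl | hne
      · exact ⟨fun _ => 0, by simp⟩
      obtain ⟨x, hx, hx'⟩ : ∃ x ∈ D, (D.filter (J x)).card ≤ r := by
        by_contra h'
        push Not at h'
        exact hc ⟨D, hne, hD, h'⟩
      obtain ⟨χ, hχ⟩ := ih (D.erase x) (erase_ssubset hx) fun y hy => hD y (mem_of_mem_erase hy)
      obtain ⟨γ, -, hγ⟩ := exists_mem_notMem_of_card_lt_card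
        (s := (D.filter (J x)).image χ) (t := univ)
        (by rw [card_univ, Fintype.card_fin]; exact card_image_le.trans_lt (by omega))
      have a : ∀ y ∈ D, J x y → γ ≠ Function.update χ x γ y := by
        intro y hy hxy
        have : y ≠ x := fun h => hi x (h ▸ hxy)
        rw [Function.update_of_ne this]
        exact fun h => hγ (mem_image.mpr ⟨y, mem_filter.mpr ⟨hy, hxy⟩, h.symm⟩)
      refine ⟨Function.update χ x γ, fun y hy z hz hyz => ?_⟩
      by_cases h1 : y = x
      · subst h1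
        rw [Function.update_self]
        exact a z hz hyz
      by_cases h2 : z = x
      · subst h2
        rw [Function.update_self]
        exact (a y hy (hs _ _ hyz)).symm
      rw [Function.update_of_ne h1, Function.update_of_ne h2]
      exact hχ y (mem_erase.mpr ⟨h1, hy⟩) z (mem_erase.mpr ⟨h2, hz⟩) hyz
  obtain ⟨χ, hχ⟩ := key (univ.filter (· ∈ P)) fun x hx => (mem_filter.mp hx).2
  obtain ⟨c, γ, hγ⟩ := h χ
  obtain ⟨u, v, huv⟩ := hJ c
  exact hχ _ (mem_filter.mpr ⟨mem_univ _, (hγ u).1⟩) _ (mem_filter.mpr ⟨mem_univ _, (hγ v).1⟩) huv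
    ((hγ u).2.trans (hγ v).2.symm)

theorem FQ.embed [Fintype V] {H : SimpleGraph V} {Q : SimpleGraph W} {p : V → W} {rk : V → ℕ}
    (h : FQ H.Adj Q p rk) {J : N → N → Prop} (hs : ∀ x y, J x y → J y x) (D : W → Finset N)
    (h1 : ∀ q, (D q).Nonempty) (h2 : ∀ q, ∀ x ∈ D q, Fintype.card V < ((D q).filter (J x)).card) :
    ∃ φ : V → N, Function.Injective φ ∧ (∀ v, φ v ∈ D (p v)) ∧
      ∀ u v, H.Adj u v → p u = p v → J (φ u) (φ v) := by
  have key : ∀ S : Finset V, ∃ φ : V → N, Set.InjOn φ S ∧ (∀ v, φ v ∈ D (p v)) ∧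
      ∀ u ∈ S, ∀ v ∈ S, H.Adj u v → p u = p v → J (φ u) (φ v) := by
    intro S
    induction S using Finset.induction_on_max_value rk with
    | empty => exact ⟨fun v => (h1 (p v)).choose, by simp, fun v => (h1 (p v)).choose_spec, by simp⟩
    | insert a S ha hm ih =>
      obtain ⟨φ, k1, k2, k3⟩ := ih
      obtain ⟨w, hw⟩ := h.ord a
      obtain ⟨b, hb, hb'⟩ : ∃ b ∈ D (p a), p w = p a → b = φ w := by
        by_cases hp : p w = p a
        · exact ⟨φ w, hp ▸ k2 w, fun _ => rfl⟩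
        · exact ⟨φ a, k2 a, fun h => absurd h hp⟩
      obtain ⟨y, hy, hy'⟩ := exists_mem_notMem_of_card_lt_card (s := S.image φ)
        (t := (D (p a)).filter (J b))
        ((card_image_le.trans (card_le_univ S)).trans_lt (h2 _ b hb))
      have ne : ∀ v ∈ S, Function.update φ a y v = φ v := fun v hv =>
        Function.update_of_ne (fun (h : v = a) => ha (h ▸ hv)) _ _
      have a1 : ∀ v ∈ S, H.Adj a v → p v = p a → J (φ v) y := by
        intro v hv hav hp
        obtain rfl := hw v hav hp (hm v hv)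
        rw [← hb' hp]
        exact (mem_filter.mp hy).2
      refine ⟨Function.update φ a y, fun u hu v hv huv => ?_, fun v => ?_,
        fun u hu v hv huv hp => ?_⟩
      · rcases mem_insert.mp (mem_coe.mp hu) with rfl | hu' <;>
          rcases mem_insert.mp (mem_coe.mp hv) with rfl | hv'
        · rfl
        · rw [Function.update_self, ne v hv'] at huv
          exact absurd (mem_image.mpr ⟨v, hv', huv.symm⟩) hy'
        · rw [Function.update_self, ne u hu'] at huv
          exact absurd (mem_image.mpr ⟨u, hu', huv⟩) hy'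
        · rw [ne u hu', ne v hv'] at huv
          exact k1 hu' hv' huv
      · by_cases hv : v = a
        · subst hv
          rw [Function.update_self]
          exact (mem_filter.mp hy).1
        · rw [Function.update_of_ne hv]
          exact k2 v
      · rcases mem_insert.mp hu with rfl | hu' <;> rcases mem_insert.mp hv with rfl | hv'
        · exact absurd huv H.irrefl
        · rw [Function.update_self, ne v hv']
          exact hs _ _ (a1 v hv' huv hp.symm)
        · rw [Function.update_self, ne u hu']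
          exact a1 u hu' huv.symm hp
        · rw [ne u hu', ne v hv']
          exact k3 u hu' v hv' huv hp
  obtain ⟨φ, k1, k2, k3⟩ := key univ
  exact ⟨φ, fun u v huv => k1 (by simp) (by simp) huv, k2,
    fun u v => k3 u (mem_univ _) v (mem_univ _)⟩

theorem layers (V : Type) [Fintype V] (g r : ℕ) (S : Finset W) :
    ∀ (T : Type) [Fintype T] [Nonempty T], ∃ (U E : Type) (_ : Fintype U) (_ : Fintype E)
      (π : U → W) (e : E → V → U), Sparse g e ∧ (∀ c j j', π (e c j) = π (e c j')) ∧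
      (∀ x, π x ∈ S) ∧ ∀ (c : U → U → Fin 2) (t : U → T), (∀ x y, c x y = c y x) →
        ∃ P : W → Set U, (∀ i ∈ S, Big e (r + 1) (P i) ∧ (∀ x ∈ P i, π x = i) ∧
          ∀ x ∈ P i, ∀ x' ∈ P i, t x = t x') ∧ ∀ i ∈ S, ∀ j ∈ S, i ≠ j → ∀ x ∈ P i, ∀ x' ∈ P i,
            ∀ y ∈ P j, ∀ y' ∈ P j, c x y = c x' y' := by
  induction S using Finset.induction_on with
  | empty =>
    intro T _ _
    exact ⟨Empty, Empty, inferInstance, inferInstance, Empty.elim, Empty.elim,
      fun I F _ ⟨c, _⟩ => c.elim, fun c => c.elim, fun x => x.elim,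
      fun _ _ _ => ⟨fun _ => ∅, by simp, by simp⟩⟩
  | insert a S ha ih =>
    intro T _ _
    obtain ⟨U, E, _, _, π, e, h1, h2, h3, h4⟩ := ih (T × Fin 2)
    obtain ⟨M, D, _, _, d, k1, k2⟩ := hg ((T × (U → Fin 2)) × Fin (r + 1)) g V
    refine ⟨U ⊕ M, E ⊕ D, inferInstance, inferInstance, Sum.elim π fun _ => a, _, h1.sum k1,
      ?_, ?_, fun c t hc => ?_⟩
    · rintro (c | c) j j'
      · exact h2 c j j'
      · rfl
    · rintro (x | x)
      · exact mem_insert_of_mem (h3 x)
      · exact mem_insert_self _ _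
    obtain ⟨τ, hτ⟩ := big_class k2 fun y => (t (Sum.inr y), fun x => c (Sum.inl x) (Sum.inr y))
    obtain ⟨P, p1, p2⟩ := h4 (fun x y => c (Sum.inl x) (Sum.inl y))
      (fun x => (t (Sum.inl x), τ.2 x)) fun x y => hc _ _
    set A := {y | (t (Sum.inr y), fun x => c (Sum.inl x) (Sum.inr y)) = τ} with hA
    let P' : W → Set (U ⊕ M) := fun i => if i = a then Sum.inr '' A else Sum.inl '' P i
    have e1 : P' a = Sum.inr '' A := if_pos rfl
    have e2 : ∀ i ∈ S, P' i = Sum.inl '' P i := fun i hi => if_neg fun (h : i = a) => ha (h ▸ hi)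
    have cross : ∀ i ∈ S, ∀ x ∈ P' i, ∀ x' ∈ P' i, ∀ y ∈ P' a, ∀ y' ∈ P' a, c x y = c x' y' := by
      intro i hi
      rw [e1, e2 i hi]
      rintro _ ⟨x, hx, rfl⟩ _ ⟨x', hx', rfl⟩ _ ⟨y, hy, rfl⟩ _ ⟨y', hy', rfl⟩
      have b1 := congrFun (congrArg Prod.snd hy) x
      have b2 := congrFun (congrArg Prod.snd hy') x'
      have b3 := congrArg Prod.snd ((p1 i hi).2.2 x hx x' hx')
      exact b1.trans (b3.trans b2.symm)
    refine ⟨P', fun i hi => ?_, fun i hi j hj hij => ?_⟩
    · rcases mem_insert.mp hi with rfl | hi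
      · rw [e1]
        refine ⟨fun χ => ?_, ?_, ?_⟩
        · obtain ⟨c, γ, hγ⟩ := hτ fun y => χ (Sum.inr y)
          exact ⟨Sum.inr c, γ, fun j => ⟨⟨_, (hγ j).1, rfl⟩, (hγ j).2⟩⟩
        · rintro _ ⟨y, -, rfl⟩
          rfl
        · rintro _ ⟨y, hy, rfl⟩ _ ⟨y', hy', rfl⟩
          exact (congrArg Prod.fst hy).trans (congrArg Prod.fst hy').symm
      · rw [e2 i hi]
        refine ⟨fun χ => ?_, ?_, ?_⟩
        · obtain ⟨c, γ, hγ⟩ := (p1 i hi).1 fun y => χ (Sum.inl y)
          exact ⟨Sum.inl c, γ, fun j => ⟨⟨_, (hγ j).1, rfl⟩, (hγ j).2⟩⟩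
        · rintro _ ⟨y, hy, rfl⟩
          exact (p1 i hi).2.1 y hy
        · rintro _ ⟨y, hy, rfl⟩ _ ⟨y', hy', rfl⟩
          exact congrArg Prod.fst ((p1 i hi).2.2 y hy y' hy')
    · rcases mem_insert.mp hi with rfl | hi' <;> rcases mem_insert.mp hj with rfl | hj'
      · exact absurd rfl hij
      · intro x hx x' hx' y hy y' hy'
        rw [hc x, hc x']
        exact cross j hj' y hy y' hy' x hx x' hx'
      · exact cross i hi'
      · rw [e2 i hi', e2 j hj']
        rintro _ ⟨x, hx, rfl⟩ _ ⟨x', hx', rfl⟩ _ ⟨y, hy, rfl⟩ _ ⟨y', hy', rfl⟩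
        exact p2 i hi' j hj' hij x hx x' hx' y hy y' hy'

/-- Every two-colouring of the edges of `K` has a monochromatic homomorphic image of `Q`. -/
def HArr {Z : Type} (K : SimpleGraph Z) (Q : SimpleGraph W) : Prop :=
  ∀ c : Z → Z → Fin 2, (∀ x y, c x y = c y x) → ∃ i, ∃ f : W → Z,
    ∀ u v, Q.Adj u v → K.Adj (f u) (f v) ∧ c (f u) (f v) = i

theorem host [Fintype V] [Nonempty V] {H : SimpleGraph V} {Q : SimpleGraph W} {p : V → W}
    {rk : V → ℕ} (h : FQ H.Adj Q p rk) {Z : Type} [Fintype Z] {K : SimpleGraph Z}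
    (hK : HArr K Q) (g : ℕ) : ∃ (U E : Type) (_ : Fintype U) (_ : Fintype E) (e : E → V → U)
      (G : SimpleGraph U), Sparse (g + 1) e ∧ Arrows G H 2 ∧
      ∀ (X : Type) (Y : SimpleGraph X), Arrows G Y 2 → Emb Y (Fill H e univ) ∨
        ∃ f : X → Z, ∀ u v, Y.Adj u v → K.Adj (f u) (f v) := by
  obtain ⟨U, E, _, _, π, e, h1, h2, -, h4⟩ :=
    layers V (g + 1) (Fintype.card V) (univ : Finset Z) Unit
  have irr : ∀ x, ¬ Fill H e univ x x := fun x ⟨c, _, u, v, k1, k2, k3⟩ =>
    k1.ne (h1.inj c (k2.trans k3.symm))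
  let G : SimpleGraph U :=
    { Adj := fun x y => Fill H e univ x y ∨ K.Adj (π x) (π y)
      symm := ⟨fun x y h => h.imp Fill.symm fun h => h.symm⟩
      loopless := ⟨fun x h => h.elim (irr x) K.irrefl⟩ }
  refine ⟨U, E, inferInstance, inferInstance, e, G, h1, fun c hc => ?_, fun X Y hY => ?_⟩
  · by_contra hcon
    obtain ⟨P, p1, p2⟩ := h4 c (fun _ => ()) hc
    have ne : ∀ i, ∃ x, x ∈ P i := fun i =>
      let ⟨c, γ, hγ⟩ := (p1 i (mem_univ _)).1 fun _ => 0
      ⟨_, (hγ (Classical.arbitrary V)).1⟩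
    choose x hx using ne
    obtain ⟨i, f, f2⟩ := hK (fun a b => c (x a) (x b)) fun a b => hc _ _
    have hs : ∀ a b, (G.Adj a b ∧ c a b = i) → (G.Adj b a ∧ c b a = i) := fun a b h =>
      ⟨h.1.symm, (hc _ _).trans h.2⟩
    have hJ : ∀ d, ∃ u v, G.Adj (e d u) (e d v) ∧ c (e d u) (e d v) = i := by
      intro d
      by_contra hn
      refine hcon ⟨i + 1, e d, h1.inj d, fun u v huv => ?_⟩
      have a : G.Adj (e d u) (e d v) := Or.inl ⟨d, mem_univ _, u, v, huv, rfl, rfl⟩
      have b : c (e d u) (e d v) ≠ i := fun b => hn ⟨u, v, a, b⟩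
      refine ⟨a, ?_⟩
      have : ∀ i s : Fin 2, s ≠ i → s = i + 1 := by decide
      exact this _ _ b
    choose D d1 d2 d3 using fun q => (p1 (f q) (mem_univ _)).1.core hs (fun a h => h.1.ne rfl) hJ
    obtain ⟨φ, k1, k2, k3⟩ := h.embed hs D d1 d3
    refine hcon ⟨i, φ, k1, fun u v huv => (h.hom u v huv).elim (k3 u v huv) fun hq => ?_⟩
    have m : ∀ w, φ w ∈ P (f (p w)) := fun w => d2 _ _ (k2 w)
    refine ⟨Or.inr ?_, ?_⟩
    · rw [(p1 _ (mem_univ _)).2.1 _ (m u), (p1 _ (mem_univ _)).2.1 _ (m v)]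
      exact (f2 _ _ hq).1
    · exact (p2 _ (mem_univ _) _ (mem_univ _) (f2 _ _ hq).1.ne _ (m u) _ (hx _) _ (m v) _
        (hx _)).trans (f2 _ _ hq).2
  · obtain ⟨i, f, f1, f2⟩ := hY (fun x y => if π x = π y then 0 else 1) fun x y => by
      simp only [eq_comm]
    by_cases hi : i = 0
    · refine Or.inl ⟨f, f1, fun u v huv => (f2 u v huv).1.resolve_right fun hk => ?_⟩
      have := (f2 u v huv).2
      rw [if_neg hk.ne, hi] at this
      exact absurd this (by decide)
    · refine Or.inr ⟨π ∘ f, fun u v huv => (f2 u v huv).1.resolve_left ?_⟩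
      rintro ⟨d, -, a, b, -, k2, k3⟩
      have := (f2 u v huv).2
      rw [if_pos (by rw [← k2, ← k3]; exact h2 d a b)] at this
      exact hi this.symm

end Pool.Agent.Lib.MP_781e3b_co.H92
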