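import Pool.Agent.Lib.MP_781e3b_co.H92NR

/-!
Graphs whose small subgraphs map to members of a class closed under gluing along edges have the
Ramsey property (iterated partite construction).
-/

set_option linter.unusedVariables false
set_option linter.unusedSectionVars false

namespace Pool.Agent.Lib.MP_781e3b_co.H92

open Finset Classical

variable {X Z : Type} {C : ∀ n : ℕ, SimpleGraph (Fin n) → Prop}

/-- Any two members can be glued along any two oriented edges, up to homomorphisms. -/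
def EG (C : ∀ n : ℕ, SimpleGraph (Fin n) → Prop) : Prop :=
  ∀ n₁ n₂ (G₁ : SimpleGraph (Fin n₁)) (G₂ : SimpleGraph (Fin n₂)), C n₁ G₁ → C n₂ G₂ →
    ∀ x₁ y₁ x₂ y₂, G₁.Adj x₁ y₁ → G₂.Adj x₂ y₂ → ∃ (n : ℕ) (G : SimpleGraph (Fin n))
      (f₁ : G₁ →g G) (f₂ : G₂ →g G), C n G ∧ f₁ x₁ = f₂ x₂ ∧ f₁ y₁ = f₂ y₂

theorem EG.vertex (h : EG C) {n₁ n₂ : ℕ} {G₁ : SimpleGraph (Fin n₁)} {G₂ : SimpleGraph (Fin n₂)}
    (h1 : C n₁ G₁) (h2 : C n₂ G₂) (x₁ : Fin n₁) (x₂ : Fin n₂) :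
    ∃ (n : ℕ) (G : SimpleGraph (Fin n)) (f₁ : G₁ →g G) (f₂ : G₂ →g G), C n G ∧ f₁ x₁ = f₂ x₂ := by
  by_cases e1 : ∃ a b, G₁.Adj a b
  swap
  · exact ⟨_, G₂, ⟨fun _ => x₂, fun {a b} hab => absurd ⟨a, b, hab⟩ e1⟩, .id, h2, rfl⟩
  by_cases e2 : ∃ a b, G₂.Adj a b
  swap
  · exact ⟨_, G₁, .id, ⟨fun _ => x₁, fun {a b} hab => absurd ⟨a, b, hab⟩ e2⟩, h1, rfl⟩
  by_cases k1 : ∃ y, G₁.Adj x₁ y
  · by_cases k2 : ∃ y, G₂.Adj x₂ y
    · obtain ⟨y₁, k1⟩ := k1
      obtain ⟨y₂, k2⟩ := k2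
      obtain ⟨n, G, f₁, f₂, r1, r2, -⟩ := h _ _ _ _ h1 h2 _ _ _ _ k1 k2
      exact ⟨n, G, f₁, f₂, r1, r2⟩
    · obtain ⟨a, b, e1⟩ := e1
      obtain ⟨a', b', e2⟩ := e2
      obtain ⟨n, G, f₁, f₂, r1, -⟩ := h _ _ _ _ h1 h2 _ _ _ _ e1 e2
      refine ⟨n, G, f₁, ⟨Function.update f₂ x₂ (f₁ x₁), fun {u v} huv => ?_⟩, r1,
        (Function.update_self _ _ (f₂ : _ → _)).symm⟩
      rw [Function.update_of_ne fun e : u = x₂ => k2 ⟨v, e ▸ huv⟩,
        Function.update_of_ne fun e : v = x₂ => k2 ⟨u, e ▸ huv.symm⟩]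
      exact f₂.map_adj huv
  · obtain ⟨a, b, e1⟩ := e1
    obtain ⟨a', b', e2⟩ := e2
    obtain ⟨n, G, f₁, f₂, r1, -⟩ := h _ _ _ _ h1 h2 _ _ _ _ e1 e2
    refine ⟨n, G, ⟨Function.update f₁ x₁ (f₂ x₂), fun {u v} huv => ?_⟩, f₂, r1,
      Function.update_self _ _ (f₁ : _ → _)⟩
    rw [Function.update_of_ne fun e : u = x₁ => k1 ⟨v, e ▸ huv⟩,
      Function.update_of_ne fun e : v = x₁ => k1 ⟨u, e ▸ huv.symm⟩]
    exact f₁.map_adj huv

/-- The subgraph induced on `S` maps to a member of the class. -/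
def ColOn (C : ∀ n : ℕ, SimpleGraph (Fin n) → Prop) (K : SimpleGraph Z) (S : Finset Z) : Prop :=
  ∃ (n : ℕ) (G : SimpleGraph (Fin n)) (f : Z → Fin n), C n G ∧
    ∀ u ∈ S, ∀ v ∈ S, K.Adj u v → G.Adj (f u) (f v)

/-- All subgraphs on at most `N` vertices map to members of the class. -/
def Loc (C : ∀ n : ℕ, SimpleGraph (Fin n) → Prop) (N : ℕ) (K : SimpleGraph Z) : Prop :=
  ∀ S : Finset Z, S.card ≤ N → ColOn C K S

theorem Loc.comap {N : ℕ} {K : SimpleGraph Z} (h : Loc C N K) {P : SimpleGraph X} (f : P →g K) :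
    Loc C N P := fun S hS =>
  let ⟨n, G, g, h1, h2⟩ := h (S.image f) (card_image_le.trans hS)
  ⟨n, G, g ∘ f, h1, fun u hu v hv huv =>
    h2 _ (mem_image_of_mem _ hu) _ (mem_image_of_mem _ hv) (f.map_adj huv)⟩

theorem loc_two (hE : ∃ n G, C n G ∧ ∃ a b, G.Adj a b) (K : SimpleGraph Z) : Loc C 2 K := by
  intro S hS
  obtain ⟨n, G, h1, a, b, h2⟩ := hE
  by_cases h : ∃ u ∈ S, ∃ v ∈ S, K.Adj u v
  swap
  · exact ⟨n, G, fun _ => a, h1, fun u hu v hv huv => absurd ⟨u, hu, v, hv, huv⟩ h⟩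
  obtain ⟨x, hx, y, hy, hxy⟩ := h
  have e : ∀ u ∈ S, u = x ∨ u = y := fun u hu => by
    by_contra hc
    rw [not_or] at hc
    have := two_lt_card_iff.mpr ⟨u, x, y, hu, hx, hy, hc.1, hc.2, hxy.ne⟩
    omega
  refine ⟨n, G, fun u => if u = x then a else b, h1, fun u hu v hv huv => ?_⟩
  rcases e u hu with rfl | rfl <;> rcases e v hv with rfl | rfl
  · exact absurd rfl huv.ne
  · simpa [huv.ne'] using h2
  · simpa [huv.ne] using h2.symm
  · exact absurd rfl huv.ne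

theorem sep_of_loc (hC : EG C) {N : ℕ} {K : SimpleGraph Z} (hK : Loc C (N + 2) K)
    {F : SimpleGraph (Fin (N + 3))} (hF : ¬ ColOn C F univ) : Sep F K := by
  intro h i j hij T hT
  refine ⟨?_, fun A hA x x1 x2 y y1 => ?_⟩
  · by_contra hc
    obtain ⟨n, G, f, h1, h2⟩ := hK {i, j} (card_le_two.trans (by omega))
    have : ∀ u, h u ∈ ({i, j} : Finset Z) := fun u => by
      simpa using hT (not_not.mp fun hu => hc ⟨u, hu⟩)
    exact hF ⟨n, G, f ∘ h, h1, fun u _ v _ huv => h2 _ (this u) _ (this v) (h.map_adj huv)⟩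
  by_contra y2
  have small : ∀ (B : Set (Fin (N + 3))) (z), z ∉ B → ∃ (n : ℕ) (G : SimpleGraph (Fin n))
      (f : Z → Fin n), C n G ∧ ∀ u ∈ B, ∀ v ∈ B, K.Adj (h u) (h v) → G.Adj (f (h u)) (f (h v)) := by
    intro B z hz
    obtain ⟨n, G, f, h1, h2⟩ := hK ((univ.filter (· ∈ B)).image h) (card_image_le.trans (by
      have := card_lt_card (filter_ssubset.mpr ⟨z, mem_univ _, hz⟩ : univ.filter (· ∈ B) ⊂ univ)
      rw [card_univ, Fintype.card_fin] at this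
      omega))
    exact ⟨n, G, f, h1, fun u hu v hv => h2 _ (mem_image_of_mem _ (by simpa using hu)) _
      (mem_image_of_mem _ (by simpa using hv))⟩
  obtain ⟨n₁, G₁, f₁, c₁, r₁⟩ := small (A ∪ T) y fun h => h.elim y2 y1
  obtain ⟨n₂, G₂, f₂, c₂, r₂⟩ := small (Aᶜ ∪ T) x fun h => h.elim (fun h => h x2) x1
  obtain ⟨n, G, g₁, g₂, c, r⟩ : ∃ (n : ℕ) (G : SimpleGraph (Fin n)) (g₁ : G₁ →g G) (g₂ : G₂ →g G),
      C n G ∧ ∀ t ∈ T, g₁ (f₁ (h t)) = g₂ (f₂ (h t)) := by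
    by_cases e : ∃ s ∈ T, ∃ t ∈ T, h s ≠ h t
    · obtain ⟨s, hs, t, ht, e⟩ := e
      have adj : K.Adj (h s) (h t) := by
        rcases hT hs with a | a <;> rcases hT ht with b | b
        · exact absurd (a.trans b.symm) e
        · rw [a, b] at e ⊢
          exact hij.resolve_left e
        · rw [a, b] at e ⊢
          exact (hij.resolve_left e.symm).symm
        · exact absurd (a.trans b.symm) e
      obtain ⟨n, G, g₁, g₂, c, r1, r2⟩ := hC _ _ _ _ c₁ c₂ _ _ _ _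
        (r₁ s (Or.inr hs) t (Or.inr ht) adj) (r₂ s (Or.inr hs) t (Or.inr ht) adj)
      refine ⟨n, G, g₁, g₂, c, fun u hu => ?_⟩
      have : h u = h s ∨ h u = h t := by
        rcases hT hs with a | a <;> rcases hT ht with b | b <;> rcases hT hu with d | d <;>
          simp_all
      rcases this with d | d <;> rwa [d]
    · by_cases e' : ∃ s, s ∈ T
      · obtain ⟨s, hs⟩ := e'
        obtain ⟨n, G, g₁, g₂, c, r⟩ := hC.vertex c₁ c₂ (f₁ (h s)) (f₂ (h s))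
        refine ⟨n, G, g₁, g₂, c, fun t ht => ?_⟩
        rwa [not_not.mp fun d : h t ≠ h s => e ⟨t, ht, s, hs, d⟩]
      · obtain ⟨n, G, g₁, g₂, c, -⟩ := hC.vertex c₁ c₂ (f₁ i) (f₂ i)
        exact ⟨n, G, g₁, g₂, c, fun t ht => absurd ⟨t, ht⟩ e'⟩
  let ψ : Fin (N + 3) → Fin n := fun u => if u ∈ A then g₁ (f₁ (h u)) else g₂ (f₂ (h u))
  have p1 : ∀ u ∈ A ∪ T, ψ u = g₁ (f₁ (h u)) := fun u hu => by
    by_cases d : u ∈ A
    · exact if_pos d
    · exact (if_neg d).trans (r u (hu.resolve_left d)).symm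
  have p2 : ∀ u ∈ Aᶜ ∪ T, ψ u = g₂ (f₂ (h u)) := fun u hu => by
    by_cases d : u ∈ A
    · exact (if_pos d).trans (r u (hu.resolve_left fun e => e d))
    · exact if_neg d
  refine hF ⟨n, G, ψ, c, fun u _ v _ huv => ?_⟩
  by_cases d : u ∈ A ∪ T ∧ v ∈ A ∪ T
  · rw [p1 u d.1, p1 v d.2]
    exact g₁.map_adj (r₁ u d.1 v d.2 (h.map_adj huv))
  have k : ∀ u v, F.Adj u v → ¬ (u ∈ A ∪ T ∧ v ∈ A ∪ T) → u ∈ Aᶜ ∪ T := by
    intro u v huv d
    by_contra e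
    have e1 : u ∈ A := not_not.mp fun a => e (Or.inl a)
    have e2 : v ∉ T := fun a => d ⟨Or.inl e1, Or.inr a⟩
    exact d ⟨Or.inl e1, Or.inl (hA u (fun a => e (Or.inr a)) v e2 huv e1)⟩
  have k1 := k u v huv d
  have k2 := k v u huv.symm fun e => d e.symm
  rw [p2 u k1, p2 v k2]
  exact g₂.map_adj (r₂ u k1 v k2 (h.map_adj huv))

theorem Loc.free {N : ℕ} {K : SimpleGraph Z} (hK : Loc C N K) {F : SimpleGraph (Fin N)}
    (hF : ¬ ColOn C F univ) : IsEmpty (F →g K) :=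
  ⟨fun f => hF (hK.comap f univ (by simp))⟩

theorem Loc.succ {N : ℕ} {K : SimpleGraph Z} (hK : Loc C N K)
    (h : ∀ F : SimpleGraph (Fin (N + 1)), ¬ ColOn C F univ → IsEmpty (F →g K)) :
    Loc C (N + 1) K := by
  intro S hS
  rcases hS.lt_or_eq with hS | hS
  · exact hK S (by omega)
  let e : Fin (N + 1) → Z := fun a => (S.equivFinOfCardEq hS).symm a
  obtain ⟨n, G, f, h1, h2⟩ : ColOn C (K.comap e) univ :=
    not_not.mp fun hc => (h _ hc).false (SimpleGraph.Hom.comap e K)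
  refine ⟨n, G, fun u => if hu : u ∈ S then f (S.equivFinOfCardEq hS ⟨u, hu⟩) else f 0, h1,
    fun u hu v hv huv => ?_⟩
  simp only [dif_pos hu, dif_pos hv]
  exact h2 _ (mem_univ _) _ (mem_univ _) (by simpa [e] using huv)

theorem cls_loc (hC : EG C) (hE : ∃ n G, C n G ∧ ∃ a b, G.Adj a b) (N : ℕ) :
    Cls fun W Q => Finite W ∧ Loc C (N + 2) Q where
  ram := by
    rintro W Q ⟨_, hQ⟩
    induction N with
    | zero =>
      obtain ⟨n, hn⟩ := ram_top Q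
      exact ⟨_, inferInstance, _, ⟨inferInstance, loc_two hE _⟩, hn⟩
    | succ N ih =>
      obtain ⟨Z, _, K, ⟨_, k1⟩, k2⟩ := ih fun S hS => hQ S (by omega)
      have key : ∀ L : Finset (SimpleGraph (Fin (N + 3))), ∃ (V : Type) (_ : Finite V)
          (P : SimpleGraph V), Loc C (N + 2) P ∧ HArr P Q ∧
            ∀ F ∈ L, ¬ ColOn C F univ → IsEmpty (F →g P) := by
        intro L
        induction L using Finset.induction_on with
        | empty => exact ⟨Z, inferInstance, K, k1, k2, by simp⟩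
        | insert F L _ ihL =>
          obtain ⟨V, _, P, r1, r2, r3⟩ := ihL
          by_cases hF : ColOn C F univ
          · exact ⟨V, inferInstance, P, r1, r2, fun F' h1 h2 =>
              (mem_insert.mp h1).elim (fun e => absurd (e ▸ hF) h2) fun e => r3 F' e h2⟩
          obtain ⟨V', _, P', f, s1, s2⟩ := ram_step (sep_of_loc hC r1 hF) (hQ.free hF) r2
          exact ⟨V', inferInstance, P', r1.comap f, s2, fun F' h1 h2 => (mem_insert.mp h1).elim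
            (fun e => e ▸ s1) fun e => ⟨fun g => (r3 F' e h2).false (f.comp g)⟩⟩
      obtain ⟨V, _, P, r1, r2, r3⟩ := key univ
      exact ⟨V, Fintype.ofFinite _, P, ⟨inferInstance, r1.succ fun F => r3 F (mem_univ _)⟩, r2⟩
  glue := by
    rintro W₁ Q₁ W₂ Q₂ ⟨_, h1⟩ ⟨_, h2⟩ x₁ x₂
    obtain ⟨Q, f₁, f₂, k1, k2⟩ := glue Q₁ Q₂ x₁ x₂
    refine ⟨_, Q, f₁, f₂, ⟨inferInstance, ?_⟩, k1⟩
    induction N with
    | zero => exact loc_two hE _
    | succ N ih =>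
      have := ih (fun S hS => h1 S (by omega)) fun S hS => h2 S (by omega)
      exact this.succ fun F hF => k2 _ F (sep_of_loc hC this hF) (h1.free hF) (h2.free hF)

end Pool.Agent.Lib.MP_781e3b_co.H92
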