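import Pool.Agent.Lib.MP_781e3b_co.H92Host

/-!
Small parts of a filled sparse hypergraph are forests of copies glued at vertices.
-/

set_option linter.unusedVariables false
set_option linter.unusedSectionVars false

namespace Pool.Agent.Lib.MP_781e3b_co.H92

open Finset Classical

variable {V W E N X : Type}

theorem Fill.mono {H : SimpleGraph V} {e : E → V → N} {F F' : Finset E} (hF : F ⊆ F') {x y : N}
    (h : Fill H e F x y) : Fill H e F' x y :=
  let ⟨c, hc, r⟩ := h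
  ⟨c, hF hc, r⟩

theorem Fill.small [Fintype X] {H : SimpleGraph V} {e : E → V → N} {F : Finset E}
    {Y : SimpleGraph X} (h : Emb Y (Fill H e F)) :
    ∃ F' : Finset E, F'.card ≤ Fintype.card (X × X) ∧ Emb Y (Fill H e F') := by
  obtain ⟨f, f1, f2⟩ := h
  have : ∀ p : X × X, ∃ s : Finset E, s.card ≤ 1 ∧
      (Y.Adj p.1 p.2 → Fill H e s (f p.1) (f p.2)) := by
    intro p
    by_cases hp : Y.Adj p.1 p.2
    · obtain ⟨c, -, r⟩ := f2 _ _ hp
      exact ⟨{c}, by simp, fun _ => ⟨c, mem_singleton_self _, r⟩⟩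
    · exact ⟨∅, by simp, fun h => absurd h hp⟩
  choose s s1 s2 using this
  refine ⟨univ.biUnion s, ?_, f, f1, fun u v huv =>
    (s2 (u, v) huv).mono (subset_biUnion_of_mem s (mem_univ _))⟩
  simpa using card_biUnion_le_card_mul univ s 1 fun p _ => s1 p

theorem Sparse.leaf [Fintype V] [Nonempty V] {g : ℕ} {e : E → V → N} (h : Sparse (g + 1) e)
    {F : Finset E} (h1 : F.Nonempty) (h2 : F.card ≤ g + 1) :
    ∃ c ∈ F, ∃ z, ∀ c' ∈ F.erase c, ∀ u u', e c u = e c' u' → u = z := by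
  by_contra hc
  push Not at hc
  let I : Finset (E × V) := (F ×ˢ univ).filter fun y => ∃ c' ∈ F.erase y.1, ∃ u', e y.1 y.2 = e c' u'
  have hI : ∀ c ∈ F, ∀ u, ∀ c' ∈ F.erase c, ∀ u', e c u = e c' u' → (c, u) ∈ I :=
    fun c hc u c' hc' u' h => mem_filter.mpr ⟨by simp [hc], c', hc', u', h⟩
  have a : 2 * F.card ≤ I.card := by
    refine mul_card_image_le_card_of_maps_to (f := Prod.fst)
      (fun y hy => (mem_product.mp (mem_filter.mp hy).1).1) 2 fun c hcF => ?_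
    obtain ⟨c1, k1, u1, v1, k2, -⟩ := hc c hcF (Classical.arbitrary V)
    obtain ⟨c2, k3, u2, v2, k4, k5⟩ := hc c hcF u1
    exact one_lt_card.mpr ⟨(c, u1), mem_filter.mpr ⟨hI c hcF _ _ k1 _ k2, rfl⟩, (c, u2),
      mem_filter.mpr ⟨hI c hcF _ _ k3 _ k4, rfl⟩, by simpa using k5.symm⟩
  have b : 2 * (I.image fun y => e y.1 y.2).card ≤ I.card := by
    refine mul_card_image_le_card _ 2 fun w hw => ?_
    obtain ⟨y, hy, rfl⟩ := mem_image.mp hw
    obtain ⟨k1, c', k2, u', k3⟩ := mem_filter.mp hy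
    have k4 := mem_erase.mp k2
    refine one_lt_card.mpr ⟨y, mem_filter.mpr ⟨hy, rfl⟩, (c', u'), mem_filter.mpr
      ⟨hI c' k4.2 u' y.1 (mem_erase.mpr ⟨k4.1.symm, (mem_product.mp k1).1⟩) y.2 k3.symm, k3.symm⟩,
      fun h => k4.1 (congrArg Prod.fst h).symm⟩
  have := h I F (I.image fun y => e y.1 y.2) h1 h2 fun y hy =>
    ⟨(mem_product.mp (mem_filter.mp hy).1).1, mem_image_of_mem _ hy⟩
  omega

theorem closed_of_conn {Y : SimpleGraph X} {S A : Set X} (h : (Y.induce S).Connected) {x : X}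
    (h1 : x ∈ S) (h2 : x ∈ A) (h3 : ∀ a ∈ S, ∀ b ∈ S, Y.Adj a b → a ∈ A → b ∈ A) :
    ∀ y ∈ S, y ∈ A := by
  intro y hy
  obtain ⟨p⟩ := h.preconnected ⟨x, h1⟩ ⟨y, hy⟩
  have : ∀ (a b : S) (p : (Y.induce S).Walk a b), a.1 ∈ A → b.1 ∈ A := by
    intro a b p
    induction p with
    | nil => exact id
    | cons h p ih => exact fun ha => ih (h3 _ (Subtype.property _) _ (Subtype.property _) h ha)
  exact this _ _ p h2

/-- At least three vertices, and connected after deleting any one vertex. -/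
def Two [Fintype X] (Y : SimpleGraph X) : Prop :=
  3 ≤ Fintype.card X ∧ ∀ v, (Y.induce {v}ᶜ).Connected

theorem Two.nbr [Fintype X] {Y : SimpleGraph X} (h : Two Y) (x : X) : ∃ y, Y.Adj x y := by
  by_contra hc
  obtain ⟨v, -, hv⟩ := exists_mem_notMem_of_card_lt_card (s := {x}) (t := univ)
    (by have := h.1; rw [card_singleton, card_univ]; omega)
  obtain ⟨w, -, hw⟩ := exists_mem_notMem_of_card_lt_card (s := {x, v}) (t := univ)
    (by have := h.1; rw [card_univ]; exact card_le_two.trans_lt (by omega))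
  simp only [mem_insert, mem_singleton, not_or] at hv hw
  exact hw.1 (closed_of_conn (A := {x}) (h.2 v) (x := x) (fun h => hv h.symm) rfl
    (fun a _ b _ hab ha => absurd ⟨b, ha ▸ hab⟩ hc) w hw.2)

theorem Two.emb [Fintype X] [Fintype V] [Nonempty V] {Y : SimpleGraph X} (hY : Two Y)
    {H : SimpleGraph V} {g : ℕ} {e : E → V → N} (h : Sparse (g + 1) e) (F : Finset E) :
    F.card ≤ g + 1 → Emb Y (Fill H e F) → Emb Y H.Adj := by
  induction F using Finset.strongInduction with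
  | H F ih =>
    rintro hF ⟨f, f1, f2⟩
    obtain ⟨x0⟩ : Nonempty X := Fintype.card_pos_iff.mp (by have := hY.1; omega)
    obtain ⟨y0, hy0⟩ := hY.nbr x0
    obtain ⟨c0, hc0, -⟩ := f2 _ _ hy0
    obtain ⟨c, hc, z, hz⟩ := h.leaf ⟨c0, hc0⟩ hF
    by_cases hall : ∀ u v, Y.Adj u v → Fill H e (F.erase c) (f u) (f v)
    · exact ih _ (erase_ssubset hc) (card_erase_le.trans hF) ⟨f, f1, hall⟩
    let A : Set X := {x | ∃ u, u ≠ z ∧ e c u = f x}
    have k1 : ∀ x ∈ A, ∀ y, Y.Adj x y → ∃ a b, H.Adj a b ∧ e c a = f x ∧ e c b = f y := by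
      rintro x ⟨u, u1, u2⟩ y hxy
      obtain ⟨c', hc', a, b, r1, r2, r3⟩ := f2 _ _ hxy
      by_cases hcc : c' = c
      · exact ⟨a, b, r1, hcc ▸ r2, hcc ▸ r3⟩
      · exact absurd (hz c' (mem_erase.mpr ⟨hcc, hc'⟩) u a (u2.trans r2.symm)) u1
    obtain ⟨x, hx⟩ : ∃ x, x ∈ A := by
      push Not at hall
      obtain ⟨u, v, huv, hn⟩ := hall
      obtain ⟨c', hc', a, b, r1, r2, r3⟩ := f2 _ _ huv
      obtain rfl : c' = c := by
        by_contra hcc
        exact hn ⟨c', mem_erase.mpr ⟨hcc, hc'⟩, a, b, r1, r2, r3⟩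
      by_cases ha : a = z
      · exact ⟨v, b, fun hb => r1.ne (ha.trans hb.symm), r3⟩
      · exact ⟨u, a, ha, r2⟩
    obtain ⟨w, w1, w2⟩ : ∃ w, x ≠ w ∧ ∀ y, e c z = f y → y = w := by
      by_cases hw : ∃ w, e c z = f w
      · obtain ⟨w, hw⟩ := hw
        obtain ⟨u, u1, u2⟩ := hx
        exact ⟨w, fun hxw => u1 (h.inj c (u2.trans (hxw ▸ hw.symm))),
          fun y hy => f1 (hy.symm.trans hw)⟩
      · obtain ⟨y, hy⟩ := hY.nbr x
        exact ⟨y, hy.ne, fun y' hy' => absurd ⟨y', hy'⟩ hw⟩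
    have k2 : ∀ y, y ≠ w → y ∈ A := closed_of_conn (hY.2 w) w1 hx fun a _ b hb hab ha => by
      obtain ⟨-, b', -, -, r⟩ := k1 a ha b hab
      exact ⟨b', fun hb' => hb (w2 b (hb' ▸ r)), r⟩
    have k3 : ∀ x y, Y.Adj x y → ∃ a b, H.Adj a b ∧ e c a = f x ∧ e c b = f y := by
      intro x y hxy
      by_cases hxw : x = w
      · obtain ⟨a, b, r1, r2, r3⟩ := k1 y (k2 y fun hy => hxy.ne (hxw.trans hy.symm)) x hxy.symm
        exact ⟨b, a, r1.symm, r3, r2⟩
      · exact k1 x (k2 x hxw) y hxy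
    have k4 : ∀ x, ∃ a, e c a = f x := fun x =>
      let ⟨y, hy⟩ := hY.nbr x
      let ⟨a, _, _, r, _⟩ := k3 x y hy
      ⟨a, r⟩
    choose φ hφ using k4
    refine ⟨φ, fun u v huv => f1 (by rw [← hφ, ← hφ, huv]), fun u v huv => ?_⟩
    obtain ⟨a, b, r1, r2, r3⟩ := k3 u v huv
    rw [h.inj c ((hφ u).trans r2.symm), h.inj c ((hφ v).trans r3.symm)]
    exact r1

/-- A class of graphs with the Ramsey property that is closed under gluing at a vertex. -/
structure Cls (C : ∀ W : Type, SimpleGraph W → Prop) : Prop where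
  ram : ∀ W Q, C W Q → ∃ (Z : Type) (_ : Fintype Z) (K : SimpleGraph Z), C Z K ∧ HArr K Q
  glue : ∀ W₁ Q₁ W₂ Q₂, C W₁ Q₁ → C W₂ Q₂ → ∀ x₁ x₂, ∃ (W : Type) (Q : SimpleGraph W)
    (f₁ : Q₁ →g Q) (f₂ : Q₂ →g Q), C W Q ∧ f₁ x₁ = f₂ x₂

theorem Cls.fill {C : ∀ W : Type, SimpleGraph W → Prop} (hC : Cls C) [Fintype V] [Nonempty V]
    {H : SimpleGraph V} {Q : SimpleGraph W} (hQ : C W Q) {p : V → W}
    (hp : ∀ z, ∃ rk, rk z = 0 ∧ FQ H.Adj Q p rk) {g : ℕ} {e : E → V → N} (h : Sparse (g + 1) e)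
    (F : Finset E) : F.card ≤ g + 1 →
      ∃ (W' : Type) (Q' : SimpleGraph W') (p' : N → W') (rk : N → ℕ), C W' Q' ∧
        FQ (Fill H e F) Q' p' rk := by
  induction F using Finset.strongInduction with
  | H F ih =>
    intro hF
    rcases F.eq_empty_or_nonempty with rfl | hne
    · exact ⟨W, Q, fun _ => p (Classical.arbitrary V), fun _ => 0, hQ,
        fun u v ⟨c, hc, _⟩ => absurd hc (notMem_empty _),
        fun v => ⟨v, fun u ⟨c, hc, _⟩ => absurd hc (notMem_empty _)⟩⟩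
    obtain ⟨c, hc, z, hz⟩ := h.leaf hne hF
    obtain ⟨W₁, Q₁, p₁, rk₁, c₁, q₁⟩ := ih _ (erase_ssubset hc) (card_erase_le.trans hF)
    obtain ⟨rk, r0, q⟩ := hp z
    obtain ⟨W', Q', f₁, f₂, c', hf⟩ := hC.glue _ Q₁ _ Q c₁ hQ (p₁ (e c z)) (p z)
    let p' : N → W' := fun x => if hx : ∃ u, e c u = x then f₂ (p hx.choose) else f₁ (p₁ x)
    let rk' : N → ℕ := fun x =>
      if hx : ∃ u, u ≠ z ∧ e c u = x then rk₁ (e c z) + 1 + rk hx.choose else rk₁ x
    have a1 : ∀ u, p' (e c u) = f₂ (p u) := fun u => by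
      have hx : ∃ u', e c u' = e c u := ⟨u, rfl⟩
      simp only [p', dif_pos hx, h.inj c hx.choose_spec]
    have a2 : ∀ x, (¬ ∃ u, u ≠ z ∧ e c u = x) → p' x = f₁ (p₁ x) := fun x hx => by
      by_cases hx' : x = e c z
      · rw [hx', a1, hf]
      · refine dif_neg fun ⟨u, hu⟩ => hx ⟨u, fun huz => hx' (by rw [← hu, huz]), hu⟩
    have a3 : ∀ u, u ≠ z → rk' (e c u) = rk₁ (e c z) + 1 + rk u := fun u hu => by
      have hx : ∃ u', u' ≠ z ∧ e c u' = e c u := ⟨u, hu, rfl⟩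
      simp only [rk', dif_pos hx, h.inj c hx.choose_spec.2]
    have a4 : ∀ x, (¬ ∃ u, u ≠ z ∧ e c u = x) → rk' x = rk₁ x := fun x hx => dif_neg hx
    have old : ∀ x y, Fill H e (F.erase c) x y → ¬ ∃ u, u ≠ z ∧ e c u = x := by
      rintro x y ⟨d, hd, a, b, -, r, -⟩ ⟨u, u1, u2⟩
      exact u1 (hz d hd u a (u2.trans r.symm))
    have split : ∀ x y, Fill H e F x y → Fill H e (F.erase c) x y ∨
        ∃ a b, H.Adj a b ∧ e c a = x ∧ e c b = y := by
      rintro x y ⟨d, hd, r⟩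
      by_cases hdc : d = c
      · exact Or.inr (hdc ▸ r)
      · exact Or.inl ⟨d, mem_erase.mpr ⟨hdc, hd⟩, r⟩
    refine ⟨W', Q', p', rk', c', fun x y hxy => ?_, fun x => ?_⟩
    · rcases split x y hxy with r | ⟨a, b, r, rfl, rfl⟩
      · rw [a2 x (old _ _ r), a2 y (old _ _ r.symm)]
        exact (q₁.hom x y r).imp (congrArg f₁) f₁.map_adj
      · rw [a1, a1]
        exact (q.hom a b r).imp (congrArg f₂) f₂.map_adj
    by_cases hx : ∃ u, u ≠ z ∧ e c u = x
    · obtain ⟨u, u1, rfl⟩ := hx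
      obtain ⟨w, hw⟩ := q.ord u
      refine ⟨e c w, fun y hy h1 h2 => ?_⟩
      rcases split _ y hy with r | ⟨a, b, r, r1, rfl⟩
      · exact absurd ⟨u, u1, rfl⟩ (old _ _ r)
      obtain rfl := h.inj c r1
      rw [a1, a1] at h1
      refine congrArg (e c) (hw b r ((q.hom a b r).elim Eq.symm fun hq =>
        absurd h1.symm (f₂.map_adj hq).ne) ?_)
      by_cases hb : b = z
      · rw [hb, r0]
        exact Nat.zero_le _
      · rw [a3 b hb, a3 a u1] at h2
        omega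
    · obtain ⟨w, hw⟩ := q₁.ord x
      refine ⟨w, fun y hy h1 h2 => ?_⟩
      rcases split _ y hy with r | ⟨a, b, r, rfl, rfl⟩
      · rw [a2 x hx, a2 y (old _ _ r.symm)] at h1
        rw [a4 x hx, a4 y (old _ _ r.symm)] at h2
        exact hw y r ((q₁.hom x y r).elim Eq.symm fun hq => absurd h1.symm (f₁.map_adj hq).ne) h2
      · obtain rfl : a = z := by
          by_contra ha
          exact hx ⟨a, ha, rfl⟩
        rw [a4 _ hx, a3 b r.ne'] at h2
        omega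

end Pool.Agent.Lib.MP_781e3b_co.H92
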