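import Pool.Agent.Lib.MP_781e3b_co.H92Loc

/-!
Two-connected graphs with a forest quotient in a class that receives no homomorphism from them.
-/

set_option linter.unusedVariables false
set_option linter.unusedSectionVars false

namespace Pool.Agent.Lib.MP_781e3b_co.H92

open Finset Classical

variable {V W X : Type}

theorem fq_of_acyclic {H : SimpleGraph V} {Q : SimpleGraph W} {p : V → W}
    (h1 : ∀ u v, H.Adj u v → p u = p v ∨ Q.Adj (p u) (p v))
    (h2 : ∀ i, (H.induce {v | p v = i}).IsAcyclic) (z : V) :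
    ∃ rk, rk z = 0 ∧ FQ H.Adj Q p rk := by
  let T : SimpleGraph V :=
    { Adj := fun u v => H.Adj u v ∧ p u = p v
      symm := ⟨fun u v h => ⟨h.1.symm, h.2.symm⟩⟩
      loopless := ⟨fun u h => H.irrefl h.1⟩ }
  have hT : T.IsAcyclic := by
    intro v c hc
    have a : ∀ x y (w : T.Walk x y), ∀ u ∈ w.support, p u = p x := by
      intro x y w
      induction w with
      | nil => simp
      | cons h w ih =>
        intro u hu
        rcases List.mem_cons.mp (SimpleGraph.Walk.support_cons _ _ ▸ hu) with rfl | hu'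
        · rfl
        · exact (ih u hu').trans h.2.symm
    have b : (T.induce {u | p u = p v}).IsAcyclic := (h2 (p v)).anti fun x y h => h.1
    refine b (c.induce {u | p u = p v} (a v v c)) ?_
    rw [← SimpleGraph.Walk.isCycle_map_iff_of_injective
      (f := (SimpleGraph.Embedding.induce (G := T) {u | p u = p v}).toHom) Subtype.val_injective,
      SimpleGraph.Walk.map_induce]
    exact hc
  have : Nonempty V := ⟨z⟩
  obtain ⟨T', t1, -, t2⟩ :=
    SimpleGraph.connected_top.exists_isTree_le_of_le_of_isAcyclic le_top hT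
  obtain ⟨par, dep, r⟩ := tr_of_isTree t2 z
  refine ⟨dep, r.root, h1, fun v => ⟨par v, fun u k1 k2 k3 => ?_⟩⟩
  rcases r.of_adj v u (t1 ⟨k1, k2.symm⟩) with h | h
  · exact h.2.symm
  · have := r.dep u h.1
    rw [h.2] at this
    omega

theorem iso_of_emb [Fintype V] [Fintype W] {H₁ : SimpleGraph V} {H₂ : SimpleGraph W}
    (h1 : Emb H₁ H₂.Adj) (h2 : Emb H₂ H₁.Adj) : Nonempty (H₁ ≃g H₂) := by
  obtain ⟨f, f1, f2⟩ := h1
  obtain ⟨g, g1, g2⟩ := h2
  let σ : Equiv.Perm V := Equiv.ofBijective (g ∘ f) (Finite.injective_iff_bijective.mp (g1.comp f1))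
  have a : ∀ n : ℕ, ∀ u v, H₁.Adj u v → H₁.Adj ((σ ^ n) u) ((σ ^ n) v) := by
    intro n
    induction n with
    | zero => exact fun u v h => h
    | succ n ih =>
      intro u v h
      rw [pow_succ, Equiv.Perm.mul_apply, Equiv.Perm.mul_apply]
      exact ih _ _ (g2 _ _ (f2 _ _ h))
  have b : Function.Bijective f := (Fintype.bijective_iff_injective_and_card f).mpr
    ⟨f1, (Fintype.card_le_of_injective f f1).antisymm (Fintype.card_le_of_injective g g1)⟩
  refine ⟨⟨Equiv.ofBijective f b, fun {u v} => ⟨fun h => ?_, f2 u v⟩⟩⟩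
  have := a (orderOf σ - 1) (σ u) (σ v) (g2 _ _ h)
  rwa [← Equiv.Perm.mul_apply, ← Equiv.Perm.mul_apply, ← pow_succ,
    Nat.sub_add_cancel (orderOf_pos σ), pow_orderOf_eq_one] at this

theorem cls_main {C : ∀ W : Type, SimpleGraph W → Prop} (hC : Cls C) [Fintype V] [Fintype X]
    {H₁ : SimpleGraph V} {H₂ : SimpleGraph X} (h2 : Two H₁) {Q : SimpleGraph W} (hQ : C W Q)
    {p : V → W} (hp : ∀ z, ∃ rk, rk z = 0 ∧ FQ H₁.Adj Q p rk)
    (hn : ∀ Z K, C Z K → IsEmpty (H₁ →g K)) (h : RamseyEquiv H₁ H₂ 2) :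
    Emb H₁ H₂.Adj ∧ (Two H₂ → Emb H₂ H₁.Adj) := by
  have : Nonempty V := Fintype.card_pos_iff.mp (by have := h2.1; omega)
  obtain ⟨Z, _, K, k1, k2⟩ := hC.ram _ Q hQ
  obtain ⟨rk, -, q⟩ := hp (Classical.arbitrary V)
  obtain ⟨U, E, _, _, e, G, s1, s2, s3⟩ := host q k2 (Fintype.card (X × X))
  have s4 := s3 X H₂ (h.imp s2)
  have : Nonempty X := by
    by_contra hX
    obtain ⟨i, f, -⟩ := h.symm.imp (G := (⊥ : SimpleGraph Empty)) (fun c _ =>
      ⟨0, fun x => absurd ⟨x⟩ hX, fun x => absurd ⟨x⟩ hX, fun x => absurd ⟨x⟩ hX⟩)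
      (fun _ _ => 0) fun _ _ => rfl
    exact (f (Classical.arbitrary V)).elim
  obtain ⟨W', Q', p', rk', c', q'⟩ : ∃ (W' : Type) (Q' : SimpleGraph W') (p' : X → W')
      (rk : X → ℕ), C W' Q' ∧ FQ H₂.Adj Q' p' rk := by
    rcases s4 with s4 | ⟨f, hf⟩
    · obtain ⟨F, f1, f2⟩ := Fill.small s4
      obtain ⟨W', Q', p', rk', c', q'⟩ := hC.fill hQ hp s1 F (by omega)
      obtain ⟨p'', rk'', q''⟩ := q'.comap f2
      exact ⟨W', Q', p'', rk'', c', q''⟩
    · exact ⟨Z, K, f, fun _ => 0, k1, fun u v huv => Or.inr (hf u v huv),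
        fun v => ⟨v, fun u huv e _ => absurd e.symm (hf _ _ huv).ne⟩⟩
  obtain ⟨Z', _, K', k1', k2'⟩ := hC.ram _ Q' c'
  obtain ⟨U', E', _, _, e', G', r1, r2, r3⟩ := host q' k2' (Fintype.card (V × V))
  have main : Emb H₁ H₂.Adj := by
    rcases r3 V H₁ (h.symm.imp r2) with r4 | ⟨f, hf⟩
    · obtain ⟨F, f1, f2⟩ := Fill.small r4
      exact h2.emb r1 F (by omega) f2
    · exact ((hn _ K' k1').false ⟨f, fun {u v} => hf u v⟩).elim
  refine ⟨main, fun h2' => ?_⟩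
  rcases s4 with s4 | ⟨f, hf⟩
  · obtain ⟨F, f1, f2⟩ := Fill.small s4
    exact h2'.emb s1 F (by omega) f2
  · obtain ⟨g, -, g2⟩ := main
    exact ((hn _ K k1).false ⟨f ∘ g, fun {u v} h => hf _ _ (g2 u v h)⟩).elim

theorem contained_of_emb {H₁ : SimpleGraph V} {H₂ : SimpleGraph X} (h : Emb H₁ H₂.Adj) :
    H₁.IsContained H₂ :=
  let ⟨f, f1, f2⟩ := h
  ⟨⟨⟨f, fun {u v} => f2 u v⟩, f1⟩⟩

theorem Two.edge [Fintype V] {H : SimpleGraph V} (h : Two H) {Q : SimpleGraph W} {p : V → W}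
    {rk : V → ℕ} (q : FQ H.Adj Q p rk) : ∃ a b, Q.Adj a b := by
  by_contra hc
  have : Nonempty V := Fintype.card_pos_iff.mp (by have := h.1; omega)
  obtain ⟨v, -, hv⟩ := exists_max_image univ rk univ_nonempty
  obtain ⟨w, hw⟩ := q.ord v
  have k : ∀ u, H.Adj v u → u = w := fun u hu => hw u hu
    ((q.hom v u hu).resolve_right fun e => hc ⟨_, _, e⟩).symm (hv u (mem_univ _))
  obtain ⟨y, hy⟩ := h.nbr v
  obtain rfl := k y hy
  obtain ⟨z, -, hz⟩ := exists_mem_notMem_of_card_lt_card (s := {v, y}) (t := univ)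
    (by have := h.1; rw [card_univ]; exact card_le_two.trans_lt (by omega))
  simp only [mem_insert, mem_singleton, not_or] at hz
  exact hz.1 (closed_of_conn (A := {v}) (h.2 y) (x := v) hy.ne rfl
    (fun a _ b hb hab ha => absurd (k b (ha ▸ hab)) hb) z hz.2)

theorem glue_main {C : ∀ n : ℕ, SimpleGraph (Fin n) → Prop} (hC : EG C) [Fintype V] [Fintype X]
    {H₁ : SimpleGraph V} {H₂ : SimpleGraph X} (h2 : Two H₁) {m : ℕ} {Q : SimpleGraph (Fin m)}
    (hQ : C m Q) {p : V → Fin m} (hp : ∀ u v, H₁.Adj u v → p u = p v ∨ Q.Adj (p u) (p v))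
    (hf : ∀ i, (H₁.induce {v | p v = i}).IsAcyclic) (hn : ∀ n G, C n G → IsEmpty (H₁ →g G))
    (h : RamseyEquiv H₁ H₂ 2) : Emb H₁ H₂.Adj ∧ (Two H₂ → Emb H₂ H₁.Adj) := by
  obtain ⟨z⟩ : Nonempty V := Fintype.card_pos_iff.mp (by have := h2.1; omega)
  obtain ⟨rk, -, q⟩ := fq_of_acyclic hp hf z
  refine cls_main (cls_loc hC ⟨m, Q, hQ, h2.edge q⟩ (Fintype.card V)) h2
    ⟨inferInstance, fun S _ => ⟨m, Q, id, hQ, fun u _ v _ => id⟩⟩ (fq_of_acyclic hp hf)
    (fun Z K hK => ⟨fun f => ?_⟩) h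
  obtain ⟨n, G, g, g1, g2⟩ := hK.2.comap f univ (by simp)
  exact (hn n G g1).false ⟨g, fun {u v} => g2 u (mem_univ _) v (mem_univ _)⟩

end Pool.Agent.Lib.MP_781e3b_co.H92
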