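import Pool.Agent.Lib.MP_781e3b_co.H92Main

/-!
A second host: a blow-up whose parts hold either disjoint copies of `H` or a Ramsey graph for `H`
minus an independent set. It settles connected graphs with an induced matching quotient.
-/

set_option linter.unusedVariables false
set_option linter.unusedSectionVars false

namespace Pool.Agent.Lib.MP_781e3b_co.H92

open Finset Classical

variable {V W X E N : Type}

theorem layers2 (V Γ : Type) [Fintype V] [Fintype Γ] [Nonempty Γ] (g : ℕ) (S : Finset W) :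
    ∀ (T : Type) [Fintype T] [Nonempty T], ∃ (U E : Type) (_ : Fintype U) (_ : Fintype E)
      (π : U → W) (e : E → V → U), Sparse g e ∧ (∀ c j j', π (e c j) = π (e c j')) ∧
      (∀ x, π x ∈ S) ∧ ∀ (c : U → U → Γ) (t : U → T),
        ∃ P : W → Set U, (∀ i ∈ S, (∃ d, ∀ j, e d j ∈ P i) ∧ (∀ x ∈ P i, π x = i) ∧
          ∀ x ∈ P i, ∀ x' ∈ P i, t x = t x') ∧ ∀ i ∈ S, ∀ j ∈ S, i ≠ j → ∀ x ∈ P i, ∀ x' ∈ P i,
            ∀ y ∈ P j, ∀ y' ∈ P j, c x y = c x' y' := by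
  induction S using Finset.induction_on with
  | empty =>
    intro T _ _
    exact ⟨Empty, Empty, inferInstance, inferInstance, Empty.elim, Empty.elim,
      fun I F _ ⟨c, _⟩ => c.elim, fun c => c.elim, fun x => x.elim,
      fun _ _ => ⟨fun _ => ∅, by simp, by simp⟩⟩
  | insert a S ha ih =>
    intro T _ _
    obtain ⟨U, E, _, _, π, e, h1, h2, h3, h4⟩ := ih (T × Γ × Γ)
    obtain ⟨M, D, _, _, d, k1, k2⟩ := hg (T × (U → Γ × Γ)) g V
    refine ⟨U ⊕ M, E ⊕ D, inferInstance, inferInstance, Sum.elim π fun _ => a, _, h1.sum k1,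
      ?_, ?_, fun c t => ?_⟩
    · rintro (c | c) j j'
      · exact h2 c j j'
      · rfl
    · rintro (x | x)
      · exact mem_insert_of_mem (h3 x)
      · exact mem_insert_self _ _
    obtain ⟨d₀, τ, hτ⟩ := k2 fun y =>
      (t (Sum.inr y), fun x => (c (Sum.inl x) (Sum.inr y), c (Sum.inr y) (Sum.inl x)))
    obtain ⟨P, p1, p2⟩ := h4 (fun x y => c (Sum.inl x) (Sum.inl y))
      fun x => (t (Sum.inl x), τ.2 x)
    set A := {y | (t (Sum.inr y), fun x =>
      (c (Sum.inl x) (Sum.inr y), c (Sum.inr y) (Sum.inl x))) = τ} with hA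
    let P' : W → Set (U ⊕ M) := fun i => if i = a then Sum.inr '' A else Sum.inl '' P i
    have e1 : P' a = Sum.inr '' A := if_pos rfl
    have e2 : ∀ i ∈ S, P' i = Sum.inl '' P i := fun i hi => if_neg fun (h : i = a) => ha (h ▸ hi)
    have cross : ∀ i ∈ S, ∀ x ∈ P' i, ∀ x' ∈ P' i, ∀ y ∈ P' a, ∀ y' ∈ P' a,
        (c x y, c y x) = (c x' y', c y' x') := by
      intro i hi
      rw [e1, e2 i hi]
      rintro _ ⟨x, hx, rfl⟩ _ ⟨x', hx', rfl⟩ _ ⟨y, hy, rfl⟩ _ ⟨y', hy', rfl⟩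
      have b1 := congrFun (congrArg Prod.snd hy) x
      have b2 := congrFun (congrArg Prod.snd hy') x'
      have b3 := congrArg Prod.snd ((p1 i hi).2.2 x hx x' hx')
      exact b1.trans (b3.trans b2.symm)
    refine ⟨P', fun i hi => ?_, fun i hi j hj hij => ?_⟩
    · rcases mem_insert.mp hi with rfl | hi
      · rw [e1]
        refine ⟨⟨Sum.inr d₀, fun j => ⟨_, hτ j, rfl⟩⟩, ?_, ?_⟩
        · rintro _ ⟨y, -, rfl⟩
          rfl
        · rintro _ ⟨y, hy, rfl⟩ _ ⟨y', hy', rfl⟩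
          exact (congrArg Prod.fst hy).trans (congrArg Prod.fst hy').symm
      · rw [e2 i hi]
        obtain ⟨d₁, hd⟩ := (p1 i hi).1
        refine ⟨⟨Sum.inl d₁, fun j => ⟨_, hd j, rfl⟩⟩, ?_, ?_⟩
        · rintro _ ⟨y, hy, rfl⟩
          exact (p1 i hi).2.1 y hy
        · rintro _ ⟨y, hy, rfl⟩ _ ⟨y', hy', rfl⟩
          exact congrArg Prod.fst ((p1 i hi).2.2 y hy y' hy')
    · rcases mem_insert.mp hi with rfl | hi' <;> rcases mem_insert.mp hj with rfl | hj'
      · exact absurd rfl hij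
      · exact fun x hx x' hx' y hy y' hy' => congrArg Prod.snd (cross j hj' y hy y' hy' x hx x' hx')
      · exact fun x hx x' hx' y hy y' hy' => congrArg Prod.fst (cross i hi' x hx x' hx' y hy y' hy')
      · rw [e2 i hi', e2 j hj']
        rintro _ ⟨x, hx, rfl⟩ _ ⟨x', hx', rfl⟩ _ ⟨y, hy, rfl⟩ _ ⟨y', hy', rfl⟩
        exact p2 i hi' j hj' hij x hx x' hx' y hy y' hy'

/-- A blow-up turns homomorphic images into copies. -/
theorem blow [Fintype V] {Q : SimpleGraph V} {Z : Type} [Fintype Z] {K : SimpleGraph Z}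
    (hK : HArr K Q) : ∃ (U : Type) (_ : Fintype U) (π : U → Z), Arrows (K.comap π) Q 2 := by
  obtain ⟨U, E, _, _, π, e, h1, -, -, h4⟩ := layers2 V (Fin 2) 1 (univ : Finset Z) Unit
  refine ⟨U, inferInstance, π, fun c hc => ?_⟩
  obtain ⟨P, p1, p2⟩ := h4 c fun _ => ()
  choose d hd using fun z => (p1 z (mem_univ _)).1
  have hπ : ∀ z j, π (e (d z) j) = z := fun z j => (p1 z (mem_univ _)).2.1 _ (hd z j)
  rcases isEmpty_or_nonempty V with _ | ⟨⟨v⟩⟩
  · exact ⟨0, isEmptyElim, isEmptyElim, isEmptyElim⟩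
  obtain ⟨i, f, hf⟩ := hK (fun a b => c (e (d a) v) (e (d b) v)) fun a b => hc _ _
  refine ⟨i, fun u => e (d (f u)) u, fun u u' h => ?_, fun u u' h => ⟨?_, ?_⟩⟩
  · have : f u = f u' := by rw [← hπ (f u) u, ← hπ (f u') u']; exact congrArg π h
    simp only [this] at h
    exact h1.inj _ h
  · show K.Adj (π _) (π _)
    rw [hπ, hπ]
    exact (hf u u' h).1
  · exact (p2 _ (mem_univ _) _ (mem_univ _) (hf u u' h).1.ne _ (hd _ _) _ (hd _ _) _ (hd _ _) _
      (hd _ _)).trans (hf u u' h).2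

/-- A map to `Q` whose collapsed edges form an induced matching. -/
structure MQ (H : SimpleGraph V) (Q : SimpleGraph W) (p : V → W) : Prop where
  hom : ∀ u v, H.Adj u v → p u = p v ∨ Q.Adj (p u) (p v)
  ind : ∀ u v u' v', H.Adj u v → p u = p v → H.Adj u' v' → p u' = p v' → H.Adj u u' → u' = v

theorem MQ.rep [Fintype V] {H : SimpleGraph V} {Q : SimpleGraph W} {p : V → W} (h : MQ H Q p) :
    ∃ (A : V → Prop) (r : V → V), (∀ v, p (r v) = p v) ∧
      (∀ u v, H.Adj u v → (A u ∧ A v ∧ r u = r v ∧ (r u = u ∨ r u = v)) ∨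
        (Q.Adj (p u) (p v) ∧ ¬ (A u ∧ A v))) ∧
      ∀ u v, A u → A v → r u = r v → (r u = u ↔ r v = v) → u = v := by
  have : ∀ v, ∃ w, p w = p v ∧ ((∃ w, H.Adj v w ∧ p v = p w) → H.Adj v w) := fun v => by
    by_cases hv : ∃ w, H.Adj v w ∧ p v = p w
    · exact ⟨hv.choose, hv.choose_spec.2.symm, fun _ => hv.choose_spec.1⟩
    · exact ⟨v, rfl, fun h => absurd h hv⟩
  choose m m1 m2 using this
  have m3 : ∀ u v, H.Adj u v → p u = p v → m u = v := fun u v h1 h2 =>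
    h.ind u v (m u) u h1 h2 (m2 u ⟨v, h1, h2⟩).symm (m1 u) (m2 u ⟨v, h1, h2⟩)
  let o := Fintype.equivFin V
  let r : V → V := fun v => if o v ≤ o (m v) then v else m v
  have r1 : ∀ v, r v = v ∨ r v = m v := fun v => by
    by_cases hv : o v ≤ o (m v)
    · exact Or.inl (if_pos hv)
    · exact Or.inr (if_neg hv)
  refine ⟨fun v => ∃ w, H.Adj v w ∧ p v = p w, r, fun v => ?_, fun u v huv => ?_,
    fun u v hu hv h1 h2 => ?_⟩
  · rcases r1 v with e | e <;> rw [e]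
    exact m1 v
  · by_cases e : p u = p v
    · have a := m3 u v huv e
      have b := m3 v u huv.symm e.symm
      refine Or.inl ⟨⟨v, huv, e⟩, ⟨u, huv.symm, e.symm⟩, ?_, a ▸ r1 u⟩
      simp only [r, a, b]
      by_cases d : o u ≤ o v
      · rw [if_pos d, if_neg fun d' => huv.ne (o.injective (d.antisymm d'))]
      · rw [if_neg d, if_pos (not_le.mp d).le]
    · exact Or.inr ⟨(h.hom u v huv).resolve_left e, fun ⟨⟨a, a1, a2⟩, ⟨b, b1, b2⟩⟩ =>
        e (h.ind u a v b a1 a2 b1 b2 huv ▸ a2)⟩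
  · by_cases e : r u = u
    · rw [← e, h1, h2.mp e]
    · have a := (r1 u).resolve_left e
      have b := (r1 v).resolve_left fun d => e (h2.mpr d)
      rw [← m3 _ _ (m2 u hu).symm (m1 u), ← m3 _ _ (m2 v hv).symm (m1 v), ← a, ← b, h1]

theorem host2 [Fintype V] [Nonempty V] {H : SimpleGraph V} {Q : SimpleGraph W} {p : V → W}
    (h : MQ H Q p) {Z : Type} [Fintype Z] {K : SimpleGraph Z} (hK : HArr K Q) {V₀ : Type}
    [Fintype V₀] {L : SimpleGraph V₀}
    (hL : Arrows L (Q.comap p) 2) (g : ℕ) :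
    ∃ (U E : Type) (_ : Fintype U) (_ : Fintype E) (e : E → V₀ → U) (b : U → Prop)
      (G : SimpleGraph (U × V)), Sparse (g + 1) e ∧ Arrows G H 2 ∧
      ∀ (X : Type) (Y : SimpleGraph X), Arrows G Y 2 →
        (∃ f : X → U × V, Function.Injective f ∧ ∀ u v, Y.Adj u v →
          (b (f u).1 ∧ (f u).1 = (f v).1 ∧ H.Adj (f u).2 (f v).2) ∨
            (¬ b (f u).1 ∧ ¬ b (f v).1 ∧ Fill L e univ (f u).1 (f v).1)) ∨
        ∃ f : X → Z, ∀ u v, Y.Adj u v → K.Adj (f u) (f v) := by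
  obtain ⟨U, E, _, _, π, e, h1, h2, -, h4⟩ :=
    layers2 V₀ (V → V → Fin 2) (g + 1) (univ : Finset (Z × Bool)) Unit
  have irr : ∀ x, ¬ Fill L e univ x x := fun x ⟨c, _, u, v, k1, k2, k3⟩ =>
    k1.ne (h1.inj c (k2.trans k3.symm))
  have same : ∀ x y, Fill L e univ x y → π x = π y := by
    rintro _ _ ⟨d, -, a, b, -, rfl, rfl⟩
    exact h2 d a b
  let G : SimpleGraph (U × V) :=
    { Adj := fun x y => (((π x.1).2 = true ∧ x.1 = y.1 ∧ H.Adj x.2 y.2) ∨
        (¬ (π x.1).2 = true ∧ ¬ (π y.1).2 = true ∧ Fill L e univ x.1 y.1)) ∨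
          K.Adj (π x.1).1 (π y.1).1
      symm := ⟨fun x y h => h.imp (fun h => h.imp
        (fun h => ⟨by rw [← h.2.1]; exact h.1, h.2.1.symm, h.2.2.symm⟩)
        fun h => ⟨h.2.1, h.1, h.2.2.symm⟩) fun h => h.symm⟩
      loopless := ⟨fun x h => h.elim (fun h => h.elim (fun h => H.irrefl h.2.2)
        fun h => irr _ h.2.2) K.irrefl⟩ }
  refine ⟨U, E, inferInstance, inferInstance, e, fun x => (π x).2 = true, G, h1, fun c hc => ?_,
    fun X Y hY => ?_⟩
  swap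
  · obtain ⟨i, f, f1, f2⟩ := hY (fun x y => if π x.1 = π y.1 then 0 else 1) fun x y => by
      simp only [eq_comm]
    by_cases hi : i = 0
    · refine Or.inl ⟨f, f1, fun u v huv => (f2 u v huv).1.resolve_right fun hk => ?_⟩
      have := (f2 u v huv).2
      rw [if_neg fun e => hk.ne (congrArg Prod.fst e), hi] at this
      exact absurd this (by decide)
    · refine Or.inr ⟨fun x => (π (f x).1).1, fun u v huv => (f2 u v huv).1.resolve_left fun r => ?_⟩
      have := (f2 u v huv).2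
      rw [if_pos (r.elim (fun r => congrArg π r.2.1) fun r => same _ _ r.2.2)] at this
      exact hi this.symm
  by_contra hcon
  obtain ⟨A, r, r1, r2, r3⟩ := h.rep
  obtain ⟨P, p1, p2⟩ := h4 (fun x y u v => c (x, u) (y, v)) fun _ => ()
  choose d hd using fun z => (p1 z (mem_univ _)).1
  have hπ : ∀ z j, π (e (d z) j) = z := fun z j => (p1 z (mem_univ _)).2.1 _ (hd z j)
  have inj : ∀ z z' j j', e (d z) j = e (d z') j' → z = z' ∧ j = j' := fun z z' j j' h => by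
    obtain rfl : z = z' := by rw [← hπ z j, h, hπ]
    exact ⟨rfl, h1.inj _ h⟩
  obtain ⟨u₀⟩ := ‹Nonempty V›
  let Q₀ : SimpleGraph V :=
    { Adj := fun u v => H.Adj u v ∧ ¬ (A u ∧ r u = u) ∧ ¬ (A v ∧ r v = v)
      symm := ⟨fun u v h => ⟨h.1.symm, h.2.2, h.2.1⟩⟩
      loopless := ⟨fun u h => H.irrefl h.1⟩ }
  have q0 : Arrows L Q₀ 2 := fun c hc =>
    let ⟨i, f, f1, f2⟩ := hL c hc
    ⟨i, f, f1, fun u v huv => f2 u v ((r2 u v huv.1).resolve_left fun k =>
      k.2.2.2.elim (fun a => huv.2.1 ⟨k.1, a⟩) fun a => huv.2.2 ⟨k.2.1, k.2.2.1 ▸ a⟩).1⟩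
  choose l ι ι1 ι2 using fun k : Z => q0
    (fun a b => c (e (d (k, false)) a, u₀) (e (d (k, false)) b, u₀)) fun a b => hc _ _
  have cr : ∀ (k : Z) (z : Z × Bool), K.Adj k z.1 → ∀ a b w,
      G.Adj (e (d (k, false)) a, u₀) (e (d z) b, w) ∧
        c (e (d (k, false)) a, u₀) (e (d z) b, w) ≠ l k := by
    intro k z hk
    have adj : ∀ a b w, G.Adj (e (d (k, false)) a, u₀) (e (d z) b, w) := fun a b w =>
      Or.inr (by simpa only [hπ] using hk)
    refine fun a b w => ⟨adj a b w, fun hl => ?_⟩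
    have ne : (k, false) ≠ z := fun e => hk.ne (congrArg Prod.fst e)
    have col : ∀ a' b', c (e (d (k, false)) a', u₀) (e (d z) b', w) = l k := fun a' b' =>
      (congrFun (congrFun (p2 _ (mem_univ _) _ (mem_univ _) ne _ (hd _ a') _ (hd _ a) _ (hd _ b') _
        (hd _ b)) u₀) w).trans hl
    refine hcon ⟨l k, fun v => if A v ∧ r v = v then (e (d z) (ι k v), w)
      else (e (d (k, false)) (ι k v), u₀), fun u v huv => ?_, fun u v huv => ?_⟩
    · refine ι1 k ?_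
      by_cases hu : A u ∧ r u = u <;> by_cases hv : A v ∧ r v = v <;>
        simp only [hu, hv, and_self, if_true, if_false] at huv <;>
        exact (inj _ _ _ _ (congrArg Prod.fst huv)).2
    · by_cases hu : A u ∧ r u = u <;> by_cases hv : A v ∧ r v = v
      · exact (r2 u v huv).elim (fun k => absurd (hu.2.symm.trans (k.2.2.1.trans hv.2)) huv.ne)
          fun k => absurd ⟨hu.1, hv.1⟩ k.2
      · simp only [if_pos hu, if_neg hv]
        exact ⟨(adj _ _ _).symm, (hc _ _).trans (col _ _)⟩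
      · simp only [if_neg hu, if_pos hv]
        exact ⟨adj _ _ _, col _ _⟩
      · simp only [if_neg hu, if_neg hv]
        have := ι2 k u v ⟨huv, hu, hv⟩
        exact ⟨Or.inl (Or.inr ⟨by simp [hπ], by simp [hπ], _, mem_univ _, _, _, this.1, rfl, rfl⟩),
          this.2⟩
  obtain ⟨i, f, hf⟩ := hK (fun a b => c (e (d (a, false)) (ι a u₀), u₀)
    (e (d (b, false)) (ι b u₀), u₀)) fun a b => hc _ _
  have two : ∀ i s t : Fin 2, i ≠ t → s ≠ t → s = i := by decide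
  have cr2 : ∀ a a', Q.Adj a a' → ∀ β x y w, G.Adj (e (d (f a, false)) x, u₀) (e (d (f a', β)) y, w) ∧
      c (e (d (f a, false)) x, u₀) (e (d (f a', β)) y, w) = i := fun a a' h β x y w =>
    ⟨(cr _ (f a', β) (hf a a' h).1 x y w).1, two _ _ _
      ((hf a a' h).2 ▸ (cr _ (f a', false) (hf a a' h).1 _ _ u₀).2)
      (cr _ (f a', β) (hf a a' h).1 x y w).2⟩
  have inner : ∀ y : U, ∃ a b, (π y).2 = true → H.Adj a b ∧ c (y, a) (y, b) = i := by
    intro y
    by_contra hn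
    push Not at hn
    refine hcon ⟨i + 1, fun v => (y, v), fun u v h => congrArg Prod.snd h, fun u v huv =>
      ⟨Or.inl (Or.inl ⟨(hn u v).1, rfl, huv⟩), ?_⟩⟩
    have : ∀ i s : Fin 2, s ≠ i → s = i + 1 := by decide
    exact this _ _ ((hn u v).2 huv)
  choose α β hαβ using inner
  let j : V → V₀ := ι (f (p u₀))
  let y : V → U := fun v => e (d (f (p v), true)) (j (r v))
  have y1 : ∀ v, H.Adj (α (y v)) (β (y v)) ∧ c (y v, α (y v)) (y v, β (y v)) = i := fun v =>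
    hαβ _ (by simp only [y, hπ])
  have y2 : ∀ u v, r u = r v → y u = y v := fun u v h => by
    simp only [y, ← r1 u, ← r1 v, h]
  let φ : V → U × V := fun v => if A v then (y v, if r v = v then α (y v) else β (y v))
    else (e (d (f (p v), false)) (j v), u₀)
  have half : ∀ u v, Q.Adj (p u) (p v) → ¬ A u → G.Adj (φ u) (φ v) ∧ c (φ u) (φ v) = i := by
    intro u v h1 h2
    by_cases hv : A v
    · simp only [φ, if_neg h2, if_pos hv]
      exact cr2 _ _ h1 _ _ _ _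
    · simp only [φ, if_neg h2, if_neg hv]
      exact cr2 _ _ h1 _ _ _ _
  refine hcon ⟨i, φ, fun u v huv => ?_, fun u v huv => ?_⟩
  · by_cases hu : A u <;> by_cases hv : A v <;> simp only [φ, hu, hv, if_true, if_false] at huv
    · have e1 : r u = r v := ι1 _ (inj _ _ _ _ (congrArg Prod.fst huv)).2
      have e2 := congrArg Prod.snd huv
      rw [y2 u v e1] at e2
      refine r3 u v hu hv e1 ?_
      by_cases a : r u = u <;> by_cases b : r v = v <;> simp only [a, b, if_true, if_false] at e2 ⊢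
      · exact absurd e2 (y1 v).1.ne
      · exact absurd e2 (y1 v).1.ne'
    · exact absurd (congrArg Prod.snd (inj _ _ _ _ (congrArg Prod.fst huv)).1) (by simp)
    · exact absurd (congrArg Prod.snd (inj _ _ _ _ (congrArg Prod.fst huv)).1) (by simp)
    · exact ι1 _ (inj _ _ _ _ (congrArg Prod.fst huv)).2
  rcases r2 u v huv with ⟨a1, a2, a3, a4⟩ | ⟨a1, a2⟩
  · have b : (π (y v)).2 = true := by simp only [y, hπ]
    simp only [φ, if_pos a1, if_pos a2, y2 u v a3]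
    rcases a4 with a4 | a4
    · rw [if_pos a4, if_neg fun e => huv.ne (a4.symm.trans (a3.trans e))]
      exact ⟨Or.inl (Or.inl ⟨b, rfl, (y1 v).1⟩), (y1 v).2⟩
    · rw [if_neg fun e => huv.ne (e.symm.trans a4), if_pos (a3.symm.trans a4)]
      exact ⟨Or.inl (Or.inl ⟨b, rfl, (y1 v).1.symm⟩), (hc _ _).trans (y1 v).2⟩
  · by_cases hu : A u
    · have := half v u a1.symm fun hv => a2 ⟨hu, hv⟩
      exact ⟨this.1.symm, (hc _ _).trans this.2⟩
    · exact half u v a1 hu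

theorem Cls.fillHom {C : ∀ W : Type, SimpleGraph W → Prop} (hC : Cls C) [Fintype V] [Nonempty V]
    {H : SimpleGraph V} (hH : C V H) {g : ℕ} {e : E → V → N} (h : Sparse (g + 1) e)
    (F : Finset E) : F.card ≤ g + 1 → ∃ (W' : Type) (Q' : SimpleGraph W') (p' : N → W'),
      C W' Q' ∧ ∀ x y, Fill H e F x y → Q'.Adj (p' x) (p' y) := by
  induction F using Finset.strongInduction with
  | H F ih =>
    intro hF
    rcases F.eq_empty_or_nonempty with rfl | hne
    · exact ⟨V, H, fun _ => Classical.arbitrary V, hH,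
        fun u v ⟨c, hc, _⟩ => absurd hc (notMem_empty _)⟩
    obtain ⟨c, hc, z, hz⟩ := h.leaf hne hF
    obtain ⟨W₁, Q₁, p₁, c₁, q₁⟩ := ih _ (erase_ssubset hc) (card_erase_le.trans hF)
    obtain ⟨W', Q', f₁, f₂, c', hf⟩ := hC.glue _ Q₁ _ H c₁ hH (p₁ (e c z)) z
    let p' : N → W' := fun x => if hx : ∃ u, e c u = x then f₂ hx.choose else f₁ (p₁ x)
    have a1 : ∀ u, p' (e c u) = f₂ u := fun u => by
      have hx : ∃ u', e c u' = e c u := ⟨u, rfl⟩
      simp only [p', dif_pos hx, h.inj c hx.choose_spec]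
    have a2 : ∀ x y, Fill H e (F.erase c) x y → p' x = f₁ (p₁ x) := by
      rintro x y ⟨d, hd, a, b, -, r, -⟩
      by_cases hx : ∃ u, e c u = x
      · obtain ⟨u, rfl⟩ := hx
        rw [hz d hd u a r.symm, a1, hf]
      · exact dif_neg hx
    refine ⟨W', Q', p', c', ?_⟩
    rintro x y ⟨d, hd, r⟩
    by_cases hdc : d = c
    · obtain ⟨a, b, r, rfl, rfl⟩ := r
      rw [hdc, a1, a1]
      exact f₂.map_adj r
    · have r' : Fill H e (F.erase c) x y := ⟨d, mem_erase.mpr ⟨hdc, hd⟩, r⟩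
      rw [a2 x y r', a2 y x r'.symm]
      exact f₁.map_adj (q₁ x y r')

theorem Cls.fillMap {C : ∀ W : Type, SimpleGraph W → Prop} (hC : Cls C) [Fintype V] [Nonempty V]
    [Fintype X] [Fintype E] {H : SimpleGraph V} (hH : C V H) {e : E → V → N}
    (h : Sparse (Fintype.card (X × X) + 1) e) (f : X → N) :
    ∃ (W' : Type) (Q' : SimpleGraph W') (p' : X → W'),
      C W' Q' ∧ ∀ u v, Fill H e univ (f u) (f v) → Q'.Adj (p' u) (p' v) := by
  have : ∀ p : X × X, ∃ s : Finset E, s.card ≤ 1 ∧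
      (Fill H e univ (f p.1) (f p.2) → Fill H e s (f p.1) (f p.2)) := by
    intro p
    by_cases hp : Fill H e univ (f p.1) (f p.2)
    · obtain ⟨c, -, r⟩ := hp
      exact ⟨{c}, by simp, fun _ => ⟨c, mem_singleton_self _, r⟩⟩
    · exact ⟨∅, by simp, fun h => absurd h hp⟩
  choose s s1 s2 using this
  obtain ⟨W', Q', p', c', r⟩ := hC.fillHom hH h (univ.biUnion s) (Nat.le_succ_of_le
    (by simpa using card_biUnion_le_card_mul univ s 1 fun p _ => s1 p))
  exact ⟨W', Q', p' ∘ f, c', fun u v huv =>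
    r _ _ ((s2 (u, v) huv).mono (subset_biUnion_of_mem s (mem_univ _)))⟩

theorem host3 {C : ∀ W : Type, SimpleGraph W → Prop} (hC : Cls C)
    (hm : ∀ (W U : Type) [Finite U] (K : SimpleGraph W) (π : U → W), C W K → C U (K.comap π))
    [Fintype V] [Nonempty V] {H : SimpleGraph V} {Q : SimpleGraph W} (hQ : C W Q) {p : V → W}
    (h : MQ H Q p) (X : Type) [Fintype X] : ∃ (U : Type) (_ : Fintype U) (G : SimpleGraph U),
      Arrows G H 2 ∧ ∀ Y : SimpleGraph X, Arrows G Y 2 →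
        ∃ (W' : Type) (Q' : SimpleGraph W') (p' : X → W') (b : X → Prop) (N : Type)
          (f : X → N × V), C W' Q' ∧ Function.Injective f ∧ ∀ u v, Y.Adj u v →
            (b u ∧ b v ∧ (f u).1 = (f v).1 ∧ H.Adj (f u).2 (f v).2) ∨
              (¬ b u ∧ ¬ b v ∧ Q'.Adj (p' u) (p' v)) := by
  obtain ⟨Z, _, K, k1, k2⟩ := hC.ram _ Q hQ
  obtain ⟨V₀, _, π, hL⟩ := blow (Q := Q.comap p) (K := K) fun c hc =>
    let ⟨i, f, hf⟩ := k2 c hc
    ⟨i, f ∘ p, fun u v => hf _ _⟩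
  have : Nonempty V₀ :=
    let ⟨_, f, _⟩ := hL (fun _ _ => 0) fun _ _ => rfl
    ⟨f (Classical.arbitrary V)⟩
  obtain ⟨U, E, _, _, e, b, G, s1, s2, s3⟩ := host2 h k2 hL (Fintype.card (X × X))
  refine ⟨_, inferInstance, G, s2, fun Y hY => ?_⟩
  rcases s3 X Y hY with ⟨f, f1, f2⟩ | ⟨f, hf⟩
  · obtain ⟨W', Q', p', c', r⟩ := hC.fillMap (hm _ _ K π k1) s1 fun x => (f x).1
    exact ⟨W', Q', p', fun x => b (f x).1, U, f, c', f1, fun u v huv => (f2 u v huv).imp
      (fun k => ⟨k.1, (congrArg b k.2.1).mp k.1, k.2⟩) fun k => ⟨k.1, k.2.1, r u v k.2.2⟩⟩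
  · exact ⟨Z, K, f, fun _ => False, X, fun x => (x, Classical.arbitrary V), k1,
      fun u v h => congrArg Prod.fst h, fun u v huv => Or.inr ⟨id, id, hf u v huv⟩⟩

theorem mat_cls {C : ∀ W : Type, SimpleGraph W → Prop} (hC : Cls C)
    (hm : ∀ (W U : Type) [Finite U] (K : SimpleGraph W) (π : U → W), C W K → C U (K.comap π))
    [Fintype V] [Fintype X] {H₁ : SimpleGraph V} {H₂ : SimpleGraph X} (h2 : H₁.Connected)
    {Q : SimpleGraph W} (hQ : C W Q) {p : V → W} (hp : MQ H₁ Q p)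
    (hn : ∀ Z K, C Z K → IsEmpty (H₁ →g K)) (h : RamseyEquiv H₁ H₂ 2) : Emb H₁ H₂.Adj := by
  have := h2.nonempty
  obtain ⟨x₀⟩ : Nonempty X := by
    by_contra hX
    obtain ⟨i, f, -⟩ := h.symm.imp (G := (⊥ : SimpleGraph Empty)) (fun c _ =>
      ⟨0, fun x => absurd ⟨x⟩ hX, fun x => absurd ⟨x⟩ hX, fun x => absurd ⟨x⟩ hX⟩)
      (fun _ _ => 0) fun _ _ => rfl
    exact (f (Classical.arbitrary V)).elim
  have : Nonempty X := ⟨x₀⟩
  obtain ⟨U, _, G, s1, s2⟩ := host3 hC hm hQ hp X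
  obtain ⟨W', Q', p', b, N, f, c', f1, f2⟩ := s2 H₂ (h.imp s1)
  obtain ⟨W₂, Q₂, g₁, g₂, c₂, -⟩ := hC.glue _ Q _ Q' hQ c' (p (Classical.arbitrary V)) (p' x₀)
  let p₂ : X → W₂ := fun x => if b x then g₁ (p (f x).2) else g₂ (p' x)
  have a1 : ∀ u v, H₂.Adj u v → (b u ∧ H₁.Adj (f u).2 (f v).2 ∧ p (f u).2 = p (f v).2 ∧
      (f u).1 = (f v).1 ∧ p₂ u = p₂ v) ∨ Q₂.Adj (p₂ u) (p₂ v) := by
    intro u v huv
    rcases f2 u v huv with ⟨k1, k2, k3, k4⟩ | ⟨k1, k2, k3⟩
    · simp only [p₂, if_pos k1, if_pos k2]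
      exact (hp.hom _ _ k4).imp (fun e => ⟨k1, k4, e, k3, congrArg g₁ e⟩) g₁.map_adj
    · simp only [p₂, if_neg k1, if_neg k2]
      exact Or.inr (g₂.map_adj k3)
  have q₂ : MQ H₂ Q₂ p₂ := ⟨fun u v huv => (a1 u v huv).imp_left fun k => k.2.2.2.2,
    fun u v u' v' h1 h2 h3 h4 h5 => by
      obtain ⟨k1, k2, k3, k4, -⟩ := (a1 u v h1).resolve_right fun k => k.ne h2
      obtain ⟨-, l2, l3, -⟩ := (a1 u' v' h3).resolve_right fun k => k.ne h4
      obtain ⟨-, -, m3, m4⟩ := (f2 u u' h5).resolve_right fun k => k.1 k1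
      exact f1 (Prod.ext (m3.symm.trans k4) (hp.ind _ _ _ _ k2 k3 l2 l3 m4))⟩
  obtain ⟨U', _, G', r1, r2⟩ := host3 hC hm c₂ q₂ V
  obtain ⟨W₃, Q₃, p₃, b', N', f', c₃, g1, g2⟩ := r2 H₁ (h.symm.imp r1)
  by_cases hb : ∃ v, b' v
  swap
  · have k : ∀ u v, H₁.Adj u v → Q₃.Adj (p₃ u) (p₃ v) := fun u v huv =>
      ((g2 u v huv).resolve_left fun k => hb ⟨u, k.1⟩).2.2
    exact ((hn _ Q₃ c₃).false ⟨p₃, fun {u v} => k u v⟩).elim
  obtain ⟨v₀, hv⟩ := hb
  have all : ∀ v, b' v ∧ (f' v).1 = (f' v₀).1 := fun v => by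
    obtain ⟨w⟩ := h2.preconnected v v₀
    induction w with
    | nil => exact ⟨hv, rfl⟩
    | cons h w ih =>
      obtain ⟨k1, -, k3, -⟩ := (g2 _ _ h).resolve_right fun k => k.2.1 (ih hv).1
      exact ⟨k1, k3.trans (ih hv).2⟩
  exact ⟨fun v => (f' v).2, fun u v e => g1 (Prod.ext ((all u).2.trans (all v).2.symm) e),
    fun u v huv => ((g2 u v huv).resolve_right fun k => k.1 (all u).1).2.2.2⟩

theorem mat_main {C : ∀ n : ℕ, SimpleGraph (Fin n) → Prop} (hC : EG C) [Fintype V] [Fintype X]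
    {H₁ : SimpleGraph V} {H₂ : SimpleGraph X} (h3 : 3 ≤ Fintype.card V) (h2 : H₁.Connected)
    {m : ℕ} {Q : SimpleGraph (Fin m)} (hQ : C m Q) {p : V → Fin m} (hp : MQ H₁ Q p)
    (hn : ∀ n G, C n G → IsEmpty (H₁ →g G)) (h : RamseyEquiv H₁ H₂ 2) : Emb H₁ H₂.Adj := by
  have hE : ∃ a b, Q.Adj a b := by
    by_contra hc
    have k : ∀ u v, H₁.Adj u v → p u = p v := fun u v huv =>
      (hp.hom u v huv).resolve_right fun e => hc ⟨_, _, e⟩
    obtain ⟨u, v, huv⟩ : ∃ u v, H₁.Adj u v := by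
      by_contra hne
      exact (hn m Q hQ).false ⟨p, fun {u v} huv => absurd ⟨u, v, huv⟩ hne⟩
    obtain ⟨z, -, hz⟩ := exists_mem_notMem_of_card_lt_card (s := {u, v}) (t := univ)
      (by rw [card_univ]; exact card_le_two.trans_lt (by omega))
    obtain ⟨w⟩ := h2.preconnected z u
    refine hz ?_
    clear hz
    have : ∀ a b (w : H₁.Walk a b), b ∈ ({u, v} : Finset V) → a ∈ ({u, v} : Finset V) := by
      intro a b w
      induction w with
      | nil => exact id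
      | cons h w ih =>
        intro hb
        rcases mem_insert.mp (ih hb) with rfl | e
        · simp [hp.ind _ _ _ _ huv (k _ _ huv) h (k _ _ h) h.symm]
        · obtain rfl := mem_singleton.mp e
          simp [hp.ind _ _ _ _ huv.symm (k _ _ huv.symm) h (k _ _ h) h.symm]
    exact this _ _ w (mem_insert_self _ _)
  refine mat_cls (cls_loc hC ⟨m, Q, hQ, hE⟩ (Fintype.card V))
    (fun W U _ K π hK => ⟨inferInstance, hK.2.comap (SimpleGraph.Hom.comap π K)⟩) h2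
    ⟨inferInstance, fun S _ => ⟨m, Q, id, hQ, fun u _ v _ => id⟩⟩ hp (fun Z K hK => ⟨fun f => ?_⟩) h
  obtain ⟨n, G, g, g1, g2⟩ := hK.2.comap f univ (by simp)
  exact (hn n G g1).false ⟨g, fun {u v} => g2 u (mem_univ _) v (mem_univ _)⟩

end Pool.Agent.Lib.MP_781e3b_co.H92
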