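import Pool.Agent.Lib.MP_781e3b_co.H92Local

/-!
The partite construction of Nesetril and Rodl, for homomorphic images.
-/

set_option linter.unusedVariables false
set_option linter.unusedSectionVars false

namespace Pool.Agent.Lib.MP_781e3b_co.H92

open Finset Classical

variable {X Z : Type}

/-- The graph is connected after deleting `T`. -/
def Conn (F : SimpleGraph X) (T : Set X) : Prop :=
  (∃ x, x ∉ T) ∧ ∀ A : Set X, (∀ a, a ∉ T → ∀ b, b ∉ T → F.Adj a b → a ∈ A → b ∈ A) →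
    ∀ x, x ∉ T → x ∈ A → ∀ y, y ∉ T → y ∈ A

theorem Conn.nbr {F : SimpleGraph X} {S : Set X} {x : X} (h1 : Conn F S) (h2 : Conn F (S \ {x}))
    (hx : x ∈ S) : ∃ y, y ∉ S ∧ F.Adj y x := by
  by_contra hc
  obtain ⟨y, hy⟩ := h1.1
  refine h2.2 Sᶜ (fun a _ b hb hab ha hbS => ?_) y (fun h => hy h.1) hy x (fun h => h.2 rfl) hx
  exact hb ⟨hbS, fun hbx => hc ⟨a, ha, hbx ▸ hab⟩⟩

/-- No homomorphism to `K` lets the preimage of a vertex or of an edge disconnect `F`. -/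
def Sep (F : SimpleGraph X) (K : SimpleGraph Z) : Prop :=
  ∀ (h : F →g K) (i j : Z), i = j ∨ K.Adj i j → ∀ T ⊆ {x | h x = i ∨ h x = j}, Conn F T

theorem sep_of_chrom {F : SimpleGraph X}
    (hF : ∀ S : Set X, (F.induce S).Colorable 2 → (F.induce Sᶜ).Connected) (K : SimpleGraph Z) :
    Sep F K := by
  intro h i j _ T hT
  have hc := hF T ⟨SimpleGraph.Coloring.mk (fun x => if h x.1 = i then 0 else 1) (by
    intro a b hab
    have hne := (h.map_adj (show F.Adj a.1 b.1 from hab)).ne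
    by_cases h1 : h a.1 = i
    · simp only [if_pos h1, if_neg fun e : h b.1 = i => hne (h1.trans e.symm)]
      decide
    · simp only [if_neg h1, if_pos (Or.resolve_right (hT b.2) fun e =>
        hne ((Or.resolve_left (hT a.2) h1).trans e.symm))]
      decide)⟩
  obtain ⟨⟨x, hx⟩⟩ := hc.nonempty
  exact ⟨⟨x, hx⟩, fun A hA x h1 h2 => closed_of_conn hc h1 h2 hA⟩

theorem step {F : SimpleGraph X} {K : SimpleGraph Z} (hF : Sep F K) {V : Type} [Finite V]
    (P : SimpleGraph V) (π : V → Z) (hK : ∀ u v, P.Adj u v → K.Adj (π u) (π v))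
    (hP : IsEmpty (F →g P)) (i j : Z) :
    ∃ (V' : Type) (_ : Finite V') (P' : SimpleGraph V') (π' : V' → Z),
      (∀ u v, P'.Adj u v → K.Adj (π' u) (π' v)) ∧ IsEmpty (F →g P') ∧ ∀ c : V' → V' → Fin 2,
        ∃ φ : P →g P', (∀ v, π' (φ v) = π v) ∧
          ∃ γ, ∀ u v, P.Adj u v → π u = i → π v = j → c (φ u) (φ v) = γ := by
  by_cases hij : K.Adj i j
  swap
  · exact ⟨V, inferInstance, P, π, hK, hP, fun c => ⟨.id, fun _ => rfl, 0,
      fun u v h1 h2 h3 => absurd (h2 ▸ h3 ▸ hK u v h1) hij⟩⟩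
  have hπ : ∀ u v, P.Adj u v → π u ≠ π v := fun u v h => (hK u v h).ne
  let A := {a : V × V // P.Adj a.1 a.2 ∧ π a.1 = i ∧ π a.2 = j}
  obtain ⟨ι, _, hι⟩ := Combinatorics.Line.exists_mono_in_high_dimension A (Fin 2)
  obtain ⟨t0, -⟩ := (hι fun _ => 0).choose.proper
  let w : (ι → Option A) → V → ι → V := fun l v t =>
    (l t).elim v fun a => if π v = i then a.1.1 else a.1.2
  let φ : (ι → Option A) → V → ((ι → Option A) × V) ⊕ (ι → V) := fun l v =>
    if π v = i ∨ π v = j then Sum.inr (w l v) else Sum.inl (l, v)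
  let π' : ((ι → Option A) × V) ⊕ (ι → V) → Z := Sum.elim (fun x => π x.2) fun f => π (f t0)
  have a1 : ∀ l v, π' (φ l v) = π v := by
    intro l v
    by_cases hv : π v = i ∨ π v = j
    · simp only [φ, if_pos hv, π', Sum.elim_inr, w]
      cases l t0 with
      | none => rfl
      | some a =>
        by_cases hi : π v = i
        · simp only [Option.elim, if_pos hi]
          exact a.2.2.1.trans hi.symm
        · simp only [Option.elim, if_neg hi]
          exact a.2.2.2.trans (hv.resolve_left hi).symm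
    · simp only [φ, if_neg hv, π', Sum.elim_inl]
  have a2 : ∀ l l' u v, ¬ (π u = i ∨ π u = j) → φ l' v = φ l u → l' = l := by
    intro l l' u v hu h
    have hv : ¬ (π v = i ∨ π v = j) := by rwa [← a1 l' v, h, a1]
    simp only [φ, if_neg hu, if_neg hv] at h
    exact congrArg Prod.fst (Sum.inl.inj h)
  have a3 : ∀ l t, l t = none → ∀ v, Sum.elim Prod.snd (fun f => f t) (φ l v) = v := by
    intro l t ht v
    by_cases hv : π v = i ∨ π v = j
    · simp only [φ, if_pos hv, Sum.elim_inr, w, ht, Option.elim]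
    · simp only [φ, if_neg hv, Sum.elim_inl]
  let P' : SimpleGraph (((ι → Option A) × V) ⊕ (ι → V)) :=
    { Adj := fun x y => ∃ l : ι → Option A, (∃ t, l t = none) ∧
        ∃ u v, P.Adj u v ∧ φ l u = x ∧ φ l v = y
      symm := ⟨fun x y ⟨l, h, u, v, h1, h2, h3⟩ => ⟨l, h, v, u, h1.symm, h3, h2⟩⟩
      loopless := ⟨fun x ⟨l, h, u, v, h1, h2, h3⟩ =>
        hπ u v h1 (by rw [← a1 l u, ← a1 l v, h2, h3])⟩ }
  have a4 : ∀ x y, P'.Adj x y → K.Adj (π' x) (π' y) := by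
    rintro _ _ ⟨l, -, u, v, h1, rfl, rfl⟩
    rw [a1, a1]
    exact hK u v h1
  have a5 : ∀ l t, l t = none → ∀ u u', P'.Adj (φ l u) (φ l u') → P.Adj u u' := by
    rintro l t ht u u' ⟨l', -, v, v', h1, h2, h3⟩
    by_cases hl : l' = l
    · subst hl
      rw [← a3 l' t ht u, ← a3 l' t ht u', ← h2, ← h3, a3 _ t ht, a3 _ t ht]
      exact h1
    have hu : π u = i ∨ π u = j := by_contra fun hu => hl (a2 _ _ _ _ hu h2)
    have hu' : π u' = i ∨ π u' = j := by_contra fun hu => hl (a2 _ _ _ _ hu h3)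
    have hv : π v = i ∨ π v = j := by rwa [← a1 l' v, h2, a1]
    have hv' : π v' = i ∨ π v' = j := by rwa [← a1 l' v', h3, a1]
    have b1 := a3 l t ht u
    have b2 := a3 l t ht u'
    rw [← h2] at b1
    rw [← h3] at b2
    simp only [φ, if_pos hv, if_pos hv', Sum.elim_inr, w] at b1 b2
    rw [← b1, ← b2]
    have hne := hπ v v' h1
    cases l' t with
    | none => exact h1
    | some a =>
      by_cases hi : π v = i
      · simp only [Option.elim, if_pos hi, if_neg fun h : π v' = i => hne (hi.trans h.symm)]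
        exact a.2.1
      · have hi' : π v' = i := hv'.resolve_right fun h => hne ((hv.resolve_left hi).trans h.symm)
        simp only [Option.elim, if_pos hi', if_neg hi]
        exact a.2.1.symm
  refine ⟨_, inferInstance, P', π', a4, ⟨fun f => ?_⟩, fun c => ?_⟩
  · let S : Set X := {x | π' (f x) = i ∨ π' (f x) = j}
    let h : F →g K := ⟨fun x => π' (f x), fun hab => a4 _ _ (f.map_adj hab)⟩
    have hc : ∀ T ⊆ S, Conn F T := hF h i j (Or.inr hij)
    obtain ⟨x, hx⟩ := (hc S le_rfl).1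
    obtain ⟨y, -, hy⟩ := Conn.nbr (S := {x}) (x := x)
      (hF h _ _ (Or.inl rfl) _ fun a ha => Or.inl (congrArg h ha))
      (hF h _ _ (Or.inl rfl) _ fun a ha => Or.inl (congrArg h ha.1)) rfl
    obtain ⟨l, ⟨t, ht⟩, -, u, -, -, hu⟩ := f.map_adj hy
    have k1 : ∀ a, a ∉ S → ∀ b, F.Adj a b → (∃ u, φ l u = f a) → ∃ u, φ l u = f b := by
      rintro a ha b hab ⟨u, hu⟩
      obtain ⟨l', -, v, v', -, h2, h3⟩ := f.map_adj hab
      refine ⟨v', a2 l l' u v (fun h => ha ?_) (h2.trans hu.symm) ▸ h3⟩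
      show π' (f a) = i ∨ π' (f a) = j
      rwa [← hu, a1]
    have k2 := (hc S le_rfl).2 {a | ∃ u, φ l u = f a} (fun a ha b _ hab => k1 a ha b hab) x hx
      ⟨u, hu⟩
    have k3 : ∀ a, ∃ u, φ l u = f a := fun a => by
      by_cases ha : a ∈ S
      · obtain ⟨b, h1, h2⟩ := (hc S le_rfl).nbr (hc _ Set.sdiff_subset) ha
        exact k1 b h1 a h2 (k2 b h1)
      · exact k2 a ha
    choose ψ hψ using k3
    exact hP.false ⟨ψ, fun {a b} hab => a5 l t ht _ _ (by rw [hψ, hψ]; exact f.map_adj hab)⟩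
  · obtain ⟨l, γ, hl⟩ := hι fun s => c (Sum.inr fun t => (s t).1.1) (Sum.inr fun t => (s t).1.2)
    refine ⟨⟨φ l.idxFun, fun {u v} huv => ⟨_, l.proper, u, v, huv, rfl, rfl⟩⟩, a1 _, γ,
      fun u v h1 h2 h3 => ?_⟩
    rw [← hl ⟨(u, v), h1, h2, h3⟩]
    have hv : π v ≠ i := fun h => hπ u v h1 (h2.trans h.symm)
    show c (φ l.idxFun u) (φ l.idxFun v) = _
    simp only [φ, if_pos (Or.inl h2 : π u = i ∨ π u = j), if_pos (Or.inr h3 : π v = i ∨ π v = j)]
    congr 2 <;> funext t <;> simp only [w, Combinatorics.Line.coe_apply] <;>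
      cases l.idxFun t <;> simp [h2, hv]

theorem steps {F : SimpleGraph X} {K : SimpleGraph Z} (hF : Sep F K) {V : Type} [Finite V]
    (P : SimpleGraph V) (π : V → Z) (hπ : ∀ u v, P.Adj u v → K.Adj (π u) (π v))
    (hP : IsEmpty (F →g P)) (S : Finset (Z × Z)) :
    ∃ (V' : Type) (_ : Finite V') (P' : SimpleGraph V') (π' : V' → Z),
      (∀ u v, P'.Adj u v → K.Adj (π' u) (π' v)) ∧ IsEmpty (F →g P') ∧ ∀ c : V' → V' → Fin 2,
        ∃ φ : P →g P', (∀ v, π' (φ v) = π v) ∧ ∀ s ∈ S,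
          ∃ γ, ∀ u v, P.Adj u v → π u = s.1 → π v = s.2 → c (φ u) (φ v) = γ := by
  induction S using Finset.induction_on with
  | empty => exact ⟨V, inferInstance, P, π, hπ, hP, fun c => ⟨.id, fun _ => rfl, by simp⟩⟩
  | insert s S _ ih =>
    obtain ⟨V₁, _, P₁, π₁, h1, h2, h3⟩ := ih
    obtain ⟨V₂, _, P₂, π₂, k1, k2, k3⟩ := step hF P₁ π₁ h1 h2 s.1 s.2
    refine ⟨V₂, inferInstance, P₂, π₂, k1, k2, fun c => ?_⟩
    obtain ⟨ψ, r1, γ, r2⟩ := k3 c
    obtain ⟨φ, r3, r4⟩ := h3 fun x y => c (ψ x) (ψ y)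
    refine ⟨ψ.comp φ, fun v => (r1 _).trans (r3 v), fun s' hs' => ?_⟩
    rcases mem_insert.mp hs' with rfl | hs
    · exact ⟨γ, fun u v a b d => r2 _ _ (φ.map_adj a) ((r3 u).trans b) ((r3 v).trans d)⟩
    · exact r4 s' hs

theorem ramsey2 [LinearOrder Z] (R : Z → Z → Prop) (n : ℕ) : ∀ a b, a + b = n →
    ∀ S : Finset Z, 2 ^ n ≤ S.card → (∃ T ⊆ S, T.card = a ∧ ∀ x ∈ T, ∀ y ∈ T, x < y → R x y) ∨
      ∃ T ⊆ S, T.card = b ∧ ∀ x ∈ T, ∀ y ∈ T, x < y → ¬ R x y := by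
  induction n with
  | zero => exact fun a b h S _ => Or.inl ⟨∅, by simp, by simp; omega, by simp⟩
  | succ n ih =>
    intro a b hab S hS
    rcases a with _ | a
    · exact Or.inl ⟨∅, by simp, by simp, by simp⟩
    rcases b with _ | b
    · exact Or.inr ⟨∅, by simp, by simp, by simp⟩
    have hne : S.Nonempty := card_pos.mp ((Nat.two_pow_pos _).trans_le hS)
    set x := S.min' hne with hx
    have key : ∀ (R' : Z → Z → Prop) (T : Finset Z) [DecidablePred (R' x)],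
        T ⊆ (S.erase x).filter (R' x) → (∀ u ∈ T, ∀ v ∈ T, u < v → R' u v) →
        ∃ T' ⊆ S, T'.card = T.card + 1 ∧ ∀ u ∈ T', ∀ v ∈ T', u < v → R' u v := by
      intro R' T _ h1 h2
      have h3 : ∀ u ∈ T, u ≠ x ∧ u ∈ S := fun u hu => mem_erase.mp (mem_filter.mp (h1 hu)).1
      refine ⟨insert x T, insert_subset (min'_mem _ _) fun u hu => (h3 u hu).2,
        card_insert_of_notMem fun h => (h3 x h).1 rfl, fun u hu v hv huv => ?_⟩
      rcases mem_insert.mp hv with rfl | hv'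
      · rcases mem_insert.mp hu with rfl | hu'
        · exact absurd huv (lt_irrefl _)
        · exact absurd (min'_le S u (h3 u hu').2) (not_le.mpr huv)
      · rcases mem_insert.mp hu with rfl | hu'
        · exact (mem_filter.mp (h1 hv')).2
        · exact h2 u hu' v hv' huv
    have e1 := card_filter_add_card_filter_not (s := S.erase x) (R x)
    rw [card_erase_of_mem (min'_mem _ _)] at e1
    have sub : ∀ (p : Z → Prop) [DecidablePred p], (S.erase x).filter p ⊆ S := fun p _ =>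
      (filter_subset _ _).trans (erase_subset _ _)
    by_cases h : 2 ^ n ≤ ((S.erase x).filter (R x)).card
    · rcases ih a (b + 1) (by omega) _ h with ⟨T, h1, h2, h3⟩ | ⟨T, h1, h2⟩
      · exact Or.inl (h2 ▸ key R T h1 h3)
      · exact Or.inr ⟨T, h1.trans (sub _), h2⟩
    · rcases ih (a + 1) b (by omega) ((S.erase x).filter fun y => ¬ R x y) (by omega) with
        ⟨T, h1, h2⟩ | ⟨T, h1, h2, h3⟩
      · exact Or.inl ⟨T, h1.trans (sub _), h2⟩
      · exact Or.inr (h2 ▸ key (fun u v => ¬ R u v) T h1 h3)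

theorem ramsey3 (W : Type) [Finite W] : ∃ n : ℕ, ∀ γ : Fin n → Fin n → Fin 2,
    ∃ (i : Fin 2) (f : W ↪ Fin n), ∀ u v, f u < f v → γ (f u) (f v) = i := by
  have := Fintype.ofFinite W
  refine ⟨2 ^ (Fintype.card W + Fintype.card W), fun γ => ?_⟩
  have key : ∀ T : Finset (Fin (2 ^ (Fintype.card W + Fintype.card W))),
      T.card = Fintype.card W → ∃ f : W ↪ _, ∀ u, f u ∈ T := fun T hT =>
    let ⟨e⟩ := Fintype.card_eq.mp (hT.symm.trans (Fintype.card_coe T).symm)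
    ⟨e.toEmbedding.trans (Function.Embedding.subtype _), fun u => (e u).2⟩
  rcases ramsey2 (fun x y => γ x y = 0) _ (Fintype.card W) (Fintype.card W) rfl univ (by simp) with
    ⟨T, -, h2, h3⟩ | ⟨T, -, h2, h3⟩
  · obtain ⟨f, hf⟩ := key T h2
    exact ⟨0, f, fun u v => h3 _ (hf u) _ (hf v)⟩
  · obtain ⟨f, hf⟩ := key T h2
    have : ∀ s : Fin 2, ¬ s = 0 → s = 1 := by decide
    exact ⟨1, f, fun u v h => this _ (h3 _ (hf u) _ (hf v) h)⟩

theorem ram_top {W : Type} [Finite W] (Q : SimpleGraph W) :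
    ∃ n : ℕ, HArr (⊤ : SimpleGraph (Fin n)) Q := by
  obtain ⟨n, hn⟩ := ramsey3 W
  refine ⟨n, fun c hc => ?_⟩
  obtain ⟨i, f, hf⟩ := hn c
  refine ⟨i, f, fun u v huv => ⟨f.injective.ne huv.ne, ?_⟩⟩
  rcases lt_or_gt_of_ne (f.injective.ne huv.ne) with h | h
  · exact hf u v h
  · exact (hc _ _).trans (hf v u h)

theorem ram_step {F : SimpleGraph X} [Finite Z] {K : SimpleGraph Z} (hF : Sep F K) {W : Type}
    [Finite W] {Q : SimpleGraph W} (hQ : IsEmpty (F →g Q)) (hK : HArr K Q) :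
    ∃ (V : Type) (_ : Finite V) (P : SimpleGraph V) (_ : P →g K), IsEmpty (F →g P) ∧ HArr P Q := by
  have := Fintype.ofFinite Z
  let P : SimpleGraph ({f : W → Z // ∀ u v, Q.Adj u v → K.Adj (f u) (f v)} × W) :=
    { Adj := fun x y => x.1 = y.1 ∧ Q.Adj x.2 y.2
      symm := ⟨fun x y h => ⟨h.1.symm, h.2.symm⟩⟩
      loopless := ⟨fun x h => Q.irrefl h.2⟩ }
  obtain ⟨V', _, P', π', h1, h2, h3⟩ := steps hF P (fun x => x.1.1 x.2)
    (fun u v h => by rw [← h.1]; exact u.1.2 _ _ h.2)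
    ⟨fun f => hQ.false ⟨fun x => (f x).2, fun h => (f.map_adj h).2⟩⟩ univ
  refine ⟨V', inferInstance, P', ⟨π', fun {u v} => h1 u v⟩, h2, fun c hc => ?_⟩
  obtain ⟨φ, -, hφ⟩ := h3 c
  choose γ hγ using fun s => hφ s (mem_univ _)
  obtain ⟨i, f, hf⟩ := hK (fun a b => if ∃ u v, P.Adj u v ∧ u.1.1 u.2 = a ∧ v.1.1 v.2 = b then
    γ (a, b) else 0) (by
      intro a b
      by_cases h : ∃ u v, P.Adj u v ∧ u.1.1 u.2 = a ∧ v.1.1 v.2 = b
      · obtain ⟨u, v, r1, r2, r3⟩ := h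
        rw [if_pos ⟨u, v, r1, r2, r3⟩, if_pos ⟨v, u, r1.symm, r3, r2⟩,
          ← hγ (a, b) u v r1 r2 r3, ← hγ (b, a) v u r1.symm r3 r2, hc]
      · rw [if_neg h, if_neg fun ⟨u, v, r1, r2, r3⟩ => h ⟨v, u, r1.symm, r3, r2⟩])
  let f' : {f : W → Z // ∀ u v, Q.Adj u v → K.Adj (f u) (f v)} := ⟨f, fun u v h => (hf u v h).1⟩
  refine ⟨i, fun u => φ (f', u), fun u v huv => ⟨φ.map_adj ⟨rfl, huv⟩, ?_⟩⟩
  have := (hf u v huv).2
  rw [if_pos ⟨(f', u), (f', v), ⟨rfl, huv⟩, rfl, rfl⟩] at this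
  exact (hγ (f u, f v) (f', u) (f', v) ⟨rfl, huv⟩ rfl rfl).trans this

theorem glue {W₁ W₂ : Type} (Q₁ : SimpleGraph W₁) (Q₂ : SimpleGraph W₂) (x₁ : W₁) (x₂ : W₂) :
    ∃ (Q : SimpleGraph (W₁ ⊕ W₂)) (f₁ : Q₁ →g Q) (f₂ : Q₂ →g Q), f₁ x₁ = f₂ x₂ ∧
      ∀ (X : Type) (F : SimpleGraph X), Sep F Q → IsEmpty (F →g Q₁) → IsEmpty (F →g Q₂) →
        IsEmpty (F →g Q) := by
  let g : W₂ → W₁ ⊕ W₂ := fun y => if y = x₂ then Sum.inl x₁ else Sum.inr y
  have g1 : ∀ y, Sum.elim (fun _ => x₂) id (g y) = y := fun y => by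
    by_cases h : y = x₂ <;> simp [g, h]
  have g2 : ∀ y x, g y = Sum.inl x → x = x₁ := fun y x h => by
    by_cases h' : y = x₂ <;> simp [g, h'] at h
    exact h.symm
  let Q : SimpleGraph (W₁ ⊕ W₂) :=
    { Adj := fun a b => (∃ u v, Q₁.Adj u v ∧ Sum.inl u = a ∧ Sum.inl v = b) ∨
        ∃ u v, Q₂.Adj u v ∧ g u = a ∧ g v = b
      symm := ⟨fun a b h => h.imp (fun ⟨u, v, h1, h2, h3⟩ => ⟨v, u, h1.symm, h3, h2⟩)
        fun ⟨u, v, h1, h2, h3⟩ => ⟨v, u, h1.symm, h3, h2⟩⟩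
      loopless := ⟨fun a h => h.elim
        (fun ⟨u, v, h1, h2, h3⟩ => h1.ne (Sum.inl.inj (h2.trans h3.symm)))
        fun ⟨u, v, h1, h2, h3⟩ => h1.ne (by rw [← g1 u, ← g1 v, h2, h3])⟩ }
  refine ⟨Q, ⟨Sum.inl, fun {u v} h => Or.inl ⟨u, v, h, rfl, rfl⟩⟩,
    ⟨g, fun {u v} h => Or.inr ⟨u, v, h, rfl, rfl⟩⟩, (if_pos rfl).symm,
    fun X F hF h1 h2 => ⟨fun f => ?_⟩⟩
  let S : Set X := {x | f x = Sum.inl x₁}
  have hc : Conn F S := hF f _ _ (Or.inl rfl) S fun a ha => Or.inl ha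
  have k : ∀ a, a ∉ S → ∀ b, b ∉ S → F.Adj a b → (f a).isLeft = (f b).isLeft := by
    intro a ha b hb hab
    rcases f.map_adj hab with ⟨u, v, -, e1, e2⟩ | ⟨u, v, -, e1, e2⟩
    · rw [← e1, ← e2]
      rfl
    · have : ∀ d, d ∉ S → ∀ y, g y = f d → (f d).isLeft = false := by
        intro d hd y hy
        rcases hfd : f d with x | x
        · exact absurd (hfd.trans (congrArg _ (g2 y x (hy.trans hfd)))) hd
        · rfl
      rw [this a ha u e1, this b hb v e2]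
  obtain ⟨x, hx⟩ := hc.1
  have k2 := hc.2 {a | (f a).isLeft = (f x).isLeft}
    (fun a ha b hb hab h => (k a ha b hb hab).symm.trans h) x hx rfl
  rcases hfx : f x with y | y
  · have k3 : ∀ a, ∃ u, Sum.inl u = f a := fun a => by
      by_cases ha : a ∈ S
      · exact ⟨x₁, ha.symm⟩
      · have : (f a).isLeft = (f x).isLeft := k2 a ha
        rw [hfx] at this
        obtain ⟨u, hu⟩ := Sum.isLeft_iff.mp this
        exact ⟨u, hu.symm⟩
    choose ψ hψ using k3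
    refine h1.false ⟨ψ, fun {a b} hab => ?_⟩
    rcases f.map_adj hab with ⟨u, v, r, e1, e2⟩ | ⟨u, v, r, e1, e2⟩
    · rwa [Sum.inl.inj ((hψ a).trans e1.symm), Sum.inl.inj ((hψ b).trans e2.symm)]
    · refine absurd ?_ (f.map_adj hab).ne
      rw [← hψ, ← hψ, g2 u _ (e1.trans (hψ a).symm), g2 v _ (e2.trans (hψ b).symm)]
  · refine h2.false ⟨fun a => Sum.elim (fun _ => x₂) id (f a), fun {a b} hab => ?_⟩
    rcases f.map_adj hab with ⟨u, v, r, e1, e2⟩ | ⟨u, v, r, e1, e2⟩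
    · have : ∀ d u, Sum.inl u = f d → f d = Sum.inl x₁ := fun d u hu => by
        by_contra hd
        have : (f d).isLeft = (f x).isLeft := k2 d hd
        rw [hfx, ← hu] at this
        exact absurd this (by simp)
      exact absurd ((this a u e1).trans (this b v e2).symm) (f.map_adj hab).ne
    · show Q₂.Adj (Sum.elim _ id (f a)) (Sum.elim _ id (f b))
      rwa [← e1, ← e2, g1, g1]

theorem cls_free {F : SimpleGraph X}
    (hF : ∀ S : Set X, (F.induce S).Colorable 2 → (F.induce Sᶜ).Connected) :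
    Cls fun W Q => Finite W ∧ IsEmpty (F →g Q) where
  ram := by
    rintro W Q ⟨_, hQ⟩
    obtain ⟨n, hn⟩ := ram_top Q
    obtain ⟨V, _, P, -, h1, h2⟩ := ram_step (sep_of_chrom hF _) hQ hn
    exact ⟨V, Fintype.ofFinite _, P, ⟨inferInstance, h1⟩, h2⟩
  glue := by
    rintro W₁ Q₁ W₂ Q₂ ⟨_, h1⟩ ⟨_, h2⟩ x₁ x₂
    obtain ⟨Q, f₁, f₂, k1, k2⟩ := glue Q₁ Q₂ x₁ x₂
    exact ⟨_, Q, f₁, f₂, ⟨inferInstance, k2 X F (sep_of_chrom hF _) h1 h2⟩, k1⟩

end Pool.Agent.Lib.MP_781e3b_co.H92
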