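import Pool.Agent.Lib.MP_781e3b_co.Defs

/-!
Star forests are determined, up to isolated vertices, by their Ramsey class in two colours.
-/

set_option linter.unusedVariables false
set_option linter.unusedSectionVars false

namespace Pool.Agent.Lib.MP_781e3b_co

open Finset Classical

/-- A copy of `H` in the relation `R`. -/
def Emb {U V : Type} (H : SimpleGraph V) (R : U → U → Prop) : Prop :=
  ∃ f : V → U, Function.Injective f ∧ ∀ u v, H.Adj u v → R (f u) (f v)

theorem arrows_equiv {U U' V : Type} (e : U ≃ U') (G : SimpleGraph U) (H : SimpleGraph V) (q : ℕ)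
    (h : Arrows (G.comap e.symm) H q) : Arrows G H q := by
  intro c hc
  obtain ⟨i, f, h1, h2⟩ := h (fun x y => c (e.symm x) (e.symm y)) fun x y => hc _ _
  exact ⟨i, e.symm ∘ f, e.symm.injective.comp h1, h2⟩

theorem RamseyEquiv.imp {V W U : Type} [Fintype U] {H₁ : SimpleGraph V} {H₂ : SimpleGraph W} {q : ℕ}
    (h : RamseyEquiv H₁ H₂ q) {G : SimpleGraph U} (hG : Arrows G H₁ q) : Arrows G H₂ q := by
  refine arrows_equiv (Fintype.equivFin U) G H₂ q ((h _ _).1 ?_)
  refine arrows_equiv (Fintype.equivFin U).symm _ H₁ q ?_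
  convert hG
  ext x y
  simp

theorem RamseyEquiv.symm {V W : Type} {H₁ : SimpleGraph V} {H₂ : SimpleGraph W} {q : ℕ}
    (h : RamseyEquiv H₁ H₂ q) : RamseyEquiv H₂ H₁ q := fun n G => (h n G).symm

theorem Emb.trans {U V W : Type} {H₁ : SimpleGraph V} {H₂ : SimpleGraph W} {R : U → U → Prop}
    (h : Emb H₁ H₂.Adj) (h' : Emb H₂ R) : Emb H₁ R :=
  let ⟨f, f1, f2⟩ := h
  let ⟨g, g1, g2⟩ := h'
  ⟨g ∘ f, g1.comp f1, fun u v huv => g2 _ _ (f2 u v huv)⟩

/-- Comparable graphs that are equivalent in two colours are equivalent in any number of colours. -/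
theorem equiv_of_emb {V W : Type} {H₁ : SimpleGraph V} {H₂ : SimpleGraph W} (he : Emb H₁ H₂.Adj)
    (h : RamseyEquiv H₁ H₂ 2) {q : ℕ} (hq : 2 ≤ q) : RamseyEquiv H₁ H₂ q := by
  intro n G
  refine ⟨fun h1 => ?_, fun h2 c hc => ?_⟩
  swap
  · obtain ⟨i, hi⟩ := h2 c hc
    exact ⟨i, he.trans (R := fun x y => G.Adj x y ∧ c x y = i) hi⟩
  by_contra hcon
  have key : ∀ m ≤ q, ∃ c : Fin n → Fin n → Fin q, (∀ x y, c x y = c y x) ∧
      (∀ i, ¬ Emb H₂ fun x y => G.Adj x y ∧ c x y = i) ∧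
      ∀ i : Fin q, (i : ℕ) < m → ¬ Emb H₁ fun x y => G.Adj x y ∧ c x y = i := by
    intro m
    induction m with
    | zero =>
      intro _
      unfold Arrows at hcon
      push Not at hcon
      obtain ⟨c, c1, c2⟩ := hcon
      refine ⟨c, c1, fun i ⟨f, f1, f2⟩ => ?_, by simp⟩
      obtain ⟨u, v, h1, h2⟩ := c2 i f f1
      exact h2 (f2 u v h1).1 (f2 u v h1).2
    | succ m ih =>
      intro hm
      obtain ⟨c, c1, c2, c3⟩ := ih (by omega)
      let i : Fin q := ⟨m, by omega⟩
      obtain ⟨j, hj⟩ : ∃ j : Fin q, j ≠ i := by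
        have : Nontrivial (Fin q) := Fin.nontrivial_iff_two_le.2 hq
        exact exists_ne i
      let G' : SimpleGraph (Fin n) :=
        { Adj := fun x y => G.Adj x y ∧ (c x y = i ∨ c x y = j)
          symm := ⟨fun x y h => ⟨h.1.symm, c1 x y ▸ h.2⟩⟩
          loopless := ⟨fun x h => G.irrefl h.1⟩ }
      have h2 : ¬ Arrows G' H₂ 2 := fun h2 => by
        obtain ⟨k, f, f1, f2⟩ := h2 (fun x y => if c x y = i then 0 else 1)
          fun x y => by rw [c1]
        by_cases hk : k = 0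
        · refine c2 i ⟨f, f1, fun u v huv => ⟨(f2 u v huv).1.1, ?_⟩⟩
          by_contra hne
          have := (f2 u v huv).2
          simp [hne, hk] at this
        · refine c2 j ⟨f, f1, fun u v huv => ⟨(f2 u v huv).1.1, (f2 u v huv).1.2.resolve_left ?_⟩⟩
          intro he
          have := (f2 u v huv).2
          simp [he] at this
          exact hk this.symm
      have h3 : ¬ Arrows G' H₁ 2 := fun h3 => h2 ((h n G').1 h3)
      unfold Arrows at h3
      push Not at h3
      obtain ⟨d, d1, d2⟩ := h3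
      let c' : Fin n → Fin n → Fin q := fun x y =>
        if c x y = i ∨ c x y = j then (if d x y = 0 then i else j) else c x y
      have k1 : ∀ l, l = i ∨ l = j → ¬ Emb H₁ fun x y => G.Adj x y ∧ c' x y = l := by
        rintro l hl ⟨f, f1, f2⟩
        obtain ⟨u, v, h1, h2⟩ := d2 (if l = i then 0 else 1) f f1
        obtain ⟨h3, h4⟩ := f2 u v h1
        have h5 : c (f u) (f v) = i ∨ c (f u) (f v) = j := by
          by_contra hn
          simp only [c', if_neg hn] at h4
          exact hn (h4 ▸ hl)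
        simp only [c', if_pos h5] at h4
        refine h2 ⟨h3, h5⟩ ?_
        split_ifs at h4 with h6
        · rw [h6, if_pos h4.symm]
        · rw [if_neg (h4 ▸ hj)]
          omega
      have k2 : ∀ l, ¬ (l = i ∨ l = j) → ∀ x y, c' x y = l → c x y = l := by
        intro l hl x y h
        simp only [c'] at h
        split_ifs at h with h1 h2
        · exact absurd (Or.inl h.symm) hl
        · exact absurd (Or.inr h.symm) hl
        · exact h
      refine ⟨c', fun x y => by simp only [c', c1 x y, d1 x y], fun l hl => ?_, fun l hl hl' => ?_⟩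
      · by_cases h : l = i ∨ l = j
        · exact k1 l h (he.trans hl)
        · obtain ⟨f, f1, f2⟩ := hl
          exact c2 l ⟨f, f1, fun u v huv => ⟨(f2 u v huv).1, k2 l h _ _ (f2 u v huv).2⟩⟩
      · by_cases h : l = i ∨ l = j
        · exact k1 l h hl'
        · obtain ⟨f, f1, f2⟩ := hl'
          have : (l : ℕ) ≠ m := fun e => h (Or.inl (Fin.ext e))
          exact c3 l (by omega) ⟨f, f1, fun u v huv => ⟨(f2 u v huv).1, k2 l h _ _ (f2 u v huv).2⟩⟩
  obtain ⟨c, c1, -, c3⟩ := key q le_rfl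
  obtain ⟨i, hi⟩ := h1 c c1
  exact c3 i i.2 hi

/-- The stars of a star forest, listed by increasing size. -/
structure Stars {V : Type} (H : SimpleGraph V) (k : ℕ) (c : Fin k → V) (N : Fin k → Finset V) :
    Prop where
  inj : Function.Injective c
  pos : ∀ i, (N i).Nonempty
  notMem : ∀ i j, c i ∉ N j
  disj : ∀ i j v, v ∈ N i → v ∈ N j → i = j
  adj : ∀ u v, H.Adj u v ↔ ∃ i, (u = c i ∧ v ∈ N i) ∨ (v = c i ∧ u ∈ N i)
  mono : Monotone fun i => (N i).card

theorem exists_stars {V : Type} [Fintype V] {H : SimpleGraph V} (h : IsStarForest H) :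
    ∃ k c N, Stars H k c N := by
  let o := Fintype.equivFin V
  let C : Finset V := univ.filter fun u => ∃ v, H.Adj u v ∧ (∀ w, H.Adj v w → w = u) ∧
    ((∀ w, H.Adj u w → w = v) → o u < o v)
  have hC : ∀ u v, H.Adj u v → (u ∈ C ↔ (∀ w, H.Adj v w → w = u) ∧
      ((∀ w, H.Adj u w → w = v) → o u < o v)) := by
    intro u v huv
    simp only [C, mem_filter, mem_univ, true_and]
    refine ⟨fun ⟨v', h1, h2, h3⟩ => ?_, fun h' => ⟨v, huv, h'⟩⟩
    by_cases e : v' = v
    · subst e; exact ⟨h2, h3⟩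
    · exact ⟨(h u v huv).resolve_left fun h4 => e (h4 v' h1), fun h4 => absurd (h4 v' h1) e⟩
  have hxor : ∀ u v, H.Adj u v → (u ∈ C ↔ v ∉ C) := by
    intro u v huv
    rw [hC u v huv, hC v u huv.symm]
    have h1 := h u v huv
    have h2 : o u ≠ o v := fun e => huv.ne (o.injective e)
    constructor
    · rintro ⟨h3, h4⟩ ⟨h5, h6⟩
      exact lt_asymm (h4 h5) (h6 h3)
    · intro h3
      by_cases h5 : ∀ w, H.Adj u w → w = v
      · have h6 := not_and.1 h3 h5
        rw [Classical.not_imp] at h6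
        exact ⟨h6.1, fun _ => lt_of_le_of_ne (not_lt.1 h6.2) h2⟩
      · exact ⟨h1.resolve_left h5, fun h6 => absurd h6 h5⟩
  let c0 : Fin C.card → V := fun i => (C.equivFin.symm i : V)
  let p := Tuple.sort fun i => (H.neighborFinset (c0 i)).card
  have hc : ∀ i, c0 i ∈ C := fun i => (C.equivFin.symm i).2
  refine ⟨C.card, fun i => c0 (p i), fun i => H.neighborFinset (c0 (p i)),
    fun i j e => p.injective (C.equivFin.symm.injective (Subtype.ext e)), fun i => ?_,
    fun i j hm => ?_, fun i j v h1 h2 => ?_, fun u v => ⟨fun huv => ?_, ?_⟩,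
    Tuple.monotone_sort fun i => (H.neighborFinset (c0 i)).card⟩
  · obtain ⟨v, hv, -⟩ := (mem_filter.1 (hc (p i))).2
    exact ⟨v, by simpa using hv⟩
  · exact (hxor _ _ (by simpa using hm)).1 (hc _) (hc _)
  · rw [SimpleGraph.mem_neighborFinset] at h1 h2
    exact p.injective (C.equivFin.symm.injective (Subtype.ext
      (((hC _ _ h2).1 (hc _)).1 _ h1.symm)))
  · have key : ∀ u ∈ C, ∃ i, u = c0 (p i) := fun u hu =>
      ⟨p.symm (C.equivFin ⟨u, hu⟩), by simp [c0]⟩
    by_cases hu : u ∈ C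
    · obtain ⟨i, rfl⟩ := key u hu
      exact ⟨i, Or.inl ⟨rfl, by simpa using huv⟩⟩
    · obtain ⟨i, rfl⟩ := key v ((hxor _ _ huv.symm).2 hu)
      exact ⟨i, Or.inr ⟨rfl, by simpa using huv.symm⟩⟩
  · rintro ⟨i, ⟨rfl, h⟩ | ⟨rfl, h⟩⟩
    · simpa using h
    · exact (by simpa using h : H.Adj _ _).symm

variable {V : Type} [Fintype V] {H : SimpleGraph V} {k : ℕ} {c : Fin k → V}
  {N : Fin k → Finset V}

theorem Stars.emb (S : Stars H k c N) {U : Type} [Fintype U] {R : U → U → Prop}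
    (hR : ∀ x y, R x y → R y x) (g : Fin k → U) (hg : Function.Injective g) (M : Fin k → Finset U)
    (hM : ∀ i, ∀ x ∈ M i, R (g i) x ∧ x ∉ Set.range g)
    (hall : ∀ I : Finset (Fin k), ∑ i ∈ I, (N i).card ≤ (I.biUnion M).card)
    (hU : Fintype.card V ≤ Fintype.card U) : Emb H R := by
  let t : {v // v ∉ Set.range c} → Finset U := fun v =>
    if h : ∃ i, v.1 ∈ N i then M h.choose else univ \ univ.image g
  have ht : ∀ v i, v.1 ∈ N i → t v = M i := fun v i hi => by
    have h : ∃ i, v.1 ∈ N i := ⟨i, hi⟩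
    simp only [t, dif_pos h, S.disj _ _ _ h.choose_spec hi]
  obtain ⟨f, f1, f2⟩ := (all_card_le_biUnion_card_iff_exists_injective t).1 fun s => by
    by_cases h : ∀ v ∈ s, ∃ i, v.1 ∈ N i
    · let I := univ.filter fun i => ∃ v ∈ s, v.1 ∈ N i
      calc s.card = (s.image Subtype.val).card := (card_image_of_injective _ Subtype.val_injective).symm
        _ ≤ (I.biUnion N).card := card_le_card fun v hv => by
          obtain ⟨w, hw, rfl⟩ := mem_image.1 hv
          obtain ⟨i, hi⟩ := h w hw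
          exact mem_biUnion.2 ⟨i, mem_filter.2 ⟨mem_univ _, w, hw, hi⟩, hi⟩
        _ ≤ ∑ i ∈ I, (N i).card := card_biUnion_le
        _ ≤ (I.biUnion M).card := hall I
        _ ≤ _ := card_le_card fun x hx => by
          obtain ⟨i, hi, hx⟩ := mem_biUnion.1 hx
          obtain ⟨w, hw, hi⟩ := (mem_filter.1 hi).2
          exact mem_biUnion.2 ⟨w, hw, ht w i hi ▸ hx⟩
    · push Not at h
      obtain ⟨v, hv, h⟩ := h
      have h1 : t v = univ \ univ.image g := dif_neg (not_exists.2 h)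
      have h2 := card_le_card (subset_biUnion_of_mem t hv)
      rw [h1, card_univ_sdiff, card_image_of_injective _ hg, card_univ, Fintype.card_fin] at h2
      have h3 := s.card_le_univ
      rw [Fintype.card_subtype_compl, Set.card_range_of_injective S.inj, Fintype.card_fin] at h3
      omega
  have f3 : ∀ v, f v ∉ Set.range g := fun v => by
    have := f2 v
    simp only [t] at this
    split_ifs at this with h
    · exact (hM _ _ this).2
    · simpa using this
  have e1 : ∀ i, ∀ h : c i ∈ Set.range c, h.choose = i := fun i h => S.inj h.choose_spec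
  refine ⟨fun v => if h : v ∈ Set.range c then g h.choose else f ⟨v, h⟩, fun u v huv => ?_,
    fun u v huv => ?_⟩
  · simp only at huv
    split_ifs at huv with h1 h2 h2
    · rw [← h1.choose_spec, ← h2.choose_spec, hg huv]
    · exact absurd ⟨_, huv⟩ (f3 _)
    · exact absurd ⟨_, huv.symm⟩ (f3 _)
    · exact congrArg Subtype.val (f1 huv)
  · have key : ∀ i, ∀ v ∈ N i, R (if h : c i ∈ Set.range c then g h.choose else f ⟨c i, h⟩)
        (if h : v ∈ Set.range c then g h.choose else f ⟨v, h⟩) := by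
      intro i v hv
      have h : v ∉ Set.range c := by rintro ⟨j, rfl⟩; exact S.notMem _ _ hv
      rw [dif_pos (show c i ∈ Set.range c from ⟨i, rfl⟩), dif_neg h, e1]
      exact (hM i _ (ht ⟨v, h⟩ i hv ▸ f2 _)).1
    obtain ⟨i, ⟨rfl, h⟩ | ⟨rfl, h⟩⟩ := (S.adj u v).1 huv
    · exact key i v h
    · exact hR _ _ (key i u h)

/-- The size of the `i`-th star. -/
def sz (N : Fin k → Finset V) (i : ℕ) : ℕ := if h : i < k then (N ⟨i, h⟩).card else 0

/-- The total size of the `p` smallest stars. -/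
def T (N : Fin k → Finset V) (p : ℕ) : ℕ := ∑ i ∈ range p, sz N i

theorem Stars.sz_mono (S : Stars H k c N) {i j : ℕ} (hij : i ≤ j) (hj : j < k) :
    sz N i ≤ sz N j := by
  simp only [sz, dif_pos hj, dif_pos (hij.trans_lt hj)]
  exact S.mono (show (⟨i, _⟩ : Fin k) ≤ ⟨j, hj⟩ from hij)

theorem T_mono {p q : ℕ} (h : p ≤ q) : T N p ≤ T N q :=
  sum_le_sum_of_subset (range_mono h)

theorem Stars.T_convex (S : Stars H k c N) (p q : ℕ) (h : p + q < k) :
    T N (p + 1) + T N (q + 1) ≤ T N (p + q + 1) + sz N 0 := by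
  induction q with
  | zero => simp [T]
  | succ q ih =>
    have h1 := ih (by omega)
    have h2 := S.sz_mono (show q + 1 ≤ p + q + 1 by omega) (by omega)
    simp only [T, ← add_assoc, sum_range_succ _ (q + 1), sum_range_succ _ (p + q + 1)] at h1 ⊢
    omega

theorem sum_le_T (I : Finset (Fin k)) (p : ℕ) (h : ∀ i ∈ I, (i : ℕ) < p) :
    ∑ i ∈ I, (N i).card ≤ T N p := by
  calc ∑ i ∈ I, (N i).card = ∑ i ∈ I.image Fin.val, sz N i := by
        rw [sum_image fun _ _ _ _ => Fin.ext]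
        simp [sz]
    _ ≤ _ := sum_le_sum_of_subset fun x hx => by
        obtain ⟨i, hi, rfl⟩ := mem_image.1 hx
        exact mem_range.2 (h i hi)

theorem Stars.T_le_sum (S : Stars H k c N) (I : Finset (Fin k)) :
    T N I.card ≤ ∑ i ∈ I, (N i).card := by
  induction I using Finset.induction_on_max with
  | empty => simp [T]
  | insert a s ha ih =>
    have h1 : a ∉ s := fun h => lt_irrefl _ (ha a h)
    have h2 : s.card ≤ a := by
      simpa using card_le_card (show s ⊆ Iio a from fun x hx => mem_Iio.2 (ha x hx))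
    have h3 := S.sz_mono h2 a.2
    rw [card_insert_of_notMem h1, sum_insert h1, T, sum_range_succ]
    have h4 : sz N a = (N a).card := by simp [sz]
    simp only [T] at ih
    omega

theorem Stars.emb_of_deg (S : Stars H k c N) {U Z : Type} [Fintype U] [Fintype Z]
    {R : U → U → Prop} (hR : ∀ x y, R x y → R y x) (ι : Z → U) (hι : Function.Injective ι)
    (M : Z → Finset U) (hM : ∀ z, ∀ x ∈ M z, R (ι z) x ∧ x ∉ Set.range ι)
    (hd : ∀ p < k, k - p ≤ (univ.filter fun z => T N (p + 1) ≤ (M z).card).card)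
    (hU : Fintype.card V ≤ Fintype.card U) : Emb H R := by
  obtain ⟨g, g1, g2⟩ := (all_card_le_biUnion_card_iff_exists_injective
    fun i : Fin k => univ.filter fun z => T N (i + 1) ≤ (M z).card).1 fun s => by
      rcases s.eq_empty_or_nonempty with rfl | hs
      · simp
      · have h1 := card_le_card (show s ⊆ Ici (s.min' hs) from fun x hx => mem_Ici.2 (s.min'_le x hx))
        rw [Fin.card_Ici] at h1
        exact (h1.trans (hd _ (s.min' hs).2)).trans (card_le_card (subset_biUnion_of_mem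
          (fun i : Fin k => univ.filter fun z => T N (i + 1) ≤ (M z).card) (s.min'_mem hs)))
  refine S.emb hR (ι ∘ g) (hι.comp g1) (M ∘ g)
    (fun i x hx => ⟨(hM _ x hx).1, fun ⟨j, hj⟩ => (hM _ x hx).2 ⟨_, hj⟩⟩) (fun I => ?_) hU
  rcases I.eq_empty_or_nonempty with rfl | hI
  · simp
  · exact ((sum_le_T I (I.max' hI + 1) fun i hi => Nat.lt_succ_of_le (I.le_max' i hi)).trans
      (mem_filter.1 (g2 _)).2).trans (card_le_card (subset_biUnion_of_mem (M ∘ g) (I.max'_mem hI)))

/-- The host: `u` centres with private leaves; the first `j` centres have only `d` private leaves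
and `n` common leaves. -/
def hostRel (u D j d n : ℕ) (z : Fin u) : (Fin u × Fin D) ⊕ Fin D → Prop
  | .inl p => p.1 = z ∧ (j ≤ z ∨ (p.2 : ℕ) < d)
  | .inr b => (z : ℕ) < j ∧ (b : ℕ) < n

/-- The host graph. -/
def host (u D j d n : ℕ) : SimpleGraph (Fin u ⊕ ((Fin u × Fin D) ⊕ Fin D)) where
  Adj x y := (∃ z w, x = .inl z ∧ y = .inr w ∧ hostRel u D j d n z w) ∨
    ∃ z w, y = .inl z ∧ x = .inr w ∧ hostRel u D j d n z w
  symm := ⟨fun _ _ h => h.symm⟩
  loopless := ⟨by rintro x (⟨z, w, rfl, h, -⟩ | ⟨z, w, rfl, h, -⟩) <;> cases h⟩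

theorem host_deg {u D j d n : ℕ} (hd : d ≤ D) (hn : n ≤ D) (z : Fin u) :
    (if (z : ℕ) < j then d + n else D) ≤ (univ.filter (hostRel u D j d n z)).card := by
  split_ifs with h
  · refine le_trans (by simp) (card_le_card_of_injOn (s := (univ : Finset (Fin d ⊕ Fin n)))
      (Sum.map (fun a => (z, a.castLE hd)) (Fin.castLE hn)) ?_ (Function.Injective.injOn ?_))
    · rintro (a | b) - <;> simp [hostRel, h]
    · exact Sum.map_injective.2 ⟨fun a b e => Fin.castLE_injective hd (congrArg Prod.snd e),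
        Fin.castLE_injective _⟩
  · refine le_trans (by simp) (card_le_card_of_injOn (s := (univ : Finset (Fin D)))
      (fun a => Sum.inl (z, a)) ?_ fun a _ b _ e => by simpa using e)
    intro a _
    simp [hostRel, not_lt.1 h]

theorem Stars.arrows (S : Stars H k c N) {u D j d n : ℕ} (hu : 2 * k ≤ u + 1) (hj : j ≤ k)
    (hd : d ≤ D) (hn : n ≤ D) (hD : 2 * T N k ≤ D) (hV : Fintype.card V ≤ D)
    (h : j = 0 ∨ T N j + sz N 0 ≤ d + n + 1) : Arrows (host u D j d n) H 2 := by
  intro col hcol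
  by_contra hcon
  let M : Fin 2 → Fin u → Finset (Fin u ⊕ ((Fin u × Fin D) ⊕ Fin D)) := fun i z =>
    (univ.filter fun w => hostRel u D j d n z w ∧ col (.inl z) (.inr w) = i).image Sum.inr
  have key : ∀ i, ∃ p < k, (univ.filter fun z => T N (p + 1) ≤ (M i z).card).card < k - p := by
    intro i
    by_contra hn
    push Not at hn
    refine hcon ⟨i, S.emb_of_deg (R := fun x y => (host u D j d n).Adj x y ∧ col x y = i)
      (fun x y h => ⟨h.1.symm, hcol x y ▸ h.2⟩) Sum.inl Sum.inl_injective (M i) ?_ hn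
      (by simp; omega)⟩
    intro z x hx
    obtain ⟨w, hw, rfl⟩ := mem_image.1 hx
    exact ⟨⟨Or.inl ⟨z, w, rfl, rfl, (mem_filter.1 hw).2.1⟩, (mem_filter.1 hw).2.2⟩, by simp⟩
  obtain ⟨p, hp, h0⟩ := key 0
  obtain ⟨q, hq, h1⟩ := key 1
  have hsum : ∀ z : Fin u, (if (z : ℕ) < j then d + n else D) ≤ (M 0 z).card + (M 1 z).card := by
    intro z
    simp only [M, card_image_of_injective _ Sum.inr_injective]
    refine (host_deg hd hn z).trans ((card_le_card fun w hw => ?_).trans (card_union_le _ _))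
    simp only [mem_filter, mem_univ, true_and, mem_union] at hw ⊢
    simp only [hw, true_and]
    omega
  let B := univ.filter fun z => ¬ T N (p + 1) ≤ (M 0 z).card ∧ ¬ T N (q + 1) ≤ (M 1 z).card
  have hB : u ≤ B.card + ((univ.filter fun z => T N (p + 1) ≤ (M 0 z).card).card +
      (univ.filter fun z => T N (q + 1) ≤ (M 1 z).card).card) := by
    refine le_trans (by simp) ((card_le_card (s := univ) fun z _ => ?_).trans
      ((card_union_le _ _).trans (Nat.add_le_add_left (card_union_le _ _) _)))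
    simp only [B, mem_union, mem_filter, mem_univ, true_and]
    tauto
  have t1 : T N (p + 1) ≤ T N k := T_mono hp
  have t2 : T N (q + 1) ≤ T N k := T_mono hq
  have hBj : ∀ z ∈ B, (z : ℕ) < j := fun z hz => by
    have h2 := (mem_filter.1 hz).2
    have h3 := hsum z
    by_contra hn
    rw [if_neg hn] at h3
    omega
  have hc : B.card ≤ j := by
    simpa using card_le_card_of_injOn (s := B) (t := range j) Fin.val
      (fun z hz => by simpa using hBj z hz) fun _ _ _ _ => Fin.ext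
  obtain ⟨z, hz⟩ := card_pos.1 (show 0 < B.card by omega)
  have h2 := (mem_filter.1 hz).2
  have h3 := hsum z
  rw [if_pos (hBj z hz)] at h3
  have h4 := S.T_convex p q (by omega)
  have h5 : T N (p + q + 1) ≤ T N j := T_mono (by omega)
  omega

theorem Stars.centres (S : Stars H k c N) {u D j d n : ℕ} {f : V → Fin u ⊕ ((Fin u × Fin D) ⊕ Fin D)}
    (hf : Function.Injective f) (P : Fin u → (Fin u × Fin D) ⊕ Fin D → Prop)
    (h : ∀ x y, H.Adj x y → (∃ z w, f x = .inl z ∧ f y = .inr w ∧ P z w) ∨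
      ∃ z w, f y = .inl z ∧ f x = .inr w ∧ P z w) :
    ∃ φ : Fin k → Fin u, Function.Injective φ ∧ ∀ i, (∃ x, (x = c i ∨ x ∈ N i) ∧ f x = .inl (φ i)) ∧
      (∃ w, P (φ i) w) := by
  have : ∀ i, ∃ z, (∃ x, (x = c i ∨ x ∈ N i) ∧ f x = .inl z) ∧ ∃ w, P z w := by
    intro i
    obtain ⟨v, hv⟩ := S.pos i
    rcases h _ _ ((S.adj _ _).2 ⟨i, Or.inl ⟨rfl, hv⟩⟩) with ⟨z, w, h1, -, h2⟩ | ⟨z, w, h1, -, h2⟩
    · exact ⟨z, ⟨_, Or.inl rfl, h1⟩, w, h2⟩
    · exact ⟨z, ⟨_, Or.inr hv, h1⟩, w, h2⟩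
  choose φ h1 h2 using this
  refine ⟨φ, fun i i' e => ?_, fun i => ⟨h1 i, h2 i⟩⟩
  obtain ⟨x, a1, a2⟩ := h1 i
  obtain ⟨y, b1, b2⟩ := h1 i'
  obtain rfl : x = y := hf (by rw [a2, b2, e])
  rcases a1 with a1 | a1 <;> rcases b1 with b1 | b1
  · exact S.inj (a1.symm.trans b1)
  · exact absurd (a1 ▸ b1) (S.notMem _ _)
  · exact absurd (b1 ▸ a1) (S.notMem _ _)
  · exact S.disj _ _ _ a1 b1

theorem card_le_of_inj {a b u : ℕ} {φ : Fin k → Fin u} (hφ : Function.Injective φ)
    (h : ∀ i, a ≤ φ i ∧ (φ i : ℕ) < b) : k ≤ b - a := by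
  simpa using card_le_card_of_injOn (s := (univ : Finset (Fin k))) (t := Ico a b)
    (fun i => (φ i : ℕ)) (fun i _ => by simpa using h i) fun _ _ _ _ e => hφ (Fin.ext e)

/-- The colouring determined by the colours of centre-leaf pairs. -/
def colOf {u : ℕ} {L : Type} (κ : Fin u → L → Fin 2) : Fin u ⊕ L → Fin u ⊕ L → Fin 2
  | .inl z, .inr w => κ z w
  | .inr w, .inl z => κ z w
  | _, _ => 0

theorem colOf_symm {u : ℕ} {L : Type} (κ : Fin u → L → Fin 2) (x y) :
    colOf κ x y = colOf κ y x := by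
  cases x <;> cases y <;> rfl

theorem arrows_host {u D j d n : ℕ} (h : Arrows (host u D j d n) H 2)
    (κ : Fin u → (Fin u × Fin D) ⊕ Fin D → Fin 2) : ∃ i f, Function.Injective f ∧
    ∀ x y, H.Adj x y → (∃ z w, f x = Sum.inl z ∧ f y = .inr w ∧ hostRel u D j d n z w ∧ κ z w = i) ∨
      ∃ z w, f y = .inl z ∧ f x = .inr w ∧ hostRel u D j d n z w ∧ κ z w = i := by
  obtain ⟨i, f, f1, f2⟩ := h (colOf κ) (colOf_symm κ)
  refine ⟨i, f, f1, fun x y hxy => ?_⟩
  obtain ⟨⟨z, w, h1, h2, h3⟩ | ⟨z, w, h1, h2, h3⟩, h4⟩ := f2 x y hxy <;> rw [h1, h2] at h4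
  · exact Or.inl ⟨z, w, h1, h2, h3, h4⟩
  · exact Or.inr ⟨z, w, h1, h2, h3, h4⟩

theorem Stars.le_of_arrows (S : Stars H k c N) {u D j d n : ℕ} (h : Arrows (host u D j d n) H 2) :
    2 * k ≤ u + 1 := by
  obtain ⟨i, f, f1, f2⟩ := arrows_host h fun z _ => if (z : ℕ) < k - 1 then 0 else 1
  obtain ⟨φ, h1, h2⟩ := S.centres (j := j) (d := d) (n := n) f1 _ f2
  by_cases hi : i = 0
  · have := card_le_of_inj (a := 0) (b := k - 1) h1 fun l => by
      obtain ⟨w, -, h⟩ := (h2 l).2
      refine ⟨Nat.zero_le _, by_contra fun hn => ?_⟩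
      simp [hn, hi] at h
    omega
  · have := card_le_of_inj (a := k - 1) (b := u) h1 fun l => by
      obtain ⟨w, -, h⟩ := (h2 l).2
      refine ⟨by_contra fun hn => ?_, (φ l).2⟩
      rw [if_pos (not_le.1 hn)] at h
      exact hi h.symm
    omega

theorem Stars.bound (S : Stars H k c N) {u D j d n : ℕ} (hu : u + 1 = 2 * k) (hj : j ≤ k)
    (h : Arrows (host u D j d n) H 2) : sz N 0 ≤ d ∨ T N j ≤ n := by
  obtain ⟨i, f, f1, f2⟩ := arrows_host h fun z w =>
    if (z : ℕ) < k ∧ (j ≤ z ∨ w.isRight) then 0 else 1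
  obtain ⟨φ, h1, h2⟩ := S.centres (j := j) (d := d) (n := n) f1 _ f2
  have hadj : ∀ l, ∀ v ∈ N l, H.Adj (c l) v := fun l v hv => (S.adj _ _).2 ⟨l, Or.inl ⟨rfl, hv⟩⟩
  by_cases hi : i = 0
  · right
    have hlt : ∀ (z : Fin u) w, (if (z : ℕ) < k ∧ (j ≤ z ∨ w.isRight) then (0 : Fin 2) else 1) = i →
        hostRel u D j d n z w → (z : ℕ) < k ∧ ((z : ℕ) < j → ∃ b : Fin D, w = .inr b ∧ (b : ℕ) < n) := by
      intro z w h hr
      have h3 : (z : ℕ) < k ∧ (j ≤ z ∨ w.isRight) := by
        by_contra hn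
        simp [hn, hi] at h
      refine ⟨h3.1, fun h4 => ?_⟩
      rcases w with w | b
      · simp at h3; omega
      · exact ⟨b, rfl, hr.2⟩
    have hφ : ∀ l, (φ l : ℕ) < k := fun l => by
      obtain ⟨w, h3, h4⟩ := (h2 l).2
      exact (hlt _ _ h4 h3).1
    have hbij : Function.Bijective fun l => (⟨φ l, hφ l⟩ : Fin k) :=
      Finite.injective_iff_bijective.1 fun l l' e => h1 (Fin.ext (Fin.mk.inj e))
    have uniq : ∀ l x z, (x = c l ∨ x ∈ N l) → f x = .inl z → (z : ℕ) < k → z = φ l := by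
      intro l x z hx e hz
      obtain ⟨l', hl'⟩ := hbij.2 ⟨z, hz⟩
      obtain rfl : z = φ l' := Fin.ext (congrArg Fin.val hl').symm
      obtain ⟨y, b1, b2⟩ := (h2 l').1
      obtain rfl : x = y := f1 (by rw [e, b2])
      rcases hx with a1 | a1 <;> rcases b1 with b1 | b1
      · rw [S.inj (a1.symm.trans b1)]
      · exact absurd (a1 ▸ b1) (S.notMem _ _)
      · exact absurd (b1 ▸ a1) (S.notMem _ _)
      · rw [S.disj _ _ _ a1 b1]
    let I := univ.filter fun l => (φ l : ℕ) < j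
    have hI : j ≤ I.card := by
      have := card_le_card_of_surjOn (s := I) (t := range j) (fun l => (φ l : ℕ)) fun z hz => by
        have hz' : z < j := by simpa using hz
        obtain ⟨l, hl⟩ := hbij.2 ⟨z, by omega⟩
        have : (φ l : ℕ) = z := congrArg Fin.val hl
        exact ⟨l, by simp [I, this, hz'], this⟩
      simpa using this
    have hw : ∀ a : (Σ l : I, N l), ∃ b : Fin D, (b : ℕ) < n ∧ ∃ x, f x = .inr (.inr b) ∧
        (x = a.2 ∨ (x = c a.1 ∧ f a.2 = .inl (φ a.1))) := by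
      rintro ⟨⟨l, hl⟩, v, hv⟩
      have hl' := (mem_filter.1 hl).2
      rcases f2 _ _ (hadj l v hv) with ⟨z, w, a1, a2, a3, a4⟩ | ⟨z, w, a1, a2, a3, a4⟩
      · obtain rfl := uniq l _ z (Or.inl rfl) a1 (hlt _ _ a4 a3).1
        obtain ⟨b, rfl, hb⟩ := (hlt _ _ a4 a3).2 hl'
        exact ⟨b, hb, v, a2, Or.inl rfl⟩
      · obtain rfl := uniq l _ z (Or.inr hv) a1 (hlt _ _ a4 a3).1
        obtain ⟨b, rfl, hb⟩ := (hlt _ _ a4 a3).2 hl'
        exact ⟨b, hb, c l, a2, Or.inr ⟨rfl, a1⟩⟩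
    choose b b1 x b2 b3 using hw
    have hinj : Function.Injective fun a => (⟨b a, b1 a⟩ : Fin n) := by
      rintro ⟨⟨l, hl⟩, v, hv⟩ ⟨⟨l', hl'⟩, v', hv'⟩ e
      have e1 : x ⟨⟨l, hl⟩, v, hv⟩ = x ⟨⟨l', hl'⟩, v', hv'⟩ :=
        f1 (by rw [b2, b2, Fin.ext (Fin.mk.inj e)])
      have : v = v' := by
        rcases b3 ⟨⟨l, hl⟩, v, hv⟩ with a1 | ⟨a1, a2⟩ <;>
        rcases b3 ⟨⟨l', hl'⟩, v', hv'⟩ with c1 | ⟨c1, c2⟩
        · exact a1.symm.trans (e1.trans c1)
        · exact absurd ((c1.symm.trans (e1.symm.trans a1)) ▸ hv : c l' ∈ N l) (S.notMem _ _)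
        · exact absurd ((a1.symm.trans (e1.trans c1)) ▸ hv' : c l ∈ N l') (S.notMem _ _)
        · obtain rfl : l = l' := S.inj (a1.symm.trans (e1.trans c1))
          exact f1 (a2.trans c2.symm)
      subst this
      obtain rfl := S.disj _ _ _ hv hv'
      rfl
    have h3 := Fintype.card_le_of_injective _ hinj
    simp only [Fintype.card_sigma, Fintype.card_coe, Fintype.card_fin] at h3
    rw [sum_coe_sort I fun l => (N l).card] at h3
    exact ((T_mono hI).trans (S.T_le_sum I)).trans h3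
  · left
    have hlt : ∀ (z : Fin u) w, (if (z : ℕ) < k ∧ (j ≤ z ∨ w.isRight) then (0 : Fin 2) else 1) = i →
        hostRel u D j d n z w → (z : ℕ) < k → ∃ a : Fin D, w = .inl (z, a) ∧ (a : ℕ) < d := by
      intro z w h hr hz
      have h3 : ¬ ((z : ℕ) < k ∧ (j ≤ z ∨ w.isRight)) := fun hn => by
        rw [if_pos hn] at h
        exact hi h.symm
      rcases w with ⟨z', a⟩ | b
      · obtain ⟨rfl, h4⟩ := hr
        exact ⟨a, rfl, h4.resolve_left fun h5 => h3 ⟨hz, Or.inl h5⟩⟩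
      · exact absurd ⟨hz, Or.inr rfl⟩ h3
    obtain ⟨l, hl⟩ : ∃ l, (φ l : ℕ) < k := by
      by_contra hn
      push Not at hn
      have := card_le_of_inj (a := k) (b := u) h1 fun l => ⟨hn l, (φ l).2⟩
      omega
    refine (S.sz_mono (Nat.zero_le l) l.2).trans ?_
    simp only [sz, l.2, dif_pos]
    obtain ⟨y, hy | hy, e⟩ := (h2 l).1
    · subst hy
      have hw : ∀ v : N l, ∃ a : Fin D, f v = .inr (.inl (φ l, a)) ∧ (a : ℕ) < d := by
        rintro ⟨v, hv⟩
        rcases f2 _ _ (hadj l v hv) with ⟨z, w, a1, a2, a3, a4⟩ | ⟨z, w, a1, a2, a3, a4⟩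
        · obtain rfl : z = φ l := Sum.inl_injective (a1.symm.trans e)
          obtain ⟨a, rfl, ha⟩ := hlt _ _ a4 a3 hl
          exact ⟨a, a2, ha⟩
        · rw [e] at a2; cases a2
      choose a a1 a2 using hw
      simpa using Fintype.card_le_of_injective (fun v => (⟨a v, a2 v⟩ : Fin d)) fun v v' e =>
        Subtype.ext (f1 (by rw [a1, a1, Fin.ext (Fin.mk.inj e)]))
    · rcases f2 _ _ (hadj l y hy) with ⟨z, w, a1, a2, a3, a4⟩ | ⟨z, w, a1, a2, a3, a4⟩
      · rw [e] at a2; cases a2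
      · obtain rfl : z = φ l := Sum.inl_injective (a1.symm.trans e)
        obtain ⟨a, rfl, ha⟩ := hlt _ _ a4 a3 hl
        refine le_trans (card_le_one.2 fun v hv v' hv' => ?_) (by omega)
        have key : ∀ v ∈ N l, f v = .inl (φ l) := by
          intro v hv
          rcases f2 _ _ (hadj l v hv) with ⟨z, w, b1, b2, b3, b4⟩ | ⟨z, w, b1, b2, b3, b4⟩
          · rw [a2] at b1; cases b1
          · obtain rfl : w = .inl (φ l, a) := Sum.inr_injective (b2.symm.trans a2)
            rw [b1, ← b3.1]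
        exact f1 ((key v hv).trans (key v' hv').symm)

theorem starForest_of_arrows {u D d n : ℕ} (h : Arrows (host u D 0 d n) H 2) : IsStarForest H := by
  obtain ⟨i, f, f1, f2⟩ := arrows_host h fun _ _ => 0
  have key : ∀ x y z w, f x = .inl z → f y = .inr w → hostRel u D 0 d n z w →
      ∀ v, H.Adj y v → v = x := by
    intro x y z w a1 a2 a3 v hv
    rcases f2 _ _ hv with ⟨z', w', b1, b2, b3, -⟩ | ⟨z', w', b1, b2, b3, -⟩
    · rw [a2] at b1; cases b1
    · obtain rfl : w' = w := Sum.inr_injective (b2.symm.trans a2)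
      rcases w' with p | b
      · exact f1 (by rw [a1, b1, ← a3.1, ← b3.1])
      · exact absurd a3.1 (Nat.not_lt_zero _)
  intro x y hxy
  rcases f2 _ _ hxy with ⟨z, w, a1, a2, a3, -⟩ | ⟨z, w, a1, a2, a3, -⟩
  · exact Or.inr (key _ _ _ _ a1 a2 a3)
  · exact Or.inl (key _ _ _ _ a1 a2 a3)

variable {W : Type} [Fintype W] {H' : SimpleGraph W}

theorem Stars.count_le {k' c' N'} (S : Stars H k c N) (S' : Stars H' k' c' N')
    (h : RamseyEquiv H H' 2) : k' ≤ k := by
  have := S'.le_of_arrows (h.imp (S.arrows (u := 2 * k - 1) (D := 2 * T N k + Fintype.card V)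
    (j := 0) (d := 0) (n := 0) (by omega) (by omega) (by omega) (by omega) (by omega) (by omega)
    (Or.inl rfl)))
  omega

theorem Stars.T_le {c' N'} (S : Stars H k c N) (S' : Stars H' k c' N') (h : RamseyEquiv H H' 2)
    (h0 : sz N 0 ≤ sz N' 0) {j : ℕ} (hj : j ≤ k) : T N' j ≤ T N j := by
  rcases Nat.eq_zero_or_pos k with rfl | hk
  · obtain rfl : j = 0 := by omega
    simp [T]
  have h1 : 0 < sz N 0 := by simpa [sz, hk] using S.pos ⟨0, hk⟩
  have h2 : sz N 0 ≤ T N k := by simpa [T] using T_mono (N := N) (show 1 ≤ k from hk)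
  have h3 : T N j ≤ T N k := T_mono hj
  have := S'.bound (by omega) hj (h.imp (S.arrows (u := 2 * k - 1)
    (D := 2 * T N k + Fintype.card V) (j := j) (d := sz N 0 - 1) (n := T N j) (by omega) hj
    (by omega) (by omega) (by omega) (by omega) (Or.inr (by omega))))
  omega

theorem Stars.sz_eq {c' N'} (S : Stars H k c N) (S' : Stars H' k c' N') (h : RamseyEquiv H H' 2)
    (i : Fin k) : (N i).card = (N' i).card := by
  have hk : 1 ≤ k := i.pos
  have h0 : sz N 0 = sz N' 0 := by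
    rcases le_total (sz N 0) (sz N' 0) with h1 | h1
    · exact le_antisymm h1 (by simpa [T] using S.T_le S' h h1 hk)
    · exact le_antisymm (by simpa [T] using S'.T_le S h.symm h1 hk) h1
  have hT : ∀ j ≤ k, T N j = T N' j := fun j hj =>
    le_antisymm (S'.T_le S h.symm h0.ge hj) (S.T_le S' h h0.le hj)
  have h1 := hT i i.2.le
  have h2 := hT (i + 1) i.2
  simp only [T, sum_range_succ] at h1 h2
  have h3 : sz N i = (N i).card := by simp [sz]
  have h4 : sz N' i = (N' i).card := by simp [sz]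
  omega

theorem Stars.emb_of_eq {c' N'} (S : Stars H k c N) (S' : Stars H' k c' N')
    (h : ∀ i, (N i).card = (N' i).card) (hc : Fintype.card V ≤ Fintype.card W) :
    Emb H H'.Adj := by
  refine S.emb (fun _ _ h => h.symm) c' S'.inj N' (fun i x hx => ⟨(S'.adj _ _).2 ⟨i, Or.inl ⟨rfl, hx⟩⟩,
    fun ⟨j, hj⟩ => S'.notMem j i (hj ▸ hx)⟩) (fun I => ?_) hc
  rw [card_biUnion fun i _ j _ hij => disjoint_left.2 fun v h1 h2 => hij (S'.disj _ _ _ h1 h2)]
  simp [h]

theorem main (hs : IsStarForest H) (h : RamseyEquiv H H' 2) :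
    (Emb H H'.Adj ∨ Emb H' H.Adj) ∧ ∀ q, 2 ≤ q → RamseyEquiv H H' q := by
  obtain ⟨k, c, N, S⟩ := exists_stars hs
  obtain ⟨k', c', N', S'⟩ := exists_stars (starForest_of_arrows (h.imp (S.arrows (u := 2 * k)
    (D := 2 * T N k + Fintype.card V) (j := 0) (d := 0) (n := 0) (by omega) (by omega) (by omega)
    (by omega) (by omega) (by omega) (Or.inl rfl))))
  obtain rfl : k = k' := le_antisymm (S'.count_le S h.symm) (S.count_le S' h)
  have e := S.sz_eq S' h
  rcases le_total (Fintype.card V) (Fintype.card W) with hc | hc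
  · have := S.emb_of_eq S' e hc
    exact ⟨Or.inl this, fun q hq => equiv_of_emb this h hq⟩
  · have := S'.emb_of_eq S (fun i => (e i).symm) hc
    exact ⟨Or.inr this, fun q hq => (equiv_of_emb this h.symm hq).symm⟩

end Pool.Agent.Lib.MP_781e3b_co
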