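import Pool.Agent.Lib.MP_781e3b_co.Main

/-!
Basic tools: compactness, extension of injections, rooted trees.
-/

set_option linter.unusedVariables false
set_option linter.unusedSectionVars false

namespace Pool.Agent.Lib.MP_781e3b_co

open Finset Classical

/-- Every host (of any size) that arrows `H₁` arrows `H₂`. -/
def Imp {V W : Type} (H₁ : SimpleGraph V) (H₂ : SimpleGraph W) : Prop :=
  ∀ (U : Type) (G : SimpleGraph U), Arrows G H₁ 2 → Arrows G H₂ 2

theorem Imp.trans {V W X : Type} {H₁ : SimpleGraph V} {H₂ : SimpleGraph W} {H₃ : SimpleGraph X}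
    (h : Imp H₁ H₂) (h' : Imp H₂ H₃) : Imp H₁ H₃ := fun U G hG => h' U G (h U G hG)

theorem imp_of_emb {V W : Type} {H₁ : SimpleGraph V} {H₂ : SimpleGraph W} (he : Emb H₂ H₁.Adj) :
    Imp H₁ H₂ := by
  intro U G hG c hc
  obtain ⟨i, hi⟩ := hG c hc
  exact ⟨i, he.trans (R := fun x y => G.Adj x y ∧ c x y = i) hi⟩

theorem arrows_of_induce {U V : Type} {G : SimpleGraph U} {H : SimpleGraph V} {q : ℕ} (s : Set U)
    (h : Arrows (G.induce s) H q) : Arrows G H q := by
  intro c hc
  obtain ⟨i, f, h1, h2⟩ := h (fun x y => c x y) fun x y => hc _ _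
  exact ⟨i, Subtype.val ∘ f, Subtype.val_injective.comp h1, fun u v huv => h2 u v huv⟩

/-- Compactness. -/
theorem exists_finite_arrows {U V : Type} [Fintype V] {G : SimpleGraph U} {H : SimpleGraph V}
    (h : Arrows G H 2) : ∃ s : Finset U, Arrows (G.induce (s : Set U)) H 2 := by
  by_contra hcon
  push Not at hcon
  let K : Finset U → Set (U → U → Fin 2) := fun s =>
    {c | (∀ x y, c x y = c y x) ∧ ∀ i : Fin 2, ∀ f : V → U, Function.Injective f →
      (∀ v, f v ∈ s) → ¬ ∀ u v, H.Adj u v → G.Adj (f u) (f v) ∧ c (f u) (f v) = i}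
  have hne : ∀ s, (K s).Nonempty := by
    intro s
    have := hcon s
    unfold Arrows at this
    push Not at this
    obtain ⟨c, c1, c2⟩ := this
    refine ⟨fun x y => if h : x ∈ s ∧ y ∈ s then c ⟨x, h.1⟩ ⟨y, h.2⟩ else 0, ?_, ?_⟩
    · intro x y
      by_cases hx : x ∈ s <;> by_cases hy : y ∈ s <;> simp [hx, hy]
      exact c1 _ _
    · intro i f hf hs hall
      obtain ⟨u, v, huv, h3⟩ := c2 i (fun v => ⟨f v, hs v⟩)
        (fun a b hab => hf (congrArg Subtype.val hab))
      have := hall u v huv
      refine h3 this.1 ?_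
      simpa [hs] using this.2
  have hcl : ∀ s, IsClosed (K s) := by
    intro s
    have e : K s = (⋂ x, ⋂ y, {c : U → U → Fin 2 | c x y = c y x}) ∩
        ⋂ i : Fin 2, ⋂ f : V → U, ⋂ (_ : Function.Injective f), ⋂ (_ : ∀ v, f v ∈ s),
          (⋂ u, ⋂ v, {c : U → U → Fin 2 | H.Adj u v → G.Adj (f u) (f v) ∧ c (f u) (f v) = i})ᶜ := by
      ext c
      simp only [K, Set.mem_ofPred_eq, Set.mem_inter_iff, Set.mem_iInter, Set.mem_compl_iff]
    rw [e]
    have ev : ∀ x y : U, Continuous fun c : U → U → Fin 2 => c x y :=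
      fun x y => (continuous_apply y).comp (continuous_apply x)
    refine IsClosed.inter (isClosed_iInter fun x => isClosed_iInter fun y =>
      isClosed_eq (ev x y) (ev y x)) ?_
    refine isClosed_iInter fun i => isClosed_iInter fun f => isClosed_iInter fun _ =>
      isClosed_iInter fun _ => IsOpen.isClosed_compl ?_
    refine isOpen_iInter_of_finite fun u => isOpen_iInter_of_finite fun v => ?_
    exact (isOpen_discrete {j : Fin 2 | H.Adj u v → G.Adj (f u) (f v) ∧ j = i}).preimage (ev _ _)
  have hdir : Directed (· ⊇ ·) K := by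
    intro s t
    refine ⟨s ∪ t, fun c hc => ⟨hc.1, fun i f hf hs => hc.2 i f hf fun v => ?_⟩,
      fun c hc => ⟨hc.1, fun i f hf hs => hc.2 i f hf fun v => ?_⟩⟩
    · exact mem_union_left _ (hs v)
    · exact mem_union_right _ (hs v)
  obtain ⟨c, hc⟩ := IsCompact.nonempty_iInter_of_directed_nonempty_isCompact_isClosed K hdir hne
    (fun s => (hcl s).isCompact) hcl
  rw [Set.mem_iInter] at hc
  obtain ⟨i, f, h1, h2⟩ := h c (hc ∅).1
  exact (hc (univ.image f)).2 i f h1 (fun v => mem_image_of_mem f (mem_univ v)) h2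

theorem RamseyEquiv.toImp {V W : Type} [Fintype V] {H₁ : SimpleGraph V} {H₂ : SimpleGraph W}
    (h : RamseyEquiv H₁ H₂ 2) : Imp H₁ H₂ := by
  intro U G hG
  obtain ⟨s, hs⟩ := exists_finite_arrows hG
  exact arrows_of_induce _ (h.imp hs)

/-- Extension of an injection through infinite candidate sets. -/
theorem exists_extend {V U : Type} [Fintype V] (D : Finset V) (f₀ : V → U) (hf : Set.InjOn f₀ D)
    (C : V → Set U) (hC : ∀ x, x ∉ D → (C x).Infinite) :
    ∃ f : V → U, Function.Injective f ∧ (∀ x ∈ D, f x = f₀ x) ∧ ∀ x, x ∉ D → f x ∈ C x := by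
  have key : ∀ E : Finset V, ∃ f : V → U, Set.InjOn f (↑(D ∪ E)) ∧ (∀ x ∈ D, f x = f₀ x) ∧
      ∀ x ∈ E, x ∉ D → f x ∈ C x := by
    intro E
    induction E using Finset.induction_on with
    | empty => exact ⟨f₀, by simpa using hf, fun _ _ => rfl, by simp⟩
    | insert a E ha ih =>
      obtain ⟨f, f1, f2, f3⟩ := ih
      by_cases haD : a ∈ D
      · refine ⟨f, ?_, f2, fun x hx hxD => f3 x ?_ hxD⟩
        · have : D ∪ insert a E = D ∪ E := by
            ext x
            simp only [mem_union, mem_insert]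
            constructor
            · rintro (h | rfl | h)
              · exact Or.inl h
              · exact Or.inl haD
              · exact Or.inr h
            · rintro (h | h)
              · exact Or.inl h
              · exact Or.inr (Or.inr h)
          rw [this]
          exact f1
        · rcases mem_insert.1 hx with rfl | h
          · exact absurd haD hxD
          · exact h
      · obtain ⟨y, hy, hy'⟩ := (hC a haD).exists_notMem_finset ((D ∪ E).image f)
        have hne : ∀ x ∈ D ∪ E, x ≠ a := by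
          rintro x hx rfl
          rcases mem_union.1 hx with h | h
          · exact haD h
          · exact ha h
        have hmem : ∀ x, x ∈ D ∪ insert a E → x ≠ a → x ∈ D ∪ E := by
          intro x hx hxa
          simp only [mem_union, mem_insert] at hx ⊢
          tauto
        refine ⟨Function.update f a y, ?_, fun x hx => ?_, fun x hx hxD => ?_⟩
        · intro x hx z hz hxz
          by_cases h1 : x = a <;> by_cases h2 : z = a
          · rw [h1, h2]
          · subst h1
            rw [Function.update_self, Function.update_of_ne h2] at hxz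
            exact absurd (hxz ▸ mem_image_of_mem f (hmem z hz h2)) hy'
          · subst h2
            rw [Function.update_self, Function.update_of_ne h1] at hxz
            exact absurd (hxz ▸ mem_image_of_mem f (hmem x hx h1)) hy'
          · rw [Function.update_of_ne h1, Function.update_of_ne h2] at hxz
            exact f1 (hmem x hx h1) (hmem z hz h2) hxz
        · rw [Function.update_of_ne (hne x (mem_union_left _ hx))]
          exact f2 x hx
        · by_cases h1 : x = a
          · subst h1
            rw [Function.update_self]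
            exact hy
          · rw [Function.update_of_ne h1]
            exact f3 x ((mem_insert.1 hx).resolve_left h1) hxD
  obtain ⟨f, f1, f2, f3⟩ := key univ
  refine ⟨f, fun x y h => f1 (by simp) (by simp) h, f2, fun x hx => f3 x (mem_univ x) hx⟩

/-- Embedding a graph whose vertices outside `D` are independent. -/
theorem emb_of_core {V U : Type} [Fintype V] {H : SimpleGraph V} {R : U → U → Prop}
    (hR : ∀ x y, R x y → R y x) (D : Finset V) (f₀ : V → U) (hf : Set.InjOn f₀ D)
    (hin : ∀ u ∈ D, ∀ v ∈ D, H.Adj u v → R (f₀ u) (f₀ v))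
    (hout : ∀ u, u ∉ D → ∀ v, H.Adj u v → v ∈ D)
    (hC : ∀ x, x ∉ D → {y | ∀ z, H.Adj x z → R (f₀ z) y}.Infinite) : Emb H R := by
  obtain ⟨f, f1, f2, f3⟩ := exists_extend D f₀ hf _ hC
  refine ⟨f, f1, fun u v huv => ?_⟩
  by_cases hu : u ∈ D <;> by_cases hv : v ∈ D
  · rw [f2 u hu, f2 v hv]
    exact hin u hu v hv huv
  · rw [f2 u hu]
    exact f3 v hv u huv.symm
  · rw [f2 v hv]
    exact hR _ _ (f3 u hu v huv)
  · exact absurd (hout u hu v huv) hv

/-- An injection of a finite set into a finite set, with one prescribed value. -/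
theorem exists_inj_anchor {V U : Type} (S : Finset V) (P : Finset U) (h : S.card ≤ P.card)
    (x : U) (hx : x ∈ P) (v₀ : V) :
    ∃ g : V → U, Set.InjOn g S ∧ (∀ v ∈ S, g v ∈ P) ∧ g v₀ = x := by
  obtain ⟨e, he⟩ := Function.Embedding.exists_of_card_le_finset
    (α := S) (s := P) (by simpa using h)
  let g : V → U := fun v => if hv : v ∈ S then e ⟨v, hv⟩ else x
  have g1 : ∀ v, g v ∈ P := by
    intro v
    by_cases hv : v ∈ S
    · simp only [g, dif_pos hv]
      exact he ⟨_, rfl⟩
    · simp only [g, dif_neg hv]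
      exact hx
  refine ⟨fun v => Equiv.swap (g v₀) x (g v), ?_, fun v _ => ?_, by simp⟩
  · intro a ha b hb hab
    have := (Equiv.swap (g v₀) x).injective hab
    have ha' : a ∈ S := ha
    have hb' : b ∈ S := hb
    simp only [g, dif_pos ha', dif_pos hb'] at this
    exact congrArg Subtype.val (e.injective this)
  · show Equiv.swap (g v₀) x (g v) ∈ P
    rw [Equiv.swap_apply_def]
    split_ifs
    · exact hx
    · exact g1 v₀
    · exact g1 v

theorem exists_inj_of_card {V U : Type} [Nonempty U] (S : Finset V) (P : Finset U)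
    (h : S.card ≤ P.card) : ∃ g : V → U, Set.InjOn g S ∧ ∀ v ∈ S, g v ∈ P := by
  rcases S.eq_empty_or_nonempty with rfl | ⟨v, hv⟩
  · exact ⟨fun _ => Classical.arbitrary U, by simp, by simp⟩
  · obtain ⟨x, hx⟩ := card_pos.1 (lt_of_lt_of_le (card_pos.2 ⟨v, hv⟩) h)
    obtain ⟨g, g1, g2, -⟩ := exists_inj_anchor S P h x hx v
    exact ⟨g, g1, g2⟩

/-- A rooted tree structure. -/
structure Rooted {V : Type} (T : SimpleGraph V) (ρ : V) (par : V → V) (dep : V → ℕ) : Prop where
  root : dep ρ = 0
  adj : ∀ v, v ≠ ρ → T.Adj v (par v)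
  dep : ∀ v, v ≠ ρ → dep (par v) + 1 = dep v
  of_adj : ∀ u v, T.Adj u v → (u ≠ ρ ∧ par u = v) ∨ (v ≠ ρ ∧ par v = u)

/-- The graph can be rooted at each vertex. -/
def Tr {V : Type} (T : SimpleGraph V) : Prop := ∀ ρ, ∃ par dep, Rooted T ρ par dep

theorem rooted_of_dep {V : Type} {T : SimpleGraph V} (hc : T.Preconnected) (ρ : V) (dep : V → ℕ)
    (h0 : dep ρ = 0) (h1 : ∀ u v, T.Adj u v → dep u = dep v + 1 ∨ dep v = dep u + 1)
    (h2 : ∀ v x y, T.Adj v x → T.Adj v y → dep x + 1 = dep v → dep y + 1 = dep v → x = y) :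
    ∃ par, Rooted T ρ par dep := by
  let Q : V → Prop := fun v => Relation.ReflTransGen (fun a b => T.Adj a b ∧ dep b + 1 = dep a) v ρ
  have step : ∀ u v, T.Adj u v → Q u → Q v := by
    intro u v huv hu
    rcases h1 u v huv with h | h
    · rcases Relation.ReflTransGen.cases_head hu with rfl | ⟨w, hw, hw'⟩
      · omega
      · rw [h2 u v w huv hw.1 h.symm hw.2]
        exact hw'
    · exact Relation.ReflTransGen.head ⟨huv.symm, h.symm⟩ hu
  have all : ∀ v, Q v := by
    intro v
    obtain ⟨p⟩ := hc ρ v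
    have : ∀ a b (p : T.Walk a b), Q a → Q b := by
      intro a b p
      induction p with
      | nil => exact id
      | cons h p ih => exact fun ha => ih (step _ _ h ha)
    exact this ρ v p Relation.ReflTransGen.refl
  have ex : ∀ v, ∃ w, v ≠ ρ → T.Adj v w ∧ dep w + 1 = dep v := by
    intro v
    rcases Relation.ReflTransGen.cases_head (all v) with rfl | ⟨w, hw, -⟩
    · exact ⟨v, fun h => absurd rfl h⟩
    · exact ⟨w, fun _ => hw⟩
  choose par hpar using ex
  refine ⟨par, h0, fun v hv => (hpar v hv).1, fun v hv => (hpar v hv).2, fun u v huv => ?_⟩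
  rcases h1 u v huv with h | h
  · have hu : u ≠ ρ := by
      rintro rfl
      omega
    exact Or.inl ⟨hu, h2 u _ _ (hpar u hu).1 huv (hpar u hu).2 h.symm⟩
  · have hv : v ≠ ρ := by
      rintro rfl
      omega
    exact Or.inr ⟨hv, h2 v _ _ (hpar v hv).1 huv.symm (hpar v hv).2 h.symm⟩

theorem tr_of_isTree {V : Type} {T : SimpleGraph V} (hT : T.IsTree) : Tr T := by
  intro ρ
  obtain ⟨par, hpar⟩ := rooted_of_dep hT.connected.preconnected ρ (T.dist ρ) (by simp)
    (fun u v huv => hT.dist_eq_dist_add_one_of_adj ρ huv) (by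
      intro v x y hx hy ex ey
      obtain ⟨p, hp⟩ := hT.connected.exists_walk_length_eq_dist ρ x
      obtain ⟨q, hq⟩ := hT.connected.exists_walk_length_eq_dist ρ y
      have p' : (p.concat hx.symm).IsPath :=
        SimpleGraph.Walk.isPath_of_length_eq_dist _ (by rw [SimpleGraph.Walk.length_concat]; omega)
      have q' : (q.concat hy.symm).IsPath :=
        SimpleGraph.Walk.isPath_of_length_eq_dist _ (by rw [SimpleGraph.Walk.length_concat]; omega)
      have := (hT.existsUnique_path ρ v).unique p' q'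
      obtain ⟨h, -⟩ := SimpleGraph.Walk.concat_inj this
      exact h)
  exact ⟨par, _, hpar⟩

/-- Branches at a vertex. -/
theorem Tr.branch {V : Type} {T : SimpleGraph V} (hT : Tr T) (w : V) :
    ∃ β : V → V, (∀ u, T.Adj w u → β u = u) ∧
      ∀ x y, T.Adj x y → x ≠ w → y ≠ w → β x = β y := by
  obtain ⟨par, dep, h⟩ := hT w
  have key : ∀ x y, x ≠ w → y ≠ w → par x = y → par^[dep x - 1] x = par^[dep y - 1] y := by
    intro x y hx hy hxy
    have h1 := h.dep x hx
    have h2 := h.dep y hy
    rw [hxy] at h1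
    rw [show dep x - 1 = (dep y - 1) + 1 by omega, Function.iterate_succ_apply, hxy]
  refine ⟨fun x => par^[dep x - 1] x, fun u hu => ?_, fun x y hxy hx hy => ?_⟩
  · rcases h.of_adj w u hu with h1 | h1
    · exact absurd rfl h1.1
    · have := h.dep u h1.1
      rw [h1.2, h.root] at this
      simp only []
      rw [show dep u - 1 = 0 by omega]
      rfl
  · rcases h.of_adj x y hxy with h1 | h1
    · exact key x y hx hy h1.2
    · exact (key y x hy hx h1.2).symm

/-- Every edge is a bridge. -/
theorem Tr.bridge {V : Type} [Fintype V] {T : SimpleGraph V} (hT : Tr T) {u w : V}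
    (huw : T.Adj u w) :
    ∃ A : Finset V, u ∈ A ∧ w ∉ A ∧ ∀ x ∈ A, ∀ y, y ∉ A → T.Adj x y → x = u ∧ y = w := by
  obtain ⟨β, b1, b2⟩ := hT.branch w
  refine ⟨univ.filter fun x => x ≠ w ∧ β x = u, by simp [huw.ne, b1 u huw.symm], by simp, ?_⟩
  intro x hx y hy hxy
  simp only [mem_filter, mem_univ, true_and] at hx hy
  have : y = w := by
    by_contra h
    exact hy ⟨h, (b2 x y hxy hx.1 h).symm.trans hx.2⟩
  subst this
  exact ⟨(b1 x hxy.symm).symm.trans hx.2, rfl⟩

end Pool.Agent.Lib.MP_781e3b_co
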