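import Pool.Agent.Lib.MP_781e3b_co.THost

/-!
The standard colouring of the layered host.
-/

set_option linter.unusedVariables false
set_option linter.unusedSectionVars false

namespace Pool.Agent.Lib.MP_781e3b_co

open Finset Classical

variable {h : ℕ} {φ : Type}

/-- The standard colouring. -/
def hcol (χ : φ → φ → Fin 2) : HV h φ → HV h φ → Fin 2
  | .q _ σ _, .o _ _ => σ
  | .o _ _, .q _ σ _ => σ
  | .p _ _ σ _, .q _ _ _ => σ + 1
  | .q _ _ _, .p _ _ σ _ => σ + 1
  | .f _ _ _ _, .p _ _ σ _ => σ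
  | .p _ _ σ _, .f _ _ _ _ => σ
  | .f _ _ _ v, .f _ _ _ v' => χ v v'
  | _, _ => 0

/-- Component labels. -/
noncomputable def hlab (τ : φ → Fin 2 → Prop) (σ : Fin 2) : HV h φ → ℕ × ℕ × ℕ × ℕ
  | .o σ' _ => if σ' = σ then (0, 0, 0, 0) else (4, 0, 0, 0)
  | .q b σ' _ => if σ' = σ then (0, 0, 0, 0) else (1, b, 0, 0)
  | .p b t σ' _ => if σ' = σ then (2, b, t, 0) else (1, b, 0, 0)
  | .f b t r v => if τ v σ then (2, b, t, 0) else (3, b, t, r)

/-- Hub indices. -/
def hhub (σ : Fin 2) : HV h φ → Option (Fin h)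
  | .o σ' i => if σ' = σ then some i else none
  | .q _ σ' i => if σ' = σ then none else some i
  | .p _ _ σ' i => if σ' = σ then some i else none
  | .f _ _ _ _ => none

theorem const_of_preconnected {V A : Type} {Y : SimpleGraph V} (hY : Y.Preconnected) (l : V → A)
    (hl : ∀ u v, Y.Adj u v → l u = l v) (u v : V) : l u = l v := by
  obtain ⟨p⟩ := hY u v
  induction p with
  | nil => rfl
  | cons h p ih => exact (hl _ _ h).trans ih

variable {F : SimpleGraph φ} {τ : φ → Fin 2 → Prop} {χ : φ → φ → Fin 2}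

theorem hlab_eq (h1 : ∀ v w, F.Adj v w → (τ v (χ v w) ↔ τ w (χ v w))) {σ : Fin 2} {x y : HV h φ}
    (hxy : hrel F τ x y) (hc : hcol χ x y = σ) : hlab τ σ x = hlab τ σ y := by
  cases x <;> cases y <;> simp only [hrel, hcol] at hxy hc <;> simp only [hlab]
  · subst hc
    simp [hxy]
  · subst hc
    simp [hxy]
  · obtain ⟨rfl, rfl⟩ := hxy
    rw [if_neg (by omega), if_neg (by omega)]
  · obtain ⟨rfl, rfl⟩ := hxy
    rw [if_neg (by omega), if_neg (by omega)]
  · obtain ⟨rfl, rfl, h3⟩ := hxy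
    subst hc
    simp [h3]
  · obtain ⟨rfl, rfl, h3⟩ := hxy
    subst hc
    simp [h3]
  · obtain ⟨rfl, rfl, rfl, h3⟩ := hxy
    subst hc
    simp only [h1 _ _ h3]

theorem hhub_inj {σ : Fin 2} {x y : HV h φ} (hl : hlab τ σ x = hlab τ σ y)
    (hx : hhub σ x ≠ none) (hxy : hhub σ x = hhub σ y) : x = y := by
  cases x <;> cases y <;> simp only [hlab, hhub] at hl hx hxy <;> (try split_ifs at hl hx hxy) <;>
    simp_all
  omega

theorem hhub_indep {σ : Fin 2} {x y : HV h φ} (hxy : hrel F τ x y) (hc : hcol χ x y = σ)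
    (hx : hhub σ x ≠ none) (hy : hhub σ y ≠ none) : False := by
  cases x <;> cases y <;> simp only [hrel, hcol, hhub] at hxy hc hx hy <;> simp_all

theorem hhub_none {σ : Fin 2} {x y : HV h φ} (hxy : hrel F τ x y) (hc : hcol χ x y = σ)
    (hx : hhub σ x = none) (hy : hhub σ y = none) :
    ∃ b t r v w, x = .f b t r v ∧ y = .f b t r w ∧ F.Adj v w ∧ χ v w = σ := by
  cases x <;> cases y <;> simp only [hrel, hcol, hhub] at hxy hc hx hy
  case f.f =>
    obtain ⟨rfl, rfl, rfl, h3⟩ := hxy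
    exact ⟨_, _, _, _, _, rfl, rfl, h3, hc⟩
  all_goals
    exfalso
    simp_all

theorem hlab_three {σ : Fin 2} {x : HV h φ} {b t r : ℕ} (hx : hlab τ σ x = (3, b, t, r)) :
    ∃ v, x = .f b t r v ∧ ¬ τ v σ := by
  cases x <;> simp only [hlab] at hx <;> split_ifs at hx <;> simp_all

/-- The standard colouring of the layered host. -/
theorem standard [Fintype φ] {V : Type} [Fintype V] {Y : SimpleGraph V} (hY : Y.Preconnected)
    {a : ℕ} (hχ : ∀ v w, χ v w = χ w v) (h1 : ∀ v w, F.Adj v w → (τ v (χ v w) ↔ τ w (χ v w)))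
    (h2 : ∀ σ z, τ z σ → (univ.filter fun y => F.Adj z y ∧ χ z y = σ).card ≤ a)
    (hA : Arrows (lhost h F τ) Y 2) :
    Lo Y h a ∨ ∃ σ, Emb Y fun v w => F.Adj v w ∧ χ v w = σ ∧ ¬ τ v σ := by
  obtain ⟨σ, g, g1, g2⟩ := hA (hcol χ) (by
    intro x y
    cases x <;> cases y <;> simp only [hcol]
    exact hχ _ _)
  have hl := const_of_preconnected hY (fun v => hlab τ σ (g v))
    fun u v huv => hlab_eq h1 (g2 u v huv).1 (g2 u v huv).2
  by_cases h3 : ∃ v₀ b t r, hlab τ σ (g v₀) = (3, b, t, r)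
  · obtain ⟨v₀, b, t, r, e⟩ := h3
    choose ψ k1 k2 using fun v => hlab_three ((hl v v₀).trans e)
    refine Or.inr ⟨σ, ψ, fun u v e => g1 (by rw [k1, k1, e]), fun u v huv => ?_⟩
    have := g2 u v huv
    rw [k1, k1] at this
    exact ⟨this.1.2.2.2, this.2, k2 u⟩
  refine Or.inl ⟨univ.filter fun v => hhub σ (g v) ≠ none, ?_, fun u hu v hv huv => ?_,
    fun v hv => ?_⟩
  · have := card_le_card_of_injOn (s := univ.filter fun v => hhub σ (g v) ≠ none)
      (t := (univ : Finset (Option (Fin h))).erase none) (fun v => hhub σ (g v))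
      (fun v hv => by simpa using hv)
      fun u hu v hv e => g1 (hhub_inj (hl u v) (mem_filter.1 hu).2 e)
    simpa using this
  · exact hhub_indep (g2 u v huv).1 (g2 u v huv).2 (mem_filter.1 hu).2 (mem_filter.1 hv).2
  · simp only [mem_filter, mem_univ, true_and, not_not] at hv ⊢
    rcases (univ.filter fun w => Y.Adj v w ∧ hhub σ (g w) = none).eq_empty_or_nonempty with
      e | ⟨w₀, hw₀⟩
    · rw [e]
      simp
    have key : ∀ w ∈ (univ.filter fun w => Y.Adj v w ∧ hhub σ (g w) = none), ∃ b t r z y,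
        g v = .f b t r z ∧ g w = .f b t r y ∧ F.Adj z y ∧ χ z y = σ := fun w hw =>
      hhub_none (g2 v w (mem_filter.1 hw).2.1).1 (g2 v w (mem_filter.1 hw).2.1).2 hv
        (mem_filter.1 hw).2.2
    obtain ⟨b, t, r, z, y₀, e, -⟩ := key w₀ hw₀
    have hz : τ z σ := by
      by_contra hz
      exact h3 ⟨v, b, t, r, by rw [e]; simp [hlab, hz]⟩
    have : ∀ w, ∃ y, w ∈ (univ.filter fun w => Y.Adj v w ∧ hhub σ (g w) = none) →
        g w = .f b t r y ∧ F.Adj z y ∧ χ z y = σ := by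
      intro w
      by_cases hw : w ∈ (univ.filter fun w => Y.Adj v w ∧ hhub σ (g w) = none)
      · obtain ⟨b', t', r', z', y, e1, e2⟩ := key w hw
        rw [e] at e1
        cases e1
        exact ⟨y, fun _ => e2⟩
      · exact ⟨z, fun h => absurd h hw⟩
    choose ψ hψ using this
    refine le_trans (card_le_card_of_injOn ψ (fun w hw => ?_) fun w hw w' hw' e => g1 ?_)
      (h2 σ z hz)
    · simpa using (hψ w hw).2
    · rw [(hψ w hw).1, (hψ w' hw').1, e]

end Pool.Agent.Lib.MP_781e3b_co
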