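import Pool.Agent.Lib.MP_781e3b_co.TBasic

/-!
Embedding lemmas for trees.
-/

set_option linter.unusedVariables false
set_option linter.unusedSectionVars false

namespace Pool.Agent.Lib.MP_781e3b_co

open Finset Classical

variable {V U : Type} [Fintype V] {H T : SimpleGraph V} {R : U → U → Prop}

/-- `S` is one side of a bipartition. -/
def Cover (H : SimpleGraph V) (S : Finset V) : Prop := ∀ u v, H.Adj u v → (u ∈ S ↔ v ∉ S)

/-- Deleting an independent set of at most `h` vertices leaves maximum degree at most `j`. -/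
def Lo (H : SimpleGraph V) (h j : ℕ) : Prop :=
  ∃ S : Finset V, S.card ≤ h ∧ (∀ u ∈ S, ∀ v ∈ S, ¬ H.Adj u v) ∧
    ∀ v, v ∉ S → (univ.filter fun w => H.Adj v w ∧ w ∉ S).card ≤ j

theorem Lo.mono {h j j' : ℕ} (hl : Lo H h j) (hj : j ≤ j') : Lo H h j' :=
  let ⟨S, h1, h2, h3⟩ := hl
  ⟨S, h1, h2, fun v hv => (h3 v hv).trans hj⟩

theorem lo_zero_iff {h : ℕ} : Lo H h 0 ↔ ∃ S : Finset V, S.card ≤ h ∧ Cover H S := by
  constructor
  · rintro ⟨S, h1, h2, h3⟩
    refine ⟨S, h1, fun u v huv => ⟨fun hu hv => h2 u hu v hv huv, fun hv => ?_⟩⟩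
    by_contra hu
    have := h3 u hu
    rw [Nat.le_zero, card_eq_zero, filter_eq_empty_iff] at this
    exact this (mem_univ v) ⟨huv, hv⟩
  · rintro ⟨S, h1, h2⟩
    refine ⟨S, h1, fun u hu v hv huv => (h2 u v huv).1 hu hv, fun v hv => ?_⟩
    rw [Nat.le_zero, card_eq_zero, filter_eq_empty_iff]
    exact fun w _ hw => hv ((h2 v w hw.1).2 hw.2)

theorem glue_inj (S : Finset V) (β : V → ℕ) (P : ℕ → Finset U)
    (hd : ∀ k l, k ≠ l → Disjoint (P k) (P l)) (g : ℕ → V → U)
    (g1 : ∀ k, Set.InjOn (g k) (S.filter fun v => β v = k))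
    (g2 : ∀ k, ∀ v ∈ S.filter fun v => β v = k, g k v ∈ P k) :
    Set.InjOn (fun v => g (β v) v) S := by
  intro a ha b hb hab
  have ha' : a ∈ S := ha
  have hb' : b ∈ S := hb
  have e : β a = β b := by
    by_contra hne
    have h1 := g2 (β a) a (by simp [ha'])
    have h2 := g2 (β b) b (by simp [hb'])
    simp only [] at hab
    rw [hab] at h1
    exact disjoint_left.1 (hd _ _ hne) h1 h2
  simp only [] at hab
  rw [← e] at hab
  exact g1 (β a) (by simp [ha']) (by simp [hb', e]) hab

/-- Several disjoint systems. -/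
theorem emb_systems [Nonempty U] (hR : ∀ x y, R x y → R y x) {S : Finset V} (hS : Cover H S)
    (β : V → ℕ) (hβ : ∀ u v, H.Adj u v → β u = β v) (P : ℕ → Finset U)
    (hd : ∀ k l, k ≠ l → Disjoint (P k) (P l))
    (hc : ∀ k, (S.filter fun v => β v = k).card ≤ (P k).card)
    (hs : ∀ k, {y | ∀ p ∈ P k, R p y}.Infinite) : Emb H R := by
  choose g g1 g2 using fun k => exists_inj_of_card _ _ (hc k)
  refine emb_of_core hR S (fun v => g (β v) v) (glue_inj S β P hd g g1 g2)
    (fun u hu v hv huv => absurd hv ((hS u v huv).1 hu))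
    (fun u hu v huv => (hS v u huv.symm).2 hu) fun x hx => ?_
  refine (hs (β x)).mono fun y hy z hz => ?_
  refine hy _ ?_
  rw [hβ x z hz]
  exact g2 _ z (by simp [(hS z x hz.symm).2 hx])

/-- One system. -/
theorem emb_system (hR : ∀ x y, R x y → R y x) {S : Finset V} (hS : Cover H S) (P : Finset U)
    (hc : S.card ≤ P.card) (hs : {y | ∀ p ∈ P, R p y}.Infinite) : Emb H R := by
  have : Nonempty U := ⟨hs.nonempty.some⟩
  refine emb_systems hR hS (fun _ => 0) (fun _ _ _ => rfl) (fun k => if k = 0 then P else ∅)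
    (fun k l hkl => ?_) (fun k => ?_) fun k => ?_
  · split_ifs with h1 h2
    · omega
    all_goals simp
  · split_ifs with h1
    · exact (card_filter_le _ _).trans hc
    · simp [Ne.symm h1]
  · split_ifs with h1
    · exact hs
    · exact hs.mono (by simp)

theorem Tr.exists_inner (hT : Tr T) {S : Finset V} (hS : Cover T S) (h2 : 2 ≤ S.card) :
    ∃ w u u', w ∉ S ∧ u ≠ u' ∧ T.Adj w u ∧ T.Adj w u' := by
  obtain ⟨a, ha, b, hb, hab⟩ := one_lt_card.1 h2
  obtain ⟨par, dep, h⟩ := hT a
  have h1 := h.adj b hab.symm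
  have hw : par b ∉ S := (hS _ _ h1).1 hb
  have hwa : par b ≠ a := fun e => hw (e ▸ ha)
  refine ⟨par b, b, par (par b), hw, fun e => ?_, h1.symm, h.adj _ hwa⟩
  have e1 := h.dep b hab.symm
  have e2 := h.dep _ hwa
  rw [← e] at e2
  omega

/-- A vertex joined to hubs of many disjoint systems. -/
theorem Tr.emb_apex (hT : Tr T) (hR : ∀ x y, R x y → R y x) {S : Finset V} (hS : Cover T S)
    {h : ℕ} (hcard : S.card = h + 1) (hh : 1 ≤ h) (y : U) (P : ℕ → Finset U) (x : ℕ → U)
    (hd : ∀ k l, k ≠ l → Disjoint (P k) (P l)) (hc : ∀ k, h ≤ (P k).card)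
    (hy : ∀ k, y ∉ P k) (hx : ∀ k, x k ∈ P k) (hyx : ∀ k, R y (x k))
    (hs : ∀ k, {z | ∀ p ∈ P k, R p z}.Infinite) : Emb T R := by
  obtain ⟨w, u, u', hw, huu, hu, hu'⟩ := hT.exists_inner hS (by omega)
  obtain ⟨β₀, b1, b2⟩ := hT.branch w
  have : Nonempty V := ⟨w⟩
  obtain ⟨ν, hν⟩ := exists_injective_nat V
  let β : V → ℕ := fun v => ν (β₀ v)
  have hcnt : ∀ k, (S.filter fun v => β v = k).card ≤ (P k).card := by
    intro k
    refine le_trans ?_ (hc k)
    have : ∃ v ∈ S, β v ≠ k := by
      by_cases e : β u = k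
      · refine ⟨u', (hS u' w hu'.symm).2 hw, fun e' => huu ?_⟩
        have := hν (e.trans e'.symm)
        rwa [b1 u hu, b1 u' hu'] at this
      · exact ⟨u, (hS u w hu.symm).2 hw, e⟩
    obtain ⟨v, hv, hv'⟩ := this
    have := card_lt_card (s := S.filter fun v => β v = k) (t := S)
      ⟨filter_subset _ _, fun hsub => hv' (mem_filter.1 (hsub hv)).2⟩
    omega
  choose g g1 g2 g3 using fun k =>
    exists_inj_anchor _ _ (hcnt k) (x k) (hx k) (Function.invFun ν k)
  have gi := glue_inj S β P hd g g1 g2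
  have gm : ∀ v ∈ S, g (β v) v ∈ P (β v) := fun v hv => g2 _ v (by simp [hv])
  have ga : ∀ v, T.Adj w v → g (β v) v = x (β v) := by
    intro v hv
    have : Function.invFun ν (β v) = v := by
      simp only [β, b1 v hv]
      exact Function.leftInverse_invFun hν v
    rw [← g3 (β v), this]
  refine emb_of_core hR (insert w S) (Function.update (fun v => g (β v) v) w y) ?_ ?_ ?_ ?_
  · intro a ha b hb hab
    simp only [coe_insert, Set.mem_insert_iff, mem_coe] at ha hb
    by_cases h1 : a = w <;> by_cases h2 : b = w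
    · rw [h1, h2]
    · subst h1
      rw [Function.update_self, Function.update_of_ne h2] at hab
      exact absurd (hab ▸ gm b (hb.resolve_left h2)) (hy _)
    · subst h2
      rw [Function.update_self, Function.update_of_ne h1] at hab
      exact absurd (hab ▸ gm a (ha.resolve_left h1)) (hy _)
    · rw [Function.update_of_ne h1, Function.update_of_ne h2] at hab
      exact gi (ha.resolve_left h1) (hb.resolve_left h2) hab
  · intro a ha b hb hab
    by_cases h1 : a = w
    · subst h1
      rw [Function.update_self, Function.update_of_ne hab.ne.symm, ga b hab]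
      exact hyx _
    · by_cases h2 : b = w
      · subst h2
        rw [Function.update_self, Function.update_of_ne hab.ne, ga a hab.symm]
        exact hR _ _ (hyx _)
      · exact absurd ((mem_insert.1 hb).resolve_left h2)
          ((hS a b hab).1 ((mem_insert.1 ha).resolve_left h1))
  · intro a ha b hab
    exact mem_insert_of_mem ((hS b a hab.symm).2 fun h => ha (mem_insert_of_mem h))
  · intro a ha
    have haw : a ≠ w := fun e => ha (e ▸ mem_insert_self _ _)
    refine (hs (β a)).mono fun z hz b hab => ?_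
    have hb : b ∈ S := (hS b a hab.symm).2 fun h => ha (mem_insert_of_mem h)
    have hbw : b ≠ w := fun e => hw (e ▸ hb)
    rw [Function.update_of_ne hbw]
    refine hz _ ?_
    rw [show β a = β b by simp only [β, b2 a b hab haw hbw]]
    exact gm b hb

/-- Hubs whose common neighbours have infinite degree. -/
theorem Tr.emb_swap (hT : Tr T) (hR : ∀ x y, R x y → R y x) {S : Finset V} (hS : Cover T S)
    {h : ℕ} (hcard : S.card = h + 1) (P : Finset U) (x : ℕ → U) (hc : h ≤ P.card)
    (hxi : Function.Injective x) (hxP : ∀ k, x k ∉ P) (hPx : ∀ k, ∀ p ∈ P, R p (x k))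
    (hs : ∀ k, {z | R (x k) z}.Infinite) : Emb T R := by
  have : Nonempty U := ⟨x 0⟩
  obtain ⟨ρ, hρ⟩ := card_pos.1 (show 0 < S.card by omega)
  obtain ⟨par, dep, hr⟩ := hT ρ
  let M : Finset V := univ.filter fun w => w ∉ S ∧ ∃ c, T.Adj w c ∧ c ≠ par w
  have hM : M.card ≤ P.card := by
    have : ∀ w, ∃ c, w ∈ M → T.Adj w c ∧ c ≠ par w := by
      intro w
      by_cases hw : w ∈ M
      · obtain ⟨c, hc⟩ := (mem_filter.1 hw).2.2
        exact ⟨c, fun _ => hc⟩
      · exact ⟨w, fun h => absurd h hw⟩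
    choose c hcw using this
    have hp : ∀ w ∈ M, c w ≠ ρ ∧ par (c w) = w := by
      intro w hw
      rcases hr.of_adj _ _ (hcw w hw).1 with h1 | h1
      · exact absurd h1.2.symm (hcw w hw).2
      · exact h1
    have := card_le_card_of_injOn (s := M) (t := S.erase ρ) c (fun w hw => by
      simp only [coe_erase, Set.mem_sdiff, mem_coe, Set.mem_singleton_iff]
      exact ⟨(hS _ _ (hcw w hw).1.symm).2 (mem_filter.1 hw).2.1, (hp w hw).1⟩)
      (fun a ha b hb hab => by rw [← (hp a ha).2, ← (hp b hb).2, hab])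
    rw [card_erase_of_mem hρ] at this
    omega
  obtain ⟨g, g1, g2⟩ := exists_inj_of_card M P hM
  obtain ⟨ν, hν⟩ := exists_injective_nat V
  have hMS : ∀ v, v ∈ S ∪ M → v ∉ S → v ∈ M := fun v hv hv' => (mem_union.1 hv).resolve_left hv'
  refine emb_of_core hR (S ∪ M) (fun v => if v ∈ S then x (ν v) else g v) ?_ ?_ ?_ ?_
  · intro a ha b hb hab
    simp only [] at hab
    by_cases h1 : a ∈ S <;> by_cases h2 : b ∈ S
    · rw [if_pos h1, if_pos h2] at hab
      exact hν (hxi hab)
    · rw [if_pos h1, if_neg h2] at hab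
      exact absurd (hab ▸ g2 b (hMS b hb h2)) (hxP _)
    · rw [if_neg h1, if_pos h2] at hab
      exact absurd (hab ▸ g2 a (hMS a ha h1)) (hxP _)
    · rw [if_neg h1, if_neg h2] at hab
      exact g1 (hMS a ha h1) (hMS b hb h2) hab
  · intro a ha b hb hab
    by_cases h1 : a ∈ S
    · have h2 := (hS a b hab).1 h1
      simp only [if_pos h1, if_neg h2]
      exact hR _ _ (hPx _ _ (g2 b (hMS b hb h2)))
    · have h2 := (hS b a hab.symm).2 h1
      simp only [if_neg h1, if_pos h2]
      exact hPx _ _ (g2 a (hMS a ha h1))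
  · intro a ha b hab
    exact mem_union_left _ ((hS b a hab.symm).2 fun h => ha (mem_union_left _ h))
  · intro a ha
    have haS : a ∉ S := fun h => ha (mem_union_left _ h)
    refine (hs (ν (par a))).mono fun z hz b hab => ?_
    have hb : b ∈ S := (hS b a hab.symm).2 haS
    have : b = par a := by
      by_contra e
      exact ha (mem_union_right _ (mem_filter.2 ⟨mem_univ _, haS, b, hab, e⟩))
    simp only [if_pos hb]
    rw [this]
    exact hz

end Pool.Agent.Lib.MP_781e3b_co
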