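import Pool.Agent.Lib.MP_781e3b_co.TCol

/-!
The two test graphs.
-/

set_option linter.unusedVariables false
set_option linter.unusedSectionVars false

namespace Pool.Agent.Lib.MP_781e3b_co

open Finset Classical

variable {V W : Type} [Fintype V] [Fintype W] {T : SimpleGraph V} {Y : SimpleGraph W}

theorem exists_edge {h a : ℕ} (hl : ¬ Lo T h a) : ∃ u v, T.Adj u v := by
  by_contra hcon
  push Not at hcon
  exact hl ⟨∅, by simp, by simp, fun v _ => by simp [hcon]⟩

/-- A star with `2 * a` leaves. -/
def starG (a : ℕ) : SimpleGraph (Option (Fin 2 × Fin a)) where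
  Adj x y := (x = none ∧ y ≠ none) ∨ (y = none ∧ x ≠ none)
  symm := ⟨fun _ _ h => h.symm⟩
  loopless := ⟨by simp⟩

/-- The balanced colouring of the star. -/
def starC (a : ℕ) : Option (Fin 2 × Fin a) → Option (Fin 2 × Fin a) → Fin 2
  | none, some k => k.1
  | some k, none => k.1
  | _, _ => 0

theorem not_lo_transfer {h a : ℕ} (hT : T.Preconnected) (hl : ¬ Lo T h a) (hY : Tr Y)
    {S : Finset W} (hS : Cover Y S) (hcard : S.card = h + 1) (hi : Imp Y T) : ¬ Lo Y h a := by
  intro hlo
  have hA : Arrows (lhost h (starG a) fun _ _ => True) Y 2 := by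
    by_contra hna
    obtain ⟨χ, -, -, h3⟩ := force hY hS hcard hlo (ω := none) (fun _ => trivial) hna
    have h0 : (univ.filter fun y => (starG a).Adj none y ∧ True ∧ χ none y = 0).card < a := by
      convert h3 0 none trivial
    have h1 : (univ.filter fun y => (starG a).Adj none y ∧ True ∧ χ none y = 1).card < a := by
      convert h3 1 none trivial
    have h2 := card_le_card (show (univ.erase none : Finset (Option (Fin 2 × Fin a))) ⊆
        (univ.filter fun y => (starG a).Adj none y ∧ True ∧ χ none y = 0) ∪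
          univ.filter fun y => (starG a).Adj none y ∧ True ∧ χ none y = 1 by
      intro y hy
      have h4 : (starG a).Adj none y := Or.inl ⟨rfl, (mem_erase.1 hy).1⟩
      have : χ none y = 0 ∨ χ none y = 1 := by omega
      simpa [h4] using this)
    have h4 := card_union_le (univ.filter fun y => (starG a).Adj none y ∧ True ∧ χ none y = 0)
      (univ.filter fun y => (starG a).Adj none y ∧ True ∧ χ none y = 1)
    rw [card_erase_of_mem (mem_univ _)] at h2
    simp only [card_univ, Fintype.card_option, Fintype.card_prod, Fintype.card_fin] at h2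
    omega
  refine (standard (a := a) (χ := starC a) hT (fun v w => by cases v <;> cases w <;> rfl)
    (fun _ _ _ => Iff.rfl) (fun σ z _ => ?_) (hi _ _ hA)).elim hl fun ⟨σ, f, _, f2⟩ => ?_
  swap
  · obtain ⟨u, v, huv⟩ := exists_edge hl
    exact (f2 u v huv).2.2 trivial
  · cases z with
    | none =>
      refine le_trans (card_le_card (t := univ.image fun k : Fin a => some (σ, k)) fun y hy => ?_)
        (card_image_le.trans (by simp))
      obtain ⟨h1, h2⟩ := (mem_filter.1 hy).2
      cases y with
      | none => exact absurd h1 (starG a).irrefl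
      | some k => exact mem_image.2 ⟨k.2, mem_univ _, by rw [← h2]; rfl⟩
    | some k =>
      refine le_trans (card_le_card (t := {none}) fun y hy => ?_) ((card_singleton _).trans_le k.2.pos)
      simpa [starG] using (mem_filter.1 hy).2.1

/-- Vertices of the main test graph. -/
abbrev GV (V : Type) (a m : ℕ) : Type := Option (V ⊕ V × Fin (a + 1) × Option (Fin m))

/-- Adjacency of the main test graph. -/
def grel (T : SimpleGraph V) (a m : ℕ) : GV V a m → GV V a m → Prop
  | some (.inl v), some (.inl w) => T.Adj v w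
  | some (.inl v), some (.inr x) => v = x.1 ∧ x.2.1 ≠ 0 ∧ x.2.2 = none
  | some (.inr x), some (.inl v) => v = x.1 ∧ x.2.1 ≠ 0 ∧ x.2.2 = none
  | some (.inr x), some (.inr y) => x.1 = y.1 ∧ ((x.2.1 = y.2.1 ∧ x.2.2 ≠ y.2.2) ∨
      (x.2.1 ≠ y.2.1 ∧ x.2.2 = y.2.2 ∧ x.2.2 ≠ none))
  | _, _ => False

/-- The main test graph. -/
def gad (T : SimpleGraph V) (a m : ℕ) : SimpleGraph (GV V a m) where
  Adj := grel T a m
  symm := ⟨by
    rintro (_ | x | x) (_ | y | y) hxy <;> simp only [grel] at hxy ⊢
    · exact hxy.symm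
    · exact hxy
    · exact hxy
    · grind⟩
  loopless := ⟨by
    rintro (_ | x | x) hx <;> simp [grel] at hx⟩

/-- The standard colouring of the main test graph. -/
def gcol (V : Type) (a m : ℕ) : GV V a m → GV V a m → Fin 2
  | some (.inl _), some (.inl _) => 1
  | some (.inr x), some (.inr y) => if x.2.1 = y.2.1 then 1 else 0
  | _, _ => 0

/-- Component labels in the main test graph. -/
def glab (V : Type) (a m : ℕ) : GV V a m → Option (Option (V × Fin (a + 1)))
  | none => none
  | some (.inl _) => some none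
  | some (.inr x) => some (some (x.1, x.2.1))

theorem gad_standard {h a m : ℕ} (hY : Y.Preconnected) (hl : ¬ Lo Y h a)
    (hm : m + 2 ≤ Fintype.card W)
    (hA : Arrows (lhost h (gad T a m) fun x σ => x = none ∨ σ = 0) Y 2) : Emb Y T.Adj := by
  refine (standard (a := a) (χ := gcol V a m) hY ?_ ?_ ?_ hA).elim (fun h1 => absurd h1 hl)
    fun ⟨σ, f, f1, f2⟩ => ?_
  rotate_right
  · obtain ⟨u₀, v₀, h0⟩ := exists_edge hl
    obtain rfl : σ = 1 := by
      have := (f2 u₀ v₀ h0).2.2
      omega
    have hc := const_of_preconnected hY (fun v => glab V a m (f v)) fun u v huv => by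
      obtain ⟨k1, k2, -⟩ := f2 u v huv
      generalize f u = x at *
      generalize f v = y at *
      rcases x with _ | x | x <;> rcases y with _ | y | y <;>
        simp [gad, grel, gcol, glab] at k1 k2 ⊢
      exact ⟨k1.1, k2⟩
    rcases e : f u₀ with _ | x | x
    · exact absurd (Or.inl e) (f2 u₀ v₀ h0).2.2
    · have : ∀ v, ∃ y, f v = some (.inl y) := by
        intro v
        have := hc v u₀
        rw [e] at this
        rcases e' : f v with _ | y | y <;> simp [e', glab] at this ⊢
      choose ψ hψ using this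
      refine ⟨ψ, fun u v huv => f1 (by rw [hψ, hψ, huv]), fun u v huv => ?_⟩
      have := (f2 u v huv).1
      rwa [hψ, hψ] at this
    · have : ∀ v, ∃ y, f v = some (.inr (x.1, x.2.1, y)) := by
        intro v
        have := hc v u₀
        rw [e] at this
        rcases e' : f v with _ | y | ⟨y1, y2, y3⟩ <;> simp [e', glab] at this ⊢
        exact this
      choose ψ hψ using this
      have := Fintype.card_le_of_injective ψ fun u v huv => f1 (by rw [hψ, hψ, huv])
      simp at this
      omega
  · rintro (_ | x | x) (_ | y | y) <;> simp [gcol, eq_comm]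
  · rintro (_ | x | x) (_ | y | y) hxy <;> simp [gad, grel] at hxy ⊢
  · rintro σ (_ | x | ⟨v, κ, _ | p⟩) hz
    · simp [gad, grel]
    all_goals obtain rfl : σ = 0 := by simpa using hz
    · refine le_trans (card_le_card (t := (univ.erase 0).image fun κ : Fin (a + 1) =>
        (some (.inr (x, κ, none)) : GV V a m)) fun y hy => ?_) (card_image_le.trans (by simp))
      obtain ⟨h1, h2⟩ := (mem_filter.1 hy).2
      rcases y with _ | y | ⟨y1, y2, y3⟩ <;> simp [gad, grel, gcol] at h1 h2 ⊢
      grind
    · by_cases hκ : κ = 0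
      · rw [filter_eq_empty_iff.2]
        · simp
        rintro (_ | y | ⟨y1, y2, y3⟩) - ⟨h1, h2⟩ <;> simp [gad, grel, gcol] at h1 h2 <;> grind
      · refine le_trans (card_le_card (t := {some (.inl v)}) fun y hy => ?_) (by simp; omega)
        obtain ⟨h1, h2⟩ := (mem_filter.1 hy).2
        rcases y with _ | y | ⟨y1, y2, y3⟩ <;> simp [gad, grel, gcol] at h1 h2 ⊢ <;> grind
    · refine le_trans (card_le_card (t := (univ.erase κ).image fun κ' : Fin (a + 1) =>
        (some (.inr (v, κ', some p)) : GV V a m)) fun y hy => ?_) (card_image_le.trans (by simp))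
      obtain ⟨h1, h2⟩ := (mem_filter.1 hy).2
      rcases y with _ | y | ⟨y1, y2, y3⟩ <;> simp [gad, grel, gcol] at h1 h2 ⊢
      grind

theorem gad_arrows {h a m : ℕ} (hT : Tr T) {S : Finset V} (hS : Cover T S)
    (hcard : S.card = h + 1) (hh : 1 ≤ h) (hl : ¬ Lo T h a) (hl' : Lo T h (a + 1))
    (hm : Fintype.card V = m + 2) :
    Arrows (lhost h (gad T a m) fun x σ => x = none ∨ σ = 0) T 2 := by
  by_contra hna
  obtain ⟨χ, hχ, hno, h3⟩ := force hT hS hcard hl' (ω := none) (fun _ => Or.inl rfl) hna
  have hdeg : ∀ z, (univ.filter fun y => (gad T a m).Adj z y ∧ χ z y = 0).card ≤ a := by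
    intro z
    have := h3 0 z (Or.inr rfl)
    simp only [or_true, true_and] at this
    convert Nat.le_of_lt_succ this
  let R : GV V a m → GV V a m → Prop := fun x y => (gad T a m).Adj x y ∧ χ x y = 1
  have hR : ∀ x y, R x y → R y x := fun x y hxy => ⟨hxy.1.symm, hχ x y ▸ hxy.2⟩
  have hI : ∀ x, ¬ R x x := fun x hx => hx.1.ne rfl
  let cl : V → Fin (a + 1) → Option (Fin m) → GV V a m := fun v κ p => some (.inr (v, κ, p))
  have hcl : ∀ v κ p p', p ≠ p' → (gad T a m).Adj (cl v κ p) (cl v κ p') :=
    fun v κ p p' hp => ⟨rfl, Or.inl ⟨rfl, hp⟩⟩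
  have hdense : ∀ v κ, ∀ x ∈ univ.image (cl v κ),
      m ≤ ((univ.image (cl v κ)).filter (R x)).card + a := by
    intro v κ x hx
    obtain ⟨p, -, rfl⟩ := mem_image.1 hx
    have h1 := card_le_card (show (univ.erase p).image (cl v κ) ⊆
        (univ.image (cl v κ)).filter (R (cl v κ p)) ∪
          univ.filter fun y => (gad T a m).Adj (cl v κ p) y ∧ χ (cl v κ p) y = 0 by
      intro y hy
      obtain ⟨p', hp', rfl⟩ := mem_image.1 hy
      have h4 := hcl v κ p p' (mem_erase.1 hp').1.symm
      rcases (by omega : χ (cl v κ p) (cl v κ p') = 1 ∨ χ (cl v κ p) (cl v κ p') = 0) with h5 | h5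
      · exact mem_union_left _ (mem_filter.2 ⟨mem_image_of_mem _ (mem_univ _), h4, h5⟩)
      · exact mem_union_right _ (mem_filter.2 ⟨mem_univ _, h4, h5⟩))
    rw [card_image_of_injective _ (fun x y e => by simpa [cl] using e),
      card_erase_of_mem (mem_univ _)] at h1
    have h2 := card_union_le ((univ.image (cl v κ)).filter (R (cl v κ p)))
      (univ.filter fun y => (gad T a m).Adj (cl v κ p) y ∧ χ (cl v κ p) y = 0)
    have h4 := hdeg (cl v κ p)
    simp only [card_univ, Fintype.card_option, Fintype.card_fin] at h1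
    omega
  have k1 : ∀ v κ κ' p, κ ≠ κ' → χ (cl v κ (some p)) (cl v κ' (some p)) = 0 := by
    intro v κ κ' p hκ
    by_contra hne
    obtain ⟨u, w, A, a1, a2, a3, a4, a5, a6⟩ := hT.exists_split hS hcard hh hl
    have a7 := card_add_card_compl A
    refine hno 1 (hT.emb_join hR hI a1 a2 a3 a4 (univ.image (cl v κ)) (univ.image (cl v κ')) ?_
      (mem_image_of_mem _ (mem_univ (some p))) (mem_image_of_mem _ (mem_univ (some p)))
      ⟨⟨rfl, Or.inr ⟨hκ, rfl, by simp⟩⟩, by omega⟩ (fun x hx => ?_) fun x hx => ?_)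
    · rw [disjoint_left]
      intro y y1 y2
      obtain ⟨_, -, rfl⟩ := mem_image.1 y1
      obtain ⟨_, -, e⟩ := mem_image.1 y2
      simp only [cl, Option.some.injEq, Sum.inr.injEq, Prod.mk.injEq] at e
      exact hκ e.2.1.symm
    · have := hdense v κ x hx
      convert (by omega : A.card ≤ ((univ.image (cl v κ)).filter (R x)).card + 1)
    · have := hdense v κ' x hx
      convert (by omega : Aᶜ.card ≤ ((univ.image (cl v κ')).filter (R x)).card + 1)
  have sat : ∀ z (κ₀ : Fin (a + 1)) (N : Fin (a + 1) → GV V a m), Function.Injective N →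
      (∀ κ, κ ≠ κ₀ → (gad T a m).Adj z (N κ) ∧ χ z (N κ) = 0) →
      ∀ y, (∀ κ, κ ≠ κ₀ → y ≠ N κ) → (gad T a m).Adj z y → χ z y = 1 := by
    intro z κ₀ N hN h1 y hy hzy
    by_contra hne
    have h2 := card_le_card (show insert y ((univ.erase κ₀).image N) ⊆
        univ.filter fun y => (gad T a m).Adj z y ∧ χ z y = 0 by
      intro x hx
      rcases mem_insert.1 hx with rfl | hx
      · exact mem_filter.2 ⟨mem_univ _, hzy, by omega⟩
      · obtain ⟨κ, hκ, rfl⟩ := mem_image.1 hx
        exact mem_filter.2 ⟨mem_univ _, h1 κ (mem_erase.1 hκ).1⟩)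
    rw [card_insert_of_notMem, card_image_of_injective _ hN, card_erase_of_mem (mem_univ _)] at h2
    · have := hdeg z
      simp only [card_univ, Fintype.card_fin] at h2
      omega
    · intro hx
      obtain ⟨κ, hκ, e⟩ := mem_image.1 hx
      exact hy κ (mem_erase.1 hκ).1 e.symm
  have k2 : ∀ v κ p p', some p ≠ p' → χ (cl v κ (some p)) (cl v κ p') = 1 := by
    intro v κ p p' hp
    refine sat (cl v κ (some p)) κ (fun κ' => cl v κ' (some p)) (fun x y e => by simpa [cl] using e)
      (fun κ' hκ => ⟨⟨rfl, Or.inr ⟨hκ.symm, rfl, by simp⟩⟩, k1 v κ κ' p hκ.symm⟩) _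
      (fun κ' hκ e => hκ.symm ?_) (hcl v κ _ _ hp)
    simp only [cl, Option.some.injEq, Sum.inr.injEq, Prod.mk.injEq] at e
    exact e.2.1
  have k3 : ∀ v κ p p', p ≠ p' → R (cl v κ p) (cl v κ p') := by
    intro v κ p p' hp
    refine ⟨hcl v κ p p' hp, ?_⟩
    cases p with
    | some p => exact k2 v κ p p' hp
    | none =>
      cases p' with
      | none => exact absurd rfl hp
      | some p' => rw [hχ]; exact k2 v κ p' none hp.symm
  have k4 : ∀ v κ, κ ≠ 0 → χ (some (.inl v)) (cl v κ none) = 0 := by
    intro v κ hκ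
    by_contra hne
    have hz : R (some (.inl v)) (cl v κ none) := ⟨⟨rfl, hκ, rfl⟩, by omega⟩
    have : Nontrivial V := Fintype.one_lt_card_iff_nontrivial.1 (by omega)
    obtain ⟨l, π, l1, l2⟩ := hT.exists_leaf
    obtain ⟨e, e1, -, e3⟩ := exists_inj_anchor (univ.erase l) (univ : Finset (Option (Fin m)))
      (by rw [card_erase_of_mem (mem_univ _)]; simp [hm]) none (mem_univ _) π
    refine hno 1 ⟨fun x => if x = l then some (.inl v) else cl v κ (e x), fun x y hxy => ?_,
      fun x y hxy => ?_⟩
    · simp only [] at hxy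
      split_ifs at hxy with h1 h2 h2
      · rw [h1, h2]
      · simp [cl] at hxy
      · simp [cl] at hxy
      · exact e1 (by simp [h1]) (by simp [h2]) (by simpa [cl] using hxy)
    · by_cases h1 : x = l
      · subst h1
        simp only [if_pos, if_neg hxy.ne.symm]
        rw [l2 y hxy, e3]
        exact hz
      · by_cases h2 : y = l
        · subst h2
          simp only [if_pos, if_neg h1]
          rw [l2 x hxy.symm, e3]
          exact hR _ _ hz
        · simp only [if_neg h1, if_neg h2]
          exact k3 v κ _ _ fun e' => hxy.ne (e1 (by simp [h1]) (by simp [h2]) e')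
  refine hno 1 ⟨fun v => some (.inl v), fun x y e => by simpa using e, fun u v huv => ⟨huv, ?_⟩⟩
  exact sat (some (.inl u)) 0 (fun κ => cl u κ none) (fun x y e => by simpa [cl] using e)
    (fun κ hκ => ⟨⟨rfl, hκ, rfl⟩, k4 u κ hκ⟩) _ (fun κ _ => by simp [cl]) huv

end Pool.Agent.Lib.MP_781e3b_co
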