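import Pool.Agent.Lib.MP_781e3b_co.TStar

/-!
A finite host of large degree all of whose small connected subgraphs are trees.
-/

set_option linter.unusedVariables false
set_option linter.unusedSectionVars false

namespace Pool.Agent.Lib.MP_781e3b_co

open Finset Classical

/-- Reduced words of bounded length. -/
def Wd (d g : ℕ) : Type := {l : List (Fin d) // l.IsChain (· ≠ ·) ∧ l.length ≤ g}

instance (d g : ℕ) : Finite (Wd d g) :=
  ((List.finite_length_le (Fin d) g).subset fun l (hl : l.IsChain (· ≠ ·) ∧ l.length ≤ g) =>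
    hl.2).to_subtype

variable {d g : ℕ}

/-- One step in the tree of reduced words. -/
def stepL (g : ℕ) (i : Fin d) (l : List (Fin d)) : List (Fin d) :=
  if l.head? = some i then l.tail else if l.length < g then i :: l else l

theorem stepL_mem (i : Fin d) (l : List (Fin d)) (hl : l.IsChain (· ≠ ·) ∧ l.length ≤ g) :
    (stepL g i l).IsChain (· ≠ ·) ∧ (stepL g i l).length ≤ g := by
  unfold stepL
  split_ifs with h1 h2
  · exact ⟨hl.1.tail, by simp; omega⟩
  · refine ⟨List.isChain_cons.2 ⟨fun y hy e => h1 (e ▸ hy), hl.1⟩, by simp; omega⟩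
  · exact hl

theorem stepL_stepL (i : Fin d) (l : List (Fin d)) (hl : l.IsChain (· ≠ ·) ∧ l.length ≤ g) :
    stepL g i (stepL g i l) = l := by
  by_cases h1 : l.head? = some i
  · cases l with
    | nil => simp at h1
    | cons a t =>
      simp only [List.head?_cons, Option.some.injEq] at h1
      subst h1
      have h2 : t.head? ≠ some a := fun e => (List.isChain_cons.1 hl.1).1 a e rfl
      have h3 : t.length < g := by simpa using hl.2
      simp [stepL, h2, h3]
  · by_cases h2 : l.length < g <;> simp [stepL, h1, h2]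

/-- The generators. -/
def gen (g : ℕ) (i : Fin d) : Equiv.Perm (Wd d g) :=
  Function.Involutive.toPerm (fun l => ⟨stepL g i l.1, stepL_mem i l.1 l.2⟩)
    fun l => Subtype.ext (stepL_stepL i l.1 l.2)

theorem gen_val (i : Fin d) (l : Wd d g) : (gen g i l).1 = stepL g i l.1 := rfl

theorem gen_mul_gen (i : Fin d) : gen g i * gen g i = 1 :=
  Equiv.ext fun l => Subtype.ext (stepL_stepL i l.1 l.2)

/-- The empty word. -/
def nilW (d g : ℕ) : Wd d g := ⟨[], by simp⟩

theorem gen_nil (hg : 0 < g) (i : Fin d) : (gen g i (nilW d g)).1 = [i] := by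
  simp [gen_val, stepL, nilW, hg]

/-- The Cayley graph. -/
def cay (d g : ℕ) : SimpleGraph (Equiv.Perm (Wd d g)) where
  Adj x y := x ≠ y ∧ ∃ i, y = gen g i * x
  symm := ⟨by
    rintro x y ⟨h, i, rfl⟩
    exact ⟨h.symm, i, by rw [← mul_assoc, gen_mul_gen, one_mul]⟩⟩
  loopless := ⟨fun x h => h.1 rfl⟩

theorem stepL_length (i : Fin d) (l : List (Fin d)) (hl : l.length < g) :
    ((stepL g i l).length + 1 = l.length ∧ l.head? = some i) ∨
      (stepL g i l).length = l.length + 1 := by
  unfold stepL
  split_ifs with h1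
  · cases l with
    | nil => simp at h1
    | cons a t => exact Or.inl ⟨by simp, h1⟩
  · simp

theorem stepL_le (i : Fin d) (l : List (Fin d)) : (stepL g i l).length ≤ l.length + 1 := by
  unfold stepL
  split_ifs <;> simp
  omega

theorem tr_of_emb_cay {V : Type} [Fintype V] {Y : SimpleGraph V} (hY : Y.Preconnected)
    (hg : Fintype.card V ≤ g) (he : Emb Y (cay d g).Adj) : Tr Y := by
  obtain ⟨f, f1, f2⟩ := he
  intro ρ
  let w : V → List (Fin d) := fun v => (f v ((f ρ)⁻¹ (nilW d g))).1
  have hw : ∀ u v, Y.Adj u v → ∃ i, f v = gen g i * f u ∧ w v = stepL g i (w u) := by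
    intro u v huv
    obtain ⟨-, i, hi⟩ := f2 u v huv
    exact ⟨i, hi, by simp only [w, hi]; rfl⟩
  have h0 : (w ρ).length = 0 := by simp [w, nilW]
  have hlt : ∀ v, (w v).length < g := by
    intro v
    have : ∀ a b (p : Y.Walk a b), (w b).length ≤ (w a).length + p.length := by
      intro a b p
      induction p with
      | nil => simp
      | cons h p ih =>
        obtain ⟨i, -, hi⟩ := hw _ _ h
        have := (congrArg List.length hi).trans_le (stepL_le i _)
        rw [SimpleGraph.Walk.length_cons]
        omega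
    obtain ⟨p, hp⟩ := (hY ρ v).exists_isPath
    have h1 := this ρ v p
    have h2 := hp.length_lt
    omega
  obtain ⟨par, hpar⟩ := rooted_of_dep hY ρ (fun v => (w v).length) h0 (fun u v huv => by
    obtain ⟨i, -, hi⟩ := hw u v huv
    have := stepL_length i (w u) (hlt u)
    rw [← hi] at this
    omega) (fun v x y hx hy ex ey => by
    obtain ⟨i, i1, i2⟩ := hw v x hx
    obtain ⟨j, j1, j2⟩ := hw v y hy
    have h1 := stepL_length i (w v) (hlt v)
    have h2 := stepL_length j (w v) (hlt v)
    rw [← i2] at h1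
    rw [← j2] at h2
    have h3 := (h1.resolve_right (by omega)).2
    have h4 := (h2.resolve_right (by omega)).2
    obtain rfl : i = j := by simpa [h3] using h4
    exact f1 (i1.trans j1.symm))
  exact ⟨par, _, hpar⟩

theorem exists_core {U : Type} {R : U → U → Prop} (hR : ∀ x y, R x y → R y x) (hi : ∀ x, ¬ R x x)
    (k : ℕ) (X : Finset U) (hX : X.Nonempty)
    (hs : 2 * k * X.card ≤ ∑ x ∈ X, (X.filter (R x)).card) :
    ∃ X' : Finset U, X'.Nonempty ∧ ∀ x ∈ X', k ≤ (X'.filter (R x)).card := by
  induction hn : X.card using Nat.strong_induction_on generalizing X with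
  | _ n ih =>
  by_cases hall : ∀ x ∈ X, k ≤ (X.filter (R x)).card
  · exact ⟨X, hX, hall⟩
  push Not at hall
  obtain ⟨x, hx, hlt⟩ := hall
  have hc := card_erase_add_one hx
  have e1 := add_sum_erase X (fun y => (X.filter (R y)).card) hx
  have e2 : ∑ y ∈ X.erase x, (X.filter (R y)).card ≤
      ∑ y ∈ X.erase x, (((X.erase x).filter (R y)).card + if R x y then 1 else 0) := by
    refine sum_le_sum fun y hy => ?_
    split_ifs with h
    · rw [filter_erase]
      exact Nat.le_add_of_sub_le pred_card_le_card_erase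
    · rw [filter_erase, erase_eq_of_notMem (by simp; exact fun _ h' => h (hR _ _ h'))]
      omega
  rw [sum_add_distrib, ← card_filter] at e2
  have e3 : ((X.erase x).filter fun i => R x i).card ≤ (X.filter (R x)).card :=
    card_le_card (filter_subset_filter _ (erase_subset _ _))
  have e4 : 2 * k * (X.erase x).card + 2 * k = 2 * k * X.card := by rw [← hc]; ring
  refine ih _ (by omega) (X.erase x) ?_ (by omega) rfl
  rw [nonempty_iff_ne_empty]
  intro e
  have e5 : (X.filter (R x)).card = 0 := by
    rw [card_eq_zero, filter_eq_empty_iff]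
    intro y hy hxy
    have : y ≠ x := fun e' => hi x (e' ▸ hxy)
    exact notMem_empty y (e ▸ mem_erase.2 ⟨this, hy⟩)
  rw [e] at e1 e4
  simp at e1 e4
  omega

theorem arrows_cay {V : Type} [Fintype V] [Nonempty V] {T : SimpleGraph V} (hT : Tr T)
    (hg : 0 < g) (hd : 4 * Fintype.card V ≤ d) : Arrows (cay d g) T 2 := by
  intro c hc
  have := Fintype.ofFinite (Wd d g)
  let R : Fin 2 → Equiv.Perm (Wd d g) → Equiv.Perm (Wd d g) → Prop :=
    fun i x y => (cay d g).Adj x y ∧ c x y = i
  have hdeg : ∀ x, d ≤ (univ.filter (R 0 x)).card + (univ.filter (R 1 x)).card := by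
    intro x
    refine le_trans ?_ (card_union_le _ _)
    have := card_le_card_of_injOn (s := (univ : Finset (Fin d)))
      (t := univ.filter (R 0 x) ∪ univ.filter (R 1 x)) (fun i => gen g i * x) (fun i _ => by
        have h1 : (cay d g).Adj x (gen g i * x) := by
          refine ⟨fun e => ?_, i, rfl⟩
          have e' : gen g i = 1 := by simpa using e.symm
          have := gen_nil hg i
          rw [e'] at this
          simp [nilW] at this
        have : c x (gen g i * x) = 0 ∨ c x (gen g i * x) = 1 := by omega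
        simpa [R, h1] using this) (fun i _ j _ e => by
        have e' : gen g i = gen g j := mul_right_cancel e
        have := gen_nil hg i
        rw [e', gen_nil hg j] at this
        simpa using this.symm)
    simpa using this
  have hsum := sum_le_sum (s := univ) fun x _ => hdeg x
  rw [sum_add_distrib, sum_const, smul_eq_mul] at hsum
  obtain ⟨i, hi⟩ : ∃ i, 2 * Fintype.card V * (univ : Finset (Equiv.Perm (Wd d g))).card ≤
      ∑ x, (univ.filter (R i x)).card := by
    by_contra hcon
    push Not at hcon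
    have h0 := hcon 0
    have h1 := hcon 1
    have := Nat.mul_le_mul_left (univ : Finset (Equiv.Perm (Wd d g))).card hd
    nlinarith
  have hR : ∀ x y, R i x y → R i y x := fun x y hxy => ⟨hxy.1.symm, hc x y ▸ hxy.2⟩
  have hI : ∀ x, ¬ R i x x := fun x hx => hx.1.ne rfl
  obtain ⟨X, ⟨x₀, hx₀⟩, hX⟩ := exists_core hR hI (Fintype.card V) univ univ_nonempty (by convert hi)
  obtain ⟨par, dep, hr⟩ := hT (Classical.arbitrary V)
  obtain ⟨f, f1, -, -, f4⟩ := hr.greedy hR hI X x₀ hx₀ univ (mem_univ _) (fun _ _ _ => mem_univ _)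
    fun x hx => le_trans (hX x hx) (Nat.le_succ _)
  exact ⟨i, f, fun a b e => f1 (by simp) (by simp) e, fun u v huv => f4 u (by simp) v (by simp) huv⟩

theorem Imp.tr {V W : Type} [Fintype V] [Nonempty V] [Fintype W] {T : SimpleGraph V}
    {Y : SimpleGraph W} (hT : Tr T) (hY : Y.Preconnected) (h : Imp T Y) : Tr Y := by
  obtain ⟨i, f, f1, f2⟩ := h _ _ (arrows_cay (g := Fintype.card W + 1) hT (Nat.succ_pos _) le_rfl)
    (fun _ _ => 0) fun _ _ => rfl
  exact tr_of_emb_cay hY (Nat.le_succ _) ⟨f, f1, fun u v huv => (f2 u v huv).1⟩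

end Pool.Agent.Lib.MP_781e3b_co
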