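import Pool.Agent.Lib.MP_781e3b_co.TStar

/-!
The layered host graph and the forcing lemma.
-/

set_option linter.unusedVariables false
set_option linter.unusedSectionVars false

namespace Pool.Agent.Lib.MP_781e3b_co

open Finset Classical Filter

/-- Vertices of the layered host. -/
inductive HV (h : ℕ) (φ : Type) : Type
  | o (σ : Fin 2) (i : Fin h)
  | q (b : ℕ) (σ : Fin 2) (i : Fin h)
  | p (b t : ℕ) (σ : Fin 2) (i : Fin h)
  | f (b t r : ℕ) (v : φ)

variable {h : ℕ} {φ : Type}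

/-- Adjacency of the layered host. -/
def hrel (F : SimpleGraph φ) (τ : φ → Fin 2 → Prop) : HV h φ → HV h φ → Prop
  | .q _ σ _, .o σ' _ => σ = σ'
  | .o σ' _, .q _ σ _ => σ = σ'
  | .p b _ σ _, .q b' σ' _ => b = b' ∧ σ = σ'
  | .q b' σ' _, .p b _ σ _ => b = b' ∧ σ = σ'
  | .f b t _ v, .p b' t' σ _ => b = b' ∧ t = t' ∧ τ v σ
  | .p b' t' σ _, .f b t _ v => b = b' ∧ t = t' ∧ τ v σ
  | .f b t r v, .f b' t' r' v' => b = b' ∧ t = t' ∧ r = r' ∧ F.Adj v v'
  | _, _ => False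

/-- The layered host. -/
def lhost (h : ℕ) (F : SimpleGraph φ) (τ : φ → Fin 2 → Prop) : SimpleGraph (HV h φ) where
  Adj := hrel F τ
  symm := ⟨by
    intro x y hxy
    cases x <;> cases y <;> simp only [hrel] at hxy ⊢ <;> first | exact hxy | skip
    exact ⟨hxy.1.symm, hxy.2.1.symm, hxy.2.2.1.symm, hxy.2.2.2.symm⟩⟩
  loopless := ⟨by
    intro x hx
    cases x <;> simp [hrel] at hx⟩

theorem finite_of_seq {s : Set ℕ}
    (hs : ∀ x : ℕ → ℕ, Function.Injective x → (∀ k, x k ∈ s) → False) : s.Finite := by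
  by_contra hi
  exact hs (fun k => Set.Infinite.natEmbedding s hi k)
    (fun a b hab => (Set.Infinite.natEmbedding s hi).injective (Subtype.ext hab))
    fun k => (Set.Infinite.natEmbedding s hi k).2

theorem ev_of_seq {p : ℕ → Prop}
    (hs : ∀ x : ℕ → ℕ, Function.Injective x → (∀ k, ¬ p (x k)) → False) :
    ∀ᶠ k in cofinite, p k := finite_of_seq hs

theorem fin2_eq {a b c : Fin 2} (h1 : a ≠ b) (h2 : c ≠ b) : a = c := by omega

/-- The hubs of one unit that receive colour `i`. -/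
noncomputable def hubs (φ : Type) (b t : ℕ) (κ : Fin 2 × Fin h → Fin 2) (i : Fin 2) :
    Finset (HV h φ) := (univ.filter fun x => κ x = i).image fun x => .p b t x.1 x.2

theorem card_hubs (b t : ℕ) (κ : Fin 2 × Fin h → Fin 2) (i : Fin 2) :
    (hubs φ b t κ i).card = (univ.filter fun x => κ x = i).card := by
  refine card_image_of_injective _ fun x y hxy => ?_
  simp only [HV.p.injEq, true_and] at hxy
  exact Prod.ext hxy.1 hxy.2

theorem card_hubs_add (b t : ℕ) (κ : Fin 2 × Fin h → Fin 2) :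
    (hubs φ b t κ 0).card + (hubs φ b t κ 1).card = 2 * h := by
  rw [card_hubs, card_hubs]
  have := card_filter_add_card_filter_not (s := (univ : Finset (Fin 2 × Fin h))) fun x => κ x = 0
  rw [show (univ.filter fun x => κ x = 1) = univ.filter fun x => ¬ κ x = 0 from
    filter_congr fun x _ => by omega, this]
  simp

theorem hubs_disjoint (b : ℕ) {t t' : ℕ} (ht : t ≠ t') (κ κ' : Fin 2 × Fin h → Fin 2)
    (i i' : Fin 2) : Disjoint (hubs φ b t κ i) (hubs φ b t' κ' i') := by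
  rw [disjoint_left]
  intro x h1 h2
  obtain ⟨y, -, rfl⟩ := mem_image.1 h1
  obtain ⟨z, -, e⟩ := mem_image.1 h2
  simp only [HV.p.injEq] at e
  exact ht e.2.1.symm

variable {F : SimpleGraph φ} {τ : φ → Fin 2 → Prop}

theorem exists_pattern (c : HV h φ → HV h φ → Fin 2) {ω : φ} (hω : ∀ σ, τ ω σ) (b t : ℕ) :
    ∃ κ : Fin 2 × Fin h → Fin 2, ∀ i,
      {y | ∀ x ∈ hubs φ b t κ i, (lhost h F τ).Adj x y ∧ c x y = i}.Infinite := by
  obtain ⟨κ, hκ⟩ := Finite.exists_infinite_fiber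
    fun (r : ℕ) (x : Fin 2 × Fin h) => c (.p b t x.1 x.2) (.f b t r ω)
  refine ⟨κ, fun i => ?_⟩
  refine ((Set.infinite_coe_iff.1 hκ).image (f := fun r => (HV.f b t r ω : HV h φ))
    fun _ _ _ _ e => by simpa using e).mono ?_
  rintro _ ⟨r, hr, rfl⟩ x hx
  obtain ⟨y, hy, rfl⟩ := mem_image.1 hx
  refine ⟨⟨rfl, rfl, hω _⟩, ?_⟩
  rw [← (mem_filter.1 hy).2, ← Set.mem_singleton_iff.1 hr]

variable {V : Type} [Fintype V] {T : SimpleGraph V}

theorem stage [Fintype φ] (hT : Tr T) {S : Finset V} (hS : Cover T S) (hcard : S.card = h + 1)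
    {ω : φ} (hω : ∀ σ, τ ω σ) (c : HV h φ → HV h φ → Fin 2) (hc : ∀ x y, c x y = c y x)
    (hno : ∀ i, ¬ Emb T fun x y => (lhost h F τ).Adj x y ∧ c x y = i) :
    ∃ (b t : ℕ) (cc : Fin 2 → Fin 2), cc 0 ≠ cc 1 ∧
      ∀ᶠ r in cofinite, ∀ σ i v, τ v σ → c (.p b t σ i) (.f b t r v) = cc σ := by
  rcases Nat.eq_zero_or_pos h with rfl | hh
  · exact ⟨0, 0, id, by simp, Eventually.of_forall fun r σ i => i.elim0⟩
  let R : Fin 2 → HV h φ → HV h φ → Prop := fun i x y => (lhost h F τ).Adj x y ∧ c x y = i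
  have hR : ∀ i x y, R i x y → R i y x := fun i x y hxy => ⟨hxy.1.symm, hc x y ▸ hxy.2⟩
  let j₀ : Fin h := ⟨0, hh⟩
  let Q : ℕ → Fin 2 → Finset (HV h φ) := fun b σ => univ.image (HV.q b σ)
  have hQ : ∀ b σ, h ≤ (Q b σ).card := fun b σ => by
    rw [card_image_of_injective _ fun x y e => by simpa using e]
    simp
  have hB : ∀ᶠ b in cofinite, ∀ σ i, c (.o σ j₀) (.q b σ j₀) = i →
      ¬ {y | ∀ x ∈ Q b σ, R i x y}.Infinite := by
    simp only [eventually_all]
    intro σ i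
    refine ev_of_seq fun x hx hk => hno i ?_
    push Not at hk
    refine hT.emb_apex (hR i) hS hcard hh (.o σ j₀) (fun k => Q (x k) σ) (fun k => .q (x k) σ j₀)
      (fun k l hkl => ?_) (fun k => hQ _ _) (fun k => by simp [Q]) (fun k => by simp [Q])
      (fun k => ⟨rfl, (hk k).1⟩) fun k => (hk k).2
    rw [disjoint_left]
    intro y h1 h2
    obtain ⟨_, -, rfl⟩ := mem_image.1 h1
    obtain ⟨_, -, e⟩ := mem_image.1 h2
    simp only [HV.q.injEq] at e
    exact hkl (hx e.1).symm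
  obtain ⟨b, hb⟩ := hB.exists
  let cc : Fin 2 → Fin 2 := fun σ => c (.o σ j₀) (.q b σ j₀)
  choose κ hκ using fun t => exists_pattern (F := F) c hω b t
  have hκ1 : ∀ t i, (hubs φ b t (κ t) i).card ≤ h := by
    intro t i
    by_contra hlt
    exact hno i (emb_system (hR i) hS _ (by omega) (hκ t i))
  have hκ2 : ∀ t i, h ≤ (hubs φ b t (κ t) i).card := by
    intro t i
    have h0 := hκ1 t 0
    have h1 := hκ1 t 1
    have := card_hubs_add (φ := φ) b t (κ t)
    obtain rfl | rfl : i = 0 ∨ i = 1 := by omega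
    all_goals omega
  have h1 : ∀ᶠ t in cofinite, ∀ σ j i' i, c (.q b σ j) (.p b t σ i') = i → κ t (σ, i') ≠ i := by
    simp only [eventually_all]
    intro σ j i' i
    refine ev_of_seq fun x hx hk => hno i ?_
    push Not at hk
    refine hT.emb_apex (hR i) hS hcard hh (.q b σ j) (fun k => hubs φ b (x k) (κ (x k)) i)
      (fun k => .p b (x k) σ i') (fun k l hkl => hubs_disjoint b (hx.ne hkl) _ _ _ _)
      (fun k => hκ2 _ _) (fun k => by simp [hubs]) (fun k => ?_)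
      (fun k => ⟨⟨rfl, rfl⟩, (hk k).1⟩) fun k => hκ _ _
    exact mem_image.2 ⟨(σ, i'), mem_filter.2 ⟨mem_univ _, (hk k).2⟩, rfl⟩
  have h2 : ∀ᶠ t in cofinite, ∀ σ i', (∀ j, c (.q b σ j) (.p b t σ i') ≠ κ t (σ, i')) →
      κ t (σ, i') = cc σ := by
    simp only [eventually_all]
    intro σ i'
    refine ev_of_seq fun x hx hk => hb σ _ rfl ?_
    push Not at hk
    refine (Set.infinite_range_of_injective (f := fun k => (HV.p b (x k) σ i' : HV h φ))
      fun k l e => hx (by simpa using e)).mono ?_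
    rintro _ ⟨k, rfl⟩ y hy
    obtain ⟨j, -, rfl⟩ := mem_image.1 hy
    exact ⟨⟨rfl, rfl⟩, fin2_eq ((hk k).1 j) (hk k).2.symm⟩
  have h3 : ∀ᶠ t in cofinite, ∀ σ i' i, (∀ j, c (.q b σ j) (.p b t σ i') = i) →
      ¬ {z | R i (.p b t σ i') z}.Infinite := by
    simp only [eventually_all]
    intro σ i' i
    refine ev_of_seq fun x hx hk => hno i ?_
    push Not at hk
    refine hT.emb_swap (hR i) hS hcard (Q b σ) (fun k => .p b (x k) σ i') (hQ _ _)
      (fun k l e => hx (by simpa using e)) (fun k => by simp [Q]) (fun k y hy => ?_)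
      fun k => (hk k).2
    obtain ⟨j, -, rfl⟩ := mem_image.1 hy
    exact ⟨⟨rfl, rfl⟩, (hk k).1 j⟩
  obtain ⟨t, ⟨t1, t2⟩, t3⟩ := ((h1.and h2).and h3).exists
  have t4 : ∀ σ i', κ t (σ, i') = cc σ :=
    fun σ i' => t2 σ i' fun j => (t1 σ j i' _ rfl).symm
  refine ⟨b, t, cc, fun e => ?_, ?_⟩
  · have e1 := hκ1 t (cc 0)
    rw [card_hubs, filter_true_of_mem fun x _ => ?_] at e1
    · simp at e1
      omega
    · obtain ⟨σ, i'⟩ := x
      rw [t4]
      obtain rfl | rfl : σ = 0 ∨ σ = 1 := by omega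
      · rfl
      · exact e.symm
  · simp only [eventually_all]
    intro σ i' v hv
    obtain ⟨i, hi⟩ := exists_ne (cc σ)
    refine ev_of_seq fun x hx hk => t3 σ i' i
      (fun j => fin2_eq (t4 σ i' ▸ (t1 σ j i' _ rfl).symm) hi) ?_
    refine (Set.infinite_range_of_injective (f := fun k => (HV.f b t (x k) v : HV h φ))
      fun k l e => hx (by simpa using e)).mono ?_
    rintro _ ⟨k, rfl⟩
    exact ⟨⟨rfl, rfl, hv⟩, fin2_eq (hk k) hi⟩

/-- The forcing lemma. -/
theorem force [Fintype φ] (hT : Tr T) {S : Finset V} (hS : Cover T S) (hcard : S.card = h + 1)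
    {j : ℕ} (hl : Lo T h j) {ω : φ} (hω : ∀ σ, τ ω σ) (hna : ¬ Arrows (lhost h F τ) T 2) :
    ∃ χ : φ → φ → Fin 2, (∀ x y, χ x y = χ y x) ∧
      (∀ i, ¬ Emb T fun v w => F.Adj v w ∧ χ v w = i) ∧
      ∀ σ z, τ z σ → (univ.filter fun y => F.Adj z y ∧ τ y σ ∧ χ z y = σ).card < j := by
  simp only [Arrows, not_forall] at hna
  obtain ⟨c, hc, hno⟩ := hna
  replace hno : ∀ i, ¬ Emb T fun x y => (lhost h F τ).Adj x y ∧ c x y = i :=
    fun i hi => hno ⟨i, hi⟩
  obtain ⟨b, t, cc, hcc, hr⟩ := stage hT hS hcard hω c hc hno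
  have h1 : ∀ᶠ r in cofinite, ∀ σ z, τ z σ →
      (∀ σ i v, τ v σ → c (.p b t σ i) (.f b t r v) = cc σ) →
      (univ.filter fun y => F.Adj z y ∧ τ y σ ∧ c (.f b t r z) (.f b t r y) = cc σ).card < j := by
    simp only [eventually_all]
    intro σ z hz
    refine ev_of_seq fun x hx hk => hno (cc σ) ?_
    push Not at hk
    have hmem : ∀ k y, y ∈ insert (HV.f b t (x k) z : HV h φ) ((univ.filter fun y => F.Adj z y ∧
        τ y σ ∧ c (.f b t (x k) z) (.f b t (x k) y) = cc σ).image (HV.f b t (x k))) →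
        ∃ v, τ v σ ∧ y = .f b t (x k) v := by
      intro k y hy
      rcases mem_insert.1 hy with rfl | hy
      · exact ⟨z, hz, rfl⟩
      · obtain ⟨v, hv, rfl⟩ := mem_image.1 hy
        exact ⟨v, (mem_filter.1 hv).2.2.1, rfl⟩
    refine hT.emb_stars (fun x y hxy => ⟨hxy.1.symm, hc x y ▸ hxy.2⟩) hS hcard hl
      (univ.image (HV.p b t σ)) ?_ (fun k => .f b t (x k) z)
      (fun k => (univ.filter fun y => F.Adj z y ∧ τ y σ ∧
        c (.f b t (x k) z) (.f b t (x k) y) = cc σ).image (HV.f b t (x k)))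
      (fun k => ?_) (fun k => by simp) (fun k l hkl => ?_) (fun k y hy => ?_) fun k y hy => ?_
    · rw [card_image_of_injective _ fun x y e => by simpa using e]
      simp
    · rw [card_image_of_injective _ fun x y e => by simpa using e]
      exact (hk k).2
    · rw [disjoint_left]
      intro y y1 y2
      obtain ⟨v, -, rfl⟩ := hmem k y y1
      obtain ⟨v', -, e⟩ := hmem l _ y2
      simp only [HV.f.injEq] at e
      exact hkl (hx e.2.2.1)
    · obtain ⟨v, hv, rfl⟩ := hmem k y hy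
      refine ⟨by simp, fun p hp => ?_⟩
      obtain ⟨i, -, rfl⟩ := mem_image.1 hp
      exact ⟨⟨rfl, rfl, hv⟩, (hk k).1 σ i v hv⟩
    · obtain ⟨v, hv, rfl⟩ := mem_image.1 hy
      have := (mem_filter.1 hv).2
      exact ⟨⟨rfl, rfl, rfl, this.1⟩, this.2.2⟩
  obtain ⟨r, r1, r2⟩ := (hr.and h1).exists
  have key : ∀ (d σ : Fin 2), (if d = cc 0 then (0 : Fin 2) else 1) = σ ↔ d = cc σ := by
    intro d σ
    obtain rfl | rfl : σ = 0 ∨ σ = 1 := by omega
    all_goals
      split_ifs <;> omega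
  refine ⟨fun v w => if c (.f b t r v) (.f b t r w) = cc 0 then 0 else 1,
    fun x y => by simp only []; rw [hc], fun i ⟨g, g1, g2⟩ => hno (cc i) ⟨fun v => .f b t r (g v),
      fun a a' e => g1 (by simpa using e), fun u v huv => ?_⟩, fun σ z hz => ?_⟩
  · exact ⟨⟨rfl, rfl, rfl, (g2 u v huv).1⟩, (key _ _).1 (g2 u v huv).2⟩
  · simp only [key]
    exact r2 σ z hz r1

end Pool.Agent.Lib.MP_781e3b_co
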