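import Pool.Agent.Lib.MP_781e3b_co.TGadget
import Pool.Agent.Lib.MP_781e3b_co.TGirth

/-!
Trees are determined, up to isolated vertices, by their Ramsey class in two colours.
-/

set_option linter.unusedVariables false
set_option linter.unusedSectionVars false

namespace Pool.Agent.Lib.MP_781e3b_co

open Finset Classical

variable {V W : Type} [Fintype V] [Fintype W] {T : SimpleGraph V} {Y H : SimpleGraph W}

theorem exists_adj (hT : T.Preconnected) {u v : V} (huv : u ≠ v) : ∃ w, T.Adj u w := by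
  obtain ⟨p⟩ := hT u v
  cases p with
  | nil => exact absurd rfl huv
  | cons h _ => exact ⟨_, h⟩

theorem star_adj (hT : T.Preconnected) {c : V} (hS : Cover T {c}) {v : V} (hv : v ≠ c) :
    T.Adj c v := by
  obtain ⟨w, hw⟩ := exists_adj hT hv
  have := hS w v hw.symm
  simp only [mem_singleton] at this
  exact this.2 hv ▸ hw.symm

theorem lo_card (T : SimpleGraph V) (h : ℕ) : Lo T h (Fintype.card V - 1) := by
  refine ⟨∅, by simp, by simp, fun v _ => ?_⟩
  have := card_le_card (show (univ.filter fun w => T.Adj v w ∧ w ∉ (∅ : Finset V)) ⊆ univ.erase v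
    from fun w hw => mem_erase.2 ⟨(mem_filter.1 hw).2.1.ne.symm, mem_univ _⟩)
  rwa [card_erase_of_mem (mem_univ _)] at this

theorem emb_of_imp {h : ℕ} (hT : Tr T) (hTc : T.Preconnected) {S : Finset V} (hS : Cover T S)
    (hcard : S.card = h + 1) (hl : ¬ Lo T h 0) (hY : Tr Y) (hYc : Y.Preconnected) {S' : Finset W}
    (hS' : Cover Y S') (hcard' : S'.card = h + 1) (h1 : Imp T Y) (h2 : Imp Y T)
    (hle : Fintype.card V ≤ Fintype.card W) : Emb Y T.Adj := by
  rcases Nat.eq_zero_or_pos h with rfl | hh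
  · obtain ⟨c, rfl⟩ := card_eq_one.1 hcard
    obtain ⟨c', rfl⟩ := card_eq_one.1 hcard'
    have hle' : Fintype.card W ≤ Fintype.card V := by
      by_contra hlt
      refine not_lo_transfer hYc (a := Fintype.card V - 1) ?_ hT hS hcard h1 (lo_card T 0)
      rintro ⟨X, x1, -, x3⟩
      obtain rfl : X = ∅ := by simpa using x1
      have h3 := x3 c' (by simp)
      have h4 := card_le_card (show univ.erase c' ⊆
        (univ.filter fun w => Y.Adj c' w ∧ w ∉ (∅ : Finset W)) from fun w hw =>
          mem_filter.2 ⟨mem_univ _, star_adj hYc hS' (mem_erase.1 hw).1, by simp⟩)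
      rw [card_erase_of_mem (mem_univ _), card_univ] at h4
      have : 0 < Fintype.card V := Fintype.card_pos_iff.2 ⟨c⟩
      omega
    obtain ⟨g, g1, -, g3⟩ := exists_inj_anchor (univ : Finset W) (univ : Finset V) hle' c
      (mem_univ _) c'
    have gi : Function.Injective g := fun x y e => g1 (by simp) (by simp) e
    refine ⟨g, gi, fun u v huv => ?_⟩
    have := hS' u v huv
    simp only [mem_singleton] at this
    by_cases hu : u = c'
    · rw [hu, g3]
      exact star_adj hTc hS fun e => this.1 hu (gi (e.trans g3.symm))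
    · have hv : v = c' := by tauto
      rw [hv, g3]
      exact (star_adj hTc hS fun e => hu (gi (e.trans g3.symm))).symm
  · have hex : ∃ j, Lo T h j := ⟨_, lo_card T h⟩
    obtain ⟨a, ha⟩ : ∃ a, Nat.find hex = a + 1 := by
      refine Nat.exists_eq_succ_of_ne_zero fun e => hl ?_
      exact e ▸ Nat.find_spec hex
    have a1 : Lo T h (a + 1) := ha ▸ Nat.find_spec hex
    have a2 : ¬ Lo T h a := Nat.find_min hex (by omega)
    obtain ⟨m, hm⟩ : ∃ m, Fintype.card V = m + 2 := by
      have := card_le_univ S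
      exact ⟨Fintype.card V - 2, by omega⟩
    exact gad_standard hYc (not_lo_transfer hTc a2 hY hS' hcard' h2) (hm ▸ hle)
      (h1 _ _ (gad_arrows hT hS hcard hh a2 a1 hm))

theorem iso_of_emb (hT : Tr T) (hYc : Y.Preconnected) (he : Emb Y T.Adj)
    (hle : Fintype.card V ≤ Fintype.card W) :
    ∃ e : W ≃ V, ∀ u v, Y.Adj u v ↔ T.Adj (e u) (e v) := by
  obtain ⟨g, g1, g2⟩ := he
  have hb : Function.Bijective g := (Fintype.bijective_iff_injective_and_card g).2
    ⟨g1, le_antisymm (Fintype.card_le_of_injective g g1) hle⟩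
  refine ⟨Equiv.ofBijective g hb, fun x y => ⟨g2 x y, fun hxy => ?_⟩⟩
  obtain ⟨A, a1, a2, a3⟩ := hT.bridge (show T.Adj (g x) (g y) from hxy)
  by_contra hn
  have := const_of_preconnected hYc (fun w => g w ∈ A) (fun u v huv => propext ⟨fun hu => ?_,
    fun hv => ?_⟩) x y
  · exact a2 (this ▸ a1)
  · by_contra hv
    obtain ⟨e1, e2⟩ := a3 _ hu _ hv (g2 u v huv)
    exact hn (g1 e1 ▸ g1 e2 ▸ huv)
  · by_contra hu
    obtain ⟨e1, e2⟩ := a3 _ hv _ hu (g2 v u huv.symm)
    exact hn (g1 e1 ▸ g1 e2 ▸ huv.symm)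

theorem lo_of_imp {h : ℕ} {S : Finset V} (hS : Cover T S) (hcard : S.card = h + 1)
    (hi : Imp T H) : Lo H (h + 1) 0 := by
  have hA : Arrows (completeBipartiteGraph (Option (Fin 2 × Fin h)) ℕ) T 2 := by
    intro c hc
    obtain ⟨κ, hκ⟩ := Finite.exists_infinite_fiber
      fun (r : ℕ) (x : Option (Fin 2 × Fin h)) => c (.inl x) (.inr r)
    obtain ⟨i, hi⟩ : ∃ i, h + 1 ≤ (univ.filter fun x => κ x = i).card := by
      have := card_filter_add_card_filter_not (s := (univ : Finset (Option (Fin 2 × Fin h))))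
        fun x => κ x = 0
      rw [show (univ.filter fun x => ¬ κ x = 0) = univ.filter fun x => κ x = 1 from
        filter_congr fun x _ => by omega] at this
      simp only [card_univ, Fintype.card_option, Fintype.card_prod, Fintype.card_fin] at this
      by_cases h0 : h + 1 ≤ (univ.filter fun x => κ x = 0).card
      · exact ⟨0, h0⟩
      · exact ⟨1, by omega⟩
    refine ⟨i, emb_system (R := fun x y => (completeBipartiteGraph _ ℕ).Adj x y ∧ c x y = i)
      (fun x y hxy => ⟨hxy.1.symm, hc x y ▸ hxy.2⟩) hS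
      ((univ.filter fun x => κ x = i).image .inl) ?_ ?_⟩
    · rw [card_image_of_injective _ Sum.inl_injective]
      omega
    · refine ((Set.infinite_coe_iff.1 hκ).image Sum.inr_injective.injOn).mono ?_
      rintro _ ⟨r, hr, rfl⟩ x hx
      obtain ⟨y, hy, rfl⟩ := mem_image.1 hx
      refine ⟨by simp, ?_⟩
      rw [← (mem_filter.1 hy).2, ← Set.mem_singleton_iff.1 hr]
  let k : Option (Fin 2 × Fin h) → Fin 2 := fun x => x.elim 0 Prod.fst
  obtain ⟨σ, g, g1, g2⟩ := hi _ _ hA (fun x y => match x, y with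
    | .inl x, .inr _ => k x
    | .inr _, .inl x => k x
    | _, _ => 0) (by rintro (x | x) (y | y) <;> rfl)
  let P : Finset (Option (Fin 2 × Fin h) ⊕ ℕ) :=
    insert (.inl none) (univ.image fun i : Fin h => .inl (some (σ, i)))
  have hP : ∀ x, k x = σ → Sum.inl x ∈ P := by
    rintro (_ | ⟨s, i⟩) hx
    · exact mem_insert_self _ _
    · exact mem_insert_of_mem (mem_image.2 ⟨i, mem_univ _, by rw [← hx]; rfl⟩)
  have hP' : ∀ r, Sum.inr r ∉ P := fun r => by simp [P]
  refine lo_zero_iff.2 ⟨univ.filter fun v => g v ∈ P, ?_, fun u v huv => ?_⟩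
  · refine (card_le_card_of_injOn g (fun v hv => (mem_filter.1 hv).2) g1.injOn).trans ?_
    exact (card_insert_le _ _).trans (Nat.succ_le_succ (card_image_le.trans (by simp)))
  · obtain ⟨k1, k2⟩ := g2 u v huv
    simp only [mem_filter, mem_univ, true_and]
    generalize g u = x at *
    generalize g v = y at *
    rcases x with x | x <;> rcases y with y | y
    · simp at k1
    · exact iff_of_true (hP x k2) (hP' y)
    · exact iff_of_false (hP' x) (not_not.2 (hP y k2))
    · simp at k1

theorem no_split {h : ℕ} (hTc : T.Preconnected) (hl : ¬ Lo T h 0) (hi : Imp H T) {S : Finset W}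
    (hS : Cover H S) (β : W → ℕ) (hβ : ∀ u v, H.Adj u v → β u = β v) :
    ∃ k, h < (S.filter fun v => β v = k).card := by
  by_contra hcon
  push Not at hcon
  have hA : Arrows (lhost h (⊥ : SimpleGraph Unit) fun _ _ => True) H 2 := by
    intro c hc
    choose κ hκ using fun t => exists_pattern (F := (⊥ : SimpleGraph Unit))
      (τ := fun _ _ => True) c (ω := ()) (fun _ => trivial) 0 t
    have : ∀ t, ∃ i, h ≤ (hubs Unit 0 t (κ t) i).card := by
      intro t
      have := card_hubs_add (φ := Unit) 0 t (κ t)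
      by_cases h0 : h ≤ (hubs Unit 0 t (κ t) 0).card
      · exact ⟨0, h0⟩
      · exact ⟨1, by omega⟩
    choose ι hι using this
    obtain ⟨i, hi⟩ := Finite.exists_infinite_fiber ι
    by_contra hno
    refine Set.infinite_coe_iff.1 hi (finite_of_seq fun x hx hk => hno ⟨i, ?_⟩)
    have : Nonempty (HV h Unit) := ⟨.f 0 0 0 ()⟩
    refine emb_systems (R := fun x y => (lhost h (⊥ : SimpleGraph Unit) fun _ _ => True).Adj x y ∧
      c x y = i) (fun x y hxy => ⟨hxy.1.symm, hc x y ▸ hxy.2⟩) hS β hβ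
      (fun k => hubs Unit 0 (x k) (κ (x k)) i) (fun k l hkl => hubs_disjoint 0 (hx.ne hkl) _ _ _ _)
      (fun k => (hcon k).trans ?_) fun k => hκ _ _
    rw [← Set.mem_singleton_iff.1 (hk k)]
    exact hι _
  refine (standard (a := 0) (χ := fun _ _ => 0) hTc (fun _ _ => rfl) (fun _ _ _ => Iff.rfl)
    (fun σ z _ => by simp) (hi _ _ hA)).elim hl fun ⟨σ, f, _, f2⟩ => ?_
  obtain ⟨u, v, huv⟩ := exists_edge hl
  exact (f2 u v huv).1

theorem imp_induce (hT : ∀ v, ∃ w, T.Adj v w) (D : Set W) (hD : ∀ u v, H.Adj u v → u ∈ D)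
    (hi : Imp H T) : Imp (H.induce D) T := by
  intro U G hG c hc
  have hA : Arrows (G.sum (⊥ : SimpleGraph W)) H 2 := by
    intro c hc
    obtain ⟨i, f, f1, f2⟩ := hG (fun x y => c (.inl x) (.inl y)) fun x y => hc _ _
    refine ⟨i, fun v => if hv : v ∈ D then .inl (f ⟨v, hv⟩) else .inr v, fun u v e => ?_,
      fun u v huv => ?_⟩
    · simp only [] at e
      split_ifs at e with h1 h2
      · exact congrArg Subtype.val (f1 (Sum.inl_injective e))
      · exact Sum.inr_injective e
    · simp only [dif_pos (hD u v huv), dif_pos (hD v u huv.symm)]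
      exact f2 ⟨u, hD u v huv⟩ ⟨v, hD v u huv.symm⟩ huv
  obtain ⟨i, f, f1, f2⟩ := hi _ _ hA (fun x y => match x, y with
    | .inl x, .inl y => c x y
    | _, _ => 0) (by rintro (x | x) (y | y) <;> first | rfl | exact hc _ _)
  have : ∀ v, ∃ x, f v = .inl x := by
    intro v
    obtain ⟨w, hw⟩ := hT v
    have := (f2 v w hw).1
    rcases e : f v with x | x
    · exact ⟨x, rfl⟩
    · rcases e' : f w with y | y <;> simp [e, e'] at this
  choose g hg using this
  refine ⟨i, g, fun u v e => f1 (by rw [hg, hg, e]), fun u v huv => ?_⟩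
  have := f2 u v huv
  rw [hg, hg] at this
  exact this

theorem Tr.exists_cover (hT : Tr T) (ρ : V) : ∃ S, Cover T S := by
  obtain ⟨par, dep, hr⟩ := hT ρ
  refine ⟨univ.filter fun v => dep v % 2 = 0, fun u v huv => ?_⟩
  simp only [mem_filter, mem_univ, true_and]
  rcases hr.of_adj u v huv with h1 | h1
  · have := hr.dep u h1.1
    rw [h1.2] at this
    omega
  · have := hr.dep v h1.1
    rw [h1.2] at this
    omega

theorem map_of_nontrivial [Nontrivial V] (hT : T.IsTree) (h1 : Imp T H) (h2 : Imp H T) :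
    ∃ f : V ↪ W, H = T.map f := by
  have tr := tr_of_isTree hT
  have hTc := hT.connected.preconnected
  have hnb : ∀ v, ∃ w, T.Adj v w := fun v => by
    obtain ⟨w, hw⟩ := exists_ne v
    exact exists_adj hTc hw.symm
  have hex : ∃ s, Lo T s 0 := by
    obtain ⟨S, hS⟩ := tr.exists_cover (Classical.arbitrary V)
    exact ⟨_, lo_zero_iff.2 ⟨S, le_rfl, hS⟩⟩
  obtain ⟨h, hh⟩ : ∃ h, Nat.find hex = h + 1 := by
    refine Nat.exists_eq_succ_of_ne_zero fun e => ?_
    obtain ⟨S, s1, s2⟩ := lo_zero_iff.1 (e ▸ Nat.find_spec hex)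
    obtain rfl : S = ∅ := by simpa using s1
    obtain ⟨w, hw⟩ := hnb (Classical.arbitrary V)
    simpa using s2 _ _ hw
  have hl : ¬ Lo T h 0 := Nat.find_min hex (by omega)
  obtain ⟨S, s1, hS⟩ := lo_zero_iff.1 (hh ▸ Nat.find_spec hex)
  have hcard : S.card = h + 1 := by
    by_contra hne
    exact hl (lo_zero_iff.2 ⟨S, by omega, hS⟩)
  obtain ⟨X, x1, hX⟩ := lo_zero_iff.1 (lo_of_imp hS hcard h1)
  obtain ⟨ν, hν⟩ := exists_injective_nat H.ConnectedComponent
  obtain ⟨k, hk⟩ := no_split hTc hl h2 hX (fun v => ν (H.connectedComponentMk v))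
    fun u v huv => congrArg ν (SimpleGraph.ConnectedComponent.connectedComponentMk_eq_of_adj huv)
  have hall := eq_of_subset_of_card_le (filter_subset (fun v => ν (H.connectedComponentMk v) = k) X)
    (by omega)
  obtain ⟨x₀, hx₀⟩ := card_pos.1 (lt_of_le_of_lt (Nat.zero_le _) hk)
  let C := H.connectedComponentMk x₀
  have hXC : ∀ x ∈ X, x ∈ C.supp := by
    intro x hx
    rw [← hall] at hx
    exact hν ((mem_filter.1 hx).2.trans (mem_filter.1 hx₀).2.symm)
  have hD : ∀ u v, H.Adj u v → u ∈ C.supp := by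
    intro u v huv
    by_cases hu : u ∈ X
    · exact hXC u hu
    · exact C.mem_supp_of_adj_mem_supp (hXC v ((hX v u huv.symm).2 hu)) huv.symm
  have hYc : (H.induce C.supp).Preconnected := C.connected_toSimpleGraph.preconnected
  have i1 : Imp T (H.induce C.supp) :=
    h1.trans (imp_of_emb ⟨Subtype.val, Subtype.val_injective, fun _ _ h => h⟩)
  have i2 : Imp (H.induce C.supp) T := imp_induce hnb _ hD h2
  have trY := i1.tr tr hYc
  have hX' : Cover (H.induce C.supp) (univ.filter fun x => x.1 ∈ X) := fun u v huv => by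
    simpa using hX u v huv
  have hc1 : (univ.filter fun x : C.supp => x.1 ∈ X).card ≤ h + 1 :=
    (card_le_card_of_injOn Subtype.val (fun v hv => (mem_filter.1 hv).2)
      Subtype.val_injective.injOn).trans x1
  have hlY : ¬ Lo (H.induce C.supp) h 0 := by
    intro hlo
    obtain ⟨Z, z1, z2⟩ := lo_zero_iff.1 hlo
    obtain ⟨k, hk⟩ := no_split hTc hl i2 z2 (fun _ => 0) fun _ _ _ => rfl
    have := card_filter_le Z fun _ => 0 = k
    omega
  have hc2 : (univ.filter fun x : C.supp => x.1 ∈ X).card = h + 1 := by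
    by_contra hne
    exact hlY (lo_zero_iff.2 ⟨_, by omega, hX'⟩)
  obtain ⟨e, he⟩ : ∃ e : V ≃ C.supp, ∀ u v, T.Adj u v ↔ (H.induce C.supp).Adj (e u) (e v) := by
    rcases le_total (Fintype.card V) (Fintype.card C.supp) with hle | hle
    · obtain ⟨e, he⟩ := iso_of_emb tr hYc
        (emb_of_imp tr hTc hS hcard hl trY hYc hX' hc2 i1 i2 hle) hle
      exact ⟨e.symm, fun u v => by simp only [he, Equiv.apply_symm_apply]⟩
    · exact iso_of_emb trY hTc (emb_of_imp trY hYc hX' hc2 hlY tr hTc hS hcard i2 i1 hle) hle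
  refine ⟨e.toEmbedding.trans (Function.Embedding.subtype _), ?_⟩
  ext x y
  rw [SimpleGraph.map_adj]
  constructor
  · intro hxy
    refine ⟨e.symm ⟨x, hD x y hxy⟩, e.symm ⟨y, hD y x hxy.symm⟩, ?_, by simp, by simp⟩
    rw [he]
    simpa using hxy
  · rintro ⟨u, v, huv, rfl, rfl⟩
    exact (he u v).1 huv

theorem map_of_subsingleton [Subsingleton V] [Nonempty V] (h1 : Imp T H) (h2 : Imp H T) :
    ∃ f : V ↪ W, H = T.map f := by
  have hT : ∀ u v, ¬ T.Adj u v := fun u v huv => huv.ne (Subsingleton.elim u v)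
  obtain ⟨i, g, g1, g2⟩ := h1 Unit ⊥
    (fun c _ => ⟨0, fun _ => (), fun u v _ => Subsingleton.elim u v,
      fun u v huv => absurd huv (hT u v)⟩) (fun _ _ => 0) fun _ _ => rfl
  have : Nonempty W := by
    by_contra hW
    rw [not_nonempty_iff] at hW
    obtain ⟨i, f, -⟩ := h2 Empty ⊥ (fun c _ => ⟨0, fun w => hW.elim w, fun w => hW.elim w,
      fun w => hW.elim w⟩) (fun _ _ => 0) fun _ _ => rfl
    exact (f (Classical.arbitrary V)).elim
  refine ⟨⟨fun _ => Classical.arbitrary W, fun u v _ => Subsingleton.elim u v⟩, ?_⟩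
  ext x y
  rw [SimpleGraph.map_adj]
  exact ⟨fun hxy => (g2 x y hxy).1.elim, fun ⟨u, v, huv, _⟩ => absurd huv (hT u v)⟩

theorem tree_main (hT : T.IsTree) (h : RamseyEquiv T H 2) :
    (∃ f : V ↪ W, H = T.map f) ∧ ∀ q, 2 ≤ q → RamseyEquiv T H q := by
  have key : ∃ f : V ↪ W, H = T.map f := by
    have := hT.connected.nonempty
    rcases subsingleton_or_nontrivial V with hV | hV
    · exact map_of_subsingleton h.toImp h.symm.toImp
    · exact map_of_nontrivial hT h.toImp h.symm.toImp
  refine ⟨key, fun q hq => ?_⟩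
  obtain ⟨f, rfl⟩ := key
  exact equiv_of_emb ⟨f, f.injective, fun u v huv => SimpleGraph.map_adj_apply.2 huv⟩ h hq

end Pool.Agent.Lib.MP_781e3b_co
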