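import Pool.Agent.Lib.MP_781e3b_co.TEmb

/-!
Hubs joined to stars, greedy embeddings.
-/

set_option linter.unusedVariables false
set_option linter.unusedSectionVars false

namespace Pool.Agent.Lib.MP_781e3b_co

open Finset Classical

variable {V U : Type} [Fintype V] {H T : SimpleGraph V} {R : U → U → Prop}

/-- A closed pair. -/
def Pair (T : SimpleGraph V) (S : Finset V) (j : ℕ) (A B : Finset V) : Prop :=
  A ⊆ S ∧ (∀ w ∈ B, w ∉ S) ∧ B.card < A.card ∧ (∀ w ∈ B, ∀ x, T.Adj w x → x ∈ A) ∧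
    ∀ u ∈ A, (univ.filter fun y => T.Adj u y ∧ y ∉ B).card ≤ j

theorem pair_of_lo {S : Finset V} (hS : Cover T S) {h j : ℕ} (hcard : S.card = h + 1)
    (hl : Lo T h j) : ∃ A B, Pair T S j A B := by
  obtain ⟨X, h1, h2, h3⟩ := hl
  refine ⟨S \ X, X \ S, sdiff_subset, fun w hw => (mem_sdiff.1 hw).2, ?_, ?_, ?_⟩
  · have e1 := card_sdiff_add_card_inter S X
    have e2 := card_sdiff_add_card_inter X S
    rw [inter_comm] at e2
    omega
  · intro w hw x hx
    rw [mem_sdiff] at hw ⊢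
    exact ⟨(hS x w hx.symm).2 hw.2, fun hX => h2 w hw.1 x hX hx⟩
  · intro u hu
    rw [mem_sdiff] at hu
    refine le_trans (card_le_card fun y hy => ?_) (h3 u hu.2)
    simp only [mem_filter, mem_univ, true_and, mem_sdiff, not_and, not_not] at hy ⊢
    exact ⟨hy.1, fun hX => (hS u y hy.1).1 hu.1 (hy.2 hX)⟩

theorem Pair.restrict {S : Finset V} {j : ℕ} {A B : Finset V} (hp : Pair T S j A B)
    (C : Finset V) (hC : ∀ w ∈ B, ∀ x, T.Adj w x → (w ∈ C ↔ x ∈ C))
    (hlt : (B ∩ C).card < (A ∩ C).card) : Pair T S j (A ∩ C) (B ∩ C) := by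
  obtain ⟨p1, p2, p3, p4, p5⟩ := hp
  refine ⟨inter_subset_left.trans p1, fun w hw => p2 w (mem_inter.1 hw).1, hlt, ?_, ?_⟩
  · intro w hw x hx
    rw [mem_inter] at hw ⊢
    exact ⟨p4 w hw.1 x hx, (hC w hw.1 x hx).1 hw.2⟩
  · intro u hu
    rw [mem_inter] at hu
    refine le_trans (card_le_card fun y hy => ?_) (p5 u hu.1)
    simp only [mem_filter, mem_univ, true_and, mem_inter, not_and] at hy ⊢
    exact ⟨hy.1, fun hB => hy.2 hB ((hC y hB u hy.1.symm).2 hu.2)⟩

theorem Tr.star_form (hT : Tr T) {S : Finset V} (hS : Cover T S) {h j : ℕ}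
    (hcard : S.card = h + 1) (hl : Lo T h j) : ∃ A B, Pair T S j A B ∧
      ∀ w, w ∉ B → ∀ u ∈ A, ∀ u' ∈ A, T.Adj w u → T.Adj w u' → u = u' := by
  obtain ⟨A, B, hp⟩ := pair_of_lo hS hcard hl
  induction hn : A.card using Nat.strong_induction_on generalizing A B with
  | _ n ih =>
  by_contra hcon
  apply hcon
  refine ⟨A, B, hp, fun w hw u hu u' hu' h1 h2 => ?_⟩
  by_contra hne
  obtain ⟨C, c1, c2, c3⟩ := hT.bridge h1.symm
  have hu'C : u' ∉ C := fun h => hne (c3 u' h w c2 h2.symm).1.symm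
  have hC : ∀ x ∈ B, ∀ y, T.Adj x y → (x ∈ C ↔ y ∈ C) := by
    intro x hx y hxy
    constructor
    · intro h
      by_contra h'
      have := (c3 x h y h' hxy).1
      exact hp.2.1 x hx (this ▸ hp.1 hu)
    · intro h
      by_contra h'
      exact hw ((c3 y h x h' hxy.symm).2 ▸ hx)
  have e1 := card_inter_add_card_sdiff A C
  have e2 := card_inter_add_card_sdiff B C
  have e3 := hp.2.2.1
  have q1 : 0 < (A ∩ C).card := card_pos.2 ⟨u, mem_inter.2 ⟨hu, c1⟩⟩
  have q2 : 0 < (A \ C).card := card_pos.2 ⟨u', mem_sdiff.2 ⟨hu', hu'C⟩⟩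
  by_cases hlt : (B ∩ C).card < (A ∩ C).card
  · exact hcon (ih _ (by omega) _ _ (hp.restrict C hC hlt) rfl)
  · have e4 : ∀ X : Finset V, X ∩ Cᶜ = X \ C := fun X => by ext; simp
    refine hcon (ih (A ∩ Cᶜ).card (by rw [e4]; omega) _ _ (hp.restrict Cᶜ (fun x hx y hxy => ?_)
      (by rw [e4, e4]; omega)) rfl)
    simp only [mem_compl]
    exact not_congr (hC x hx y hxy)

/-- Hubs joined to many disjoint stars. -/
theorem Tr.emb_stars (hT : Tr T) (hR : ∀ x y, R x y → R y x) {S : Finset V} (hS : Cover T S)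
    {h j : ℕ} (hcard : S.card = h + 1) (hl : Lo T h j) (P : Finset U) (hc : h ≤ P.card)
    (z : ℕ → U) (L : ℕ → Finset U) (hL : ∀ r, j ≤ (L r).card) (hzL : ∀ r, z r ∉ L r)
    (hd : ∀ r r', r ≠ r' → Disjoint (insert (z r) (L r)) (insert (z r') (L r')))
    (hP : ∀ r, ∀ y ∈ insert (z r) (L r), y ∉ P ∧ ∀ p ∈ P, R p y)
    (hz : ∀ r, ∀ y ∈ L r, R (z r) y) : Emb T R := by
  obtain ⟨A, B, ⟨p1, p2, p3, p4, p5⟩, p6⟩ := hT.star_form hS hcard hl
  have : Nonempty U := ⟨z 0⟩
  have : Nonempty V := ⟨(card_pos.1 (show 0 < S.card by omega)).choose⟩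
  obtain ⟨ν, hν⟩ := exists_injective_nat V
  have hS' : (S \ A ∪ B).card ≤ P.card := by
    have := card_union_le (S \ A) B
    have := card_sdiff_add_card_eq_card p1
    omega
  obtain ⟨g, g1, g2⟩ := exists_inj_of_card _ P hS'
  let F : Finset V := univ.filter fun v => v ∈ A ∨ (v ∉ B ∧ ∃ u ∈ A, T.Adj v u)
  have : ∀ v, ∃ c, (v ∈ A → c = v) ∧ (v ∉ A → v ∈ F → c ∈ A ∧ T.Adj v c ∧ v ∉ B) := by
    intro v
    by_cases hv : v ∈ A
    · exact ⟨v, fun _ => rfl, fun h => absurd hv h⟩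
    · by_cases hF : v ∈ F
      · obtain ⟨h1, u, h2, h3⟩ := (mem_filter.1 hF).2.resolve_left hv
        exact ⟨u, fun h => absurd h hv, fun _ _ => ⟨h2, h3, h1⟩⟩
      · exact ⟨v, fun _ => rfl, fun _ h => absurd h hF⟩
  choose c c1 c2 using this
  let β : V → ℕ := fun v => ν (c v)
  have hinv : ∀ v, Function.invFun ν (β v) = c v := fun v => Function.leftInverse_invFun hν _
  have hcnt : ∀ k, (F.filter fun v => β v = k).card ≤ (insert (z k) (L k)).card := by
    intro k
    rcases (F.filter fun v => β v = k).eq_empty_or_nonempty with e | ⟨v₀, hv₀⟩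
    · simp [e]
    rw [mem_filter] at hv₀
    have hA : c v₀ ∈ A := by
      by_cases h0 : v₀ ∈ A
      · rwa [c1 v₀ h0]
      · exact (c2 v₀ h0 hv₀.1).1
    have hsub : (F.filter fun v => β v = k) ⊆
        insert (c v₀) (univ.filter fun y => T.Adj (c v₀) y ∧ y ∉ B) := by
      intro v hv
      rw [mem_filter] at hv
      have e : c v = c v₀ := hν (hv.2.trans hv₀.2.symm)
      by_cases h0 : v ∈ A
      · rw [← e, c1 v h0]
        exact mem_insert_self _ _
      · have := c2 v h0 hv.1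
        exact mem_insert_of_mem (mem_filter.2 ⟨mem_univ _, e ▸ this.2.1.symm, this.2.2⟩)
    have h1 := card_le_card hsub
    have h2 := card_insert_le (c v₀) (univ.filter fun y => T.Adj (c v₀) y ∧ y ∉ B)
    have h3 := p5 _ hA
    have h4 := hL k
    rw [card_insert_of_notMem (hzL k)]
    omega
  choose g' k1 k2 k3 using fun k =>
    exists_inj_anchor _ _ (hcnt k) (z k) (mem_insert_self _ _) (Function.invFun ν k)
  have gi := glue_inj F β (fun k => insert (z k) (L k)) hd g' k1 k2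
  have gm : ∀ v ∈ F, g' (β v) v ∈ insert (z (β v)) (L (β v)) := fun v hv => k2 _ v (by simp [hv])
  have hAF : ∀ v ∈ A, v ∈ F := fun v hv => mem_filter.2 ⟨mem_univ _, Or.inl hv⟩
  have ga : ∀ v ∈ A, g' (β v) v = z (β v) := by
    intro v hv
    rw [← k3 (β v), hinv, c1 v hv]
  have hAE : ∀ u ∈ A, ∀ w ∈ F, T.Adj u w → R (g' (β u) u) (g' (β w) w) := by
    intro u hu w hw huw
    have hwA : w ∉ A := fun h => (hS u w huw).1 (p1 hu) (p1 h)
    obtain ⟨d1, d2, d3⟩ := c2 w hwA hw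
    have e : β w = β u := by
      simp only [β]
      rw [c1 u hu, p6 w d3 _ d1 u hu d2 huw.symm]
    rw [ga u hu, ← e]
    refine hz _ _ ((mem_insert.1 (gm w hw)).resolve_left fun h => huw.ne ?_)
    refine gi (hAF u hu) hw ?_
    simp only []
    rw [h, ga u hu, e]
  have hD : ∀ v, v ∈ (S \ A ∪ B) ∪ F → v ∉ S \ A ∪ B → v ∈ F :=
    fun v hv hv' => (mem_union.1 hv).resolve_left hv'
  refine emb_of_core hR ((S \ A ∪ B) ∪ F) (fun v => if v ∈ S \ A ∪ B then g v else g' (β v) v)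
    ?_ ?_ ?_ ?_
  · intro a ha b hb hab
    simp only [] at hab
    by_cases h1 : a ∈ S \ A ∪ B <;> by_cases h2 : b ∈ S \ A ∪ B
    · rw [if_pos h1, if_pos h2] at hab
      exact g1 h1 h2 hab
    · rw [if_pos h1, if_neg h2] at hab
      exact absurd (hab ▸ g2 a h1) (hP _ _ (gm b (hD b hb h2))).1
    · rw [if_neg h1, if_pos h2] at hab
      exact absurd (hab ▸ g2 b h2) (hP _ _ (gm a (hD a ha h1))).1
    · rw [if_neg h1, if_neg h2] at hab
      exact gi (hD a ha h1) (hD b hb h2) hab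
  · intro a ha b hb hab
    by_cases h1 : a ∈ S \ A ∪ B <;> by_cases h2 : b ∈ S \ A ∪ B
    · exfalso
      have := hS a b hab
      have := p4 a
      have := p4 b
      have := p2 a
      have := p2 b
      have := hab.symm
      simp only [mem_union, mem_sdiff] at h1 h2
      grind
    · simp only [if_pos h1, if_neg h2]
      exact (hP _ _ (gm b (hD b hb h2))).2 _ (g2 a h1)
    · simp only [if_neg h1, if_pos h2]
      exact hR _ _ ((hP _ _ (gm a (hD a ha h1))).2 _ (g2 b h2))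
    · simp only [if_neg h1, if_neg h2]
      by_cases h3 : a ∈ S
      · refine hAE a ?_ b (hD b hb h2) hab
        by_contra h4
        exact h1 (mem_union_left _ (mem_sdiff.2 ⟨h3, h4⟩))
      · refine hR _ _ (hAE b ?_ a (hD a ha h1) hab.symm)
        by_contra h4
        exact h2 (mem_union_left _ (mem_sdiff.2 ⟨(hS b a hab.symm).2 h3, h4⟩))
  all_goals
    have hSD : ∀ v ∈ S, v ∈ (S \ A ∪ B) ∪ F := by
      intro v hv
      by_cases h4 : v ∈ A
      · exact mem_union_right _ (hAF v h4)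
      · exact mem_union_left _ (mem_union_left _ (mem_sdiff.2 ⟨hv, h4⟩))
  · intro a ha b hab
    exact hSD b ((hS b a hab.symm).2 fun h => ha (hSD a h))
  · intro a ha
    have hzi : Function.Injective z := by
      intro r r' e
      by_contra hne
      exact disjoint_left.1 (hd r r' hne) (mem_insert_self _ _) (e ▸ mem_insert_self _ _)
    refine (Set.infinite_range_of_injective hzi).mono ?_
    rintro _ ⟨r, rfl⟩ b hab
    have hb : b ∈ S \ A ∪ B := by
      refine mem_union_left _ (mem_sdiff.2 ⟨(hS b a hab.symm).2 fun h => ha (hSD a h), fun h => ?_⟩)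
      refine ha (mem_union_right _ (mem_filter.2 ⟨mem_univ _, Or.inr ⟨fun h' => ?_, b, h, hab⟩⟩))
      exact ha (mem_union_left _ (mem_union_right _ h'))
    simp only [if_pos hb]
    exact (hP r _ (mem_insert_self _ _)).2 _ (g2 b hb)

/-- Greedy embedding of a rooted subtree. -/
theorem Rooted.greedy {ρ : V} {par : V → V} {dep : V → ℕ} (hr : Rooted T ρ par dep)
    (hR : ∀ x y, R x y → R y x) (hi : ∀ x, ¬ R x x) (X : Finset U) (x₀ : U) (hx₀ : x₀ ∈ X)
    (A : Finset V) (hρ : ρ ∈ A) (hA : ∀ v ∈ A, v ≠ ρ → par v ∈ A)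
    (hdeg : ∀ x ∈ X, A.card ≤ (X.filter (R x)).card + 1) :
    ∃ f : V → U, Set.InjOn f A ∧ f ρ = x₀ ∧ (∀ v ∈ A, f v ∈ X) ∧
      ∀ u ∈ A, ∀ v ∈ A, T.Adj u v → R (f u) (f v) := by
  induction hn : A.card using Nat.strong_induction_on generalizing A with
  | _ n ih =>
  rcases (A.erase ρ).eq_empty_or_nonempty with e | hne
  · have hA1 : ∀ v ∈ A, v = ρ := by
      intro v hv
      by_contra h
      exact notMem_empty v (e ▸ mem_erase.2 ⟨h, hv⟩)
    refine ⟨fun _ => x₀, fun a ha b hb _ => by rw [hA1 a ha, hA1 b hb], rfl, fun _ _ => hx₀,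
      fun u hu v hv huv => ?_⟩
    rw [hA1 u hu, hA1 v hv] at huv
    exact absurd huv T.irrefl
  obtain ⟨v, hv, hmax⟩ := exists_max_image _ dep hne
  rw [mem_erase] at hv
  have hch : ∀ u ∈ A, u ≠ ρ → par u ≠ v := by
    intro u hu huρ e
    have h1 := hr.dep u huρ
    have h2 := hmax u (mem_erase.2 ⟨huρ, hu⟩)
    rw [e] at h1
    omega
  have hcard := card_erase_add_one hv.2
  obtain ⟨f, f1, f2, f3, f4⟩ := ih (A.erase v).card (by omega) (A.erase v)
    (mem_erase.2 ⟨hv.1.symm, hρ⟩)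
    (fun u hu huρ => mem_erase.2 ⟨hch u (mem_erase.1 hu).2 huρ, hA u (mem_erase.1 hu).2 huρ⟩)
    (fun x hx => le_trans (by omega) (hdeg x hx)) rfl
  have hp : par v ∈ A.erase v := mem_erase.2 ⟨(hr.adj v hv.1).ne.symm, hA v hv.2 hv.1⟩
  obtain ⟨y, hy, hy'⟩ : ∃ y ∈ X.filter (R (f (par v))), y ∉ ((A.erase v).erase (par v)).image f := by
    refine exists_mem_notMem_of_card_lt_card (lt_of_le_of_lt card_image_le ?_)
    have := hdeg _ (f3 _ hp)
    have := card_erase_add_one hp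
    omega
  rw [mem_filter] at hy
  have hyn : ∀ u ∈ A.erase v, f u ≠ y := by
    intro u hu e
    by_cases h1 : u = par v
    · rw [← h1, e] at hy
      exact hi _ hy.2
    · exact hy' (e ▸ mem_image_of_mem f (mem_erase.2 ⟨h1, hu⟩))
  have hnb : ∀ u ∈ A, T.Adj v u → u = par v := by
    intro u hu hvu
    rcases hr.of_adj v u hvu with h1 | h1
    · exact h1.2.symm
    · exact absurd h1.2 (hch u hu h1.1)
  refine ⟨Function.update f v y, ?_, ?_, fun u hu => ?_, fun a ha b hb hab => ?_⟩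
  · intro a ha b hb hab
    by_cases h1 : a = v <;> by_cases h2 : b = v
    · rw [h1, h2]
    · subst h1
      rw [Function.update_self, Function.update_of_ne h2] at hab
      exact absurd hab.symm (hyn b (mem_erase.2 ⟨h2, hb⟩))
    · subst h2
      rw [Function.update_self, Function.update_of_ne h1] at hab
      exact absurd hab (hyn a (mem_erase.2 ⟨h1, ha⟩))
    · rw [Function.update_of_ne h1, Function.update_of_ne h2] at hab
      exact f1 (mem_erase.2 ⟨h1, ha⟩) (mem_erase.2 ⟨h2, hb⟩) hab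
  · rw [Function.update_of_ne hv.1.symm, f2]
  · by_cases h1 : u = v
    · rw [h1, Function.update_self]
      exact hy.1
    · rw [Function.update_of_ne h1]
      exact f3 u (mem_erase.2 ⟨h1, hu⟩)
  · by_cases h1 : a = v
    · subst h1
      rw [Function.update_self, Function.update_of_ne hab.ne.symm, hnb b hb hab]
      exact hR _ _ hy.2
    · by_cases h2 : b = v
      · subst h2
        rw [Function.update_self, Function.update_of_ne h1, hnb a ha hab.symm]
        exact hy.2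
      · rw [Function.update_of_ne h1, Function.update_of_ne h2]
        exact f4 a (mem_erase.2 ⟨h1, ha⟩) b (mem_erase.2 ⟨h2, hb⟩) hab

/-- Two dense sets joined by an edge. -/
theorem Tr.emb_join (hT : Tr T) (hR : ∀ x y, R x y → R y x) (hi : ∀ x, ¬ R x x) {u w : V}
    (huw : T.Adj u w) {A : Finset V} (hu : u ∈ A) (hw : w ∉ A)
    (hA : ∀ x ∈ A, ∀ y, y ∉ A → T.Adj x y → x = u ∧ y = w) (X Y : Finset U) (hXY : Disjoint X Y)
    {x₀ y₀ : U} (hx₀ : x₀ ∈ X) (hy₀ : y₀ ∈ Y) (hxy : R x₀ y₀)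
    (hX : ∀ x ∈ X, A.card ≤ (X.filter (R x)).card + 1)
    (hY : ∀ y ∈ Y, Aᶜ.card ≤ (Y.filter (R y)).card + 1) : Emb T R := by
  obtain ⟨par, dep, hr⟩ := hT u
  obtain ⟨par', dep', hr'⟩ := hT w
  obtain ⟨f, f1, f2, f3, f4⟩ := hr.greedy hR hi X x₀ hx₀ A hu (fun v hv hvu => by
    by_contra h
    exact hvu (hA v hv _ h (hr.adj v hvu)).1) hX
  obtain ⟨g, g1, g2, g3, g4⟩ := hr'.greedy hR hi Y y₀ hy₀ Aᶜ (mem_compl.2 hw) (fun v hv hvw => by
    rw [mem_compl] at hv ⊢
    intro h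
    exact hvw (hA _ h v hv (hr'.adj v hvw).symm).2) hY
  refine ⟨fun v => if v ∈ A then f v else g v, fun a b hab => ?_, fun a b hab => ?_⟩
  · simp only [] at hab
    by_cases h1 : a ∈ A <;> by_cases h2 : b ∈ A
    · rw [if_pos h1, if_pos h2] at hab
      exact f1 h1 h2 hab
    · rw [if_pos h1, if_neg h2] at hab
      exact absurd (hab ▸ f3 a h1) (disjoint_right.1 hXY (g3 b (mem_compl.2 h2)))
    · rw [if_neg h1, if_pos h2] at hab
      exact absurd (hab ▸ f3 b h2) (disjoint_right.1 hXY (g3 a (mem_compl.2 h1)))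
    · rw [if_neg h1, if_neg h2] at hab
      exact g1 (mem_compl.2 h1) (mem_compl.2 h2) hab
  · by_cases h1 : a ∈ A <;> by_cases h2 : b ∈ A
    · simp only [if_pos h1, if_pos h2]
      exact f4 a h1 b h2 hab
    · simp only [if_pos h1, if_neg h2]
      obtain ⟨rfl, rfl⟩ := hA a h1 b h2 hab
      rwa [f2, g2]
    · simp only [if_neg h1, if_pos h2]
      obtain ⟨rfl, rfl⟩ := hA b h2 a h1 hab.symm
      rw [f2, g2]
      exact hR _ _ hxy
    · simp only [if_neg h1, if_neg h2]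
      exact g4 a (mem_compl.2 h1) b (mem_compl.2 h2) hab

theorem deg_of_not_lo {S : Finset V} (hS : Cover T S) {h a : ℕ} (hcard : S.card = h + 1)
    (hl : ¬ Lo T h a) {u : V} (hu : u ∈ S) : a + 1 ≤ (univ.filter (T.Adj u)).card := by
  by_contra hcon
  refine hl ⟨S.erase u, by rw [card_erase_of_mem hu]; omega,
    fun x hx y hy hxy => (hS x y hxy).1 (mem_erase.1 hx).2 (mem_erase.1 hy).2, fun v hv => ?_⟩
  by_cases h1 : v = u
  · subst h1
    exact le_trans (card_le_card fun y hy => mem_filter.2 ⟨mem_univ _, (mem_filter.1 hy).2.1⟩)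
      (by omega)
  · have hvS : v ∉ S := fun h => hv (mem_erase.2 ⟨h1, h⟩)
    rcases (univ.filter fun w => T.Adj v w ∧ w ∉ S.erase u).eq_empty_or_nonempty with e | ⟨y, hy⟩
    · rw [e]
      simp
    have key : ∀ y ∈ (univ.filter fun w => T.Adj v w ∧ w ∉ S.erase u), y = u := by
      intro y hy
      have hy := (mem_filter.1 hy).2
      by_contra h
      exact hy.2 (mem_erase.2 ⟨h, (hS y v hy.1.symm).2 hvS⟩)
    have h2 : (univ.filter fun w => T.Adj v w ∧ w ∉ S.erase u).card ≤ 1 :=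
      card_le_one.2 fun a ha b hb => (key a ha).trans (key b hb).symm
    have h3 : 0 < (univ.filter (T.Adj u)).card :=
      card_pos.2 ⟨v, mem_filter.2 ⟨mem_univ _, key y hy ▸ (mem_filter.1 hy).2.1.symm⟩⟩
    omega

/-- An edge with two large sides. -/
theorem Tr.exists_split (hT : Tr T) {S : Finset V} (hS : Cover T S) {h a : ℕ}
    (hcard : S.card = h + 1) (hh : 1 ≤ h) (hl : ¬ Lo T h a) :
    ∃ (u w : V) (A : Finset V), T.Adj u w ∧ u ∈ A ∧ w ∉ A ∧
      (∀ x ∈ A, ∀ y, y ∉ A → T.Adj x y → x = u ∧ y = w) ∧ a + 1 ≤ A.card ∧ a + 1 ≤ Aᶜ.card := by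
  obtain ⟨w, u, u', hw, huu, hu, hu'⟩ := hT.exists_inner hS (by omega)
  obtain ⟨A, a1, a2, a3⟩ := hT.bridge hu.symm
  refine ⟨u, w, A, hu.symm, a1, a2, a3, ?_, ?_⟩
  · have h1 := deg_of_not_lo hS hcard hl ((hS u w hu.symm).2 hw)
    have h2 : insert u ((univ.filter (T.Adj u)).erase w) ⊆ A := by
      intro y hy
      rcases mem_insert.1 hy with rfl | hy
      · exact a1
      · by_contra h
        exact (mem_erase.1 hy).1 (a3 u a1 y h (mem_filter.1 (mem_erase.1 hy).2).2).2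
    have h3 := card_le_card h2
    rw [card_insert_of_notMem (by simp), card_erase_of_mem (by simp [hu.symm])] at h3
    omega
  · refine (deg_of_not_lo hS hcard hl ((hS u' w hu'.symm).2 hw)).trans (card_le_card fun y hy => ?_)
    have hu'A : u' ∉ A := fun h => huu (a3 u' h w a2 hu'.symm).1.symm
    rw [mem_compl]
    intro h
    exact hu'.ne (a3 y h u' hu'A (mem_filter.1 hy).2.symm).2.symm

/-- A leaf. -/
theorem Tr.exists_leaf (hT : Tr T) [Nontrivial V] :
    ∃ l p, T.Adj l p ∧ ∀ y, T.Adj l y → y = p := by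
  obtain ⟨ρ, v₀, hne⟩ := exists_pair_ne V
  obtain ⟨par, dep, hr⟩ := hT ρ
  obtain ⟨v, hv, hmax⟩ := exists_max_image (univ.erase ρ) dep ⟨v₀, by simp [hne.symm]⟩
  have hv' : v ≠ ρ := (mem_erase.1 hv).1
  refine ⟨v, par v, hr.adj v hv', fun y hy => ?_⟩
  rcases hr.of_adj v y hy with h1 | h1
  · exact h1.2.symm
  · have h2 := hr.dep y h1.1
    have h3 := hmax y (by simp [h1.1])
    rw [h1.2] at h2
    omega

end Pool.Agent.Lib.MP_781e3b_co
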